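import Mathlib

set_option autoImplicit false

/-!
Power series over the `p`-adic integers: convergent combinations and zeros.
-/

namespace Pool.Agent.H219R3.FT

open PowerSeries Cardinal

variable (p : ℕ) [hp : Fact p.Prime]

/-- the ring of power series over the `p`-adic integers -/
abbrev S : Type := PowerSeries ℤ_[p]

variable {p}

theorem norm_p_pow_mul (m : ℕ) (a : ℤ_[p]) : ‖(p : ℤ_[p]) ^ m * a‖ ≤ ((p : ℝ)⁻¹) ^ m := by
  rw [norm_mul, norm_pow, PadicInt.norm_p]
  have h1 : ‖a‖ ≤ 1 := PadicInt.norm_le_one a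
  have h2 : 0 ≤ ((p : ℝ)⁻¹) ^ m := by positivity
  nlinarith

theorem inv_p_lt_one : ((p : ℝ)⁻¹) < 1 := by
  have : (1 : ℝ) < p := by exact_mod_cast hp.1.one_lt
  exact inv_lt_one_of_one_lt₀ this

theorem summable_p (a : ℕ → ℤ_[p]) : Summable (fun m => (p : ℤ_[p]) ^ m * a m) := by
  apply Summable.of_norm_bounded (g := fun m => ((p : ℝ)⁻¹) ^ m)
  · exact summable_geometric_of_lt_one (by positivity) inv_p_lt_one
  · intro m
    exact norm_p_pow_mul m (a m)

/-- `∑ p ^ m a_m` -/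
noncomputable def Ts (a : ℕ → ℤ_[p]) : ℤ_[p] := ∑' m, (p : ℤ_[p]) ^ m * a m

theorem Ts_add (a b : ℕ → ℤ_[p]) : Ts (fun m => a m + b m) = Ts a + Ts b := by
  unfold Ts
  rw [← (summable_p a).tsum_add (summable_p b)]
  congr 1
  funext m
  ring

theorem Ts_mul (c : ℤ_[p]) (a : ℕ → ℤ_[p]) : Ts (fun m => c * a m) = c * Ts a := by
  unfold Ts
  rw [← (summable_p a).tsum_mul_left]
  congr 1
  funext m
  ring

theorem Ts_sum {ι : Type*} (s : Finset ι) (a : ι → ℕ → ℤ_[p]) :
    Ts (fun m => ∑ i ∈ s, a i m) = ∑ i ∈ s, Ts (a i) := by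
  classical
  induction s using Finset.induction_on with
  | empty => simp [Ts]
  | insert i s hi ih =>
    simp only [Finset.sum_insert hi]
    rw [Ts_add, ih]

theorem Ts_succ (a : ℕ → ℤ_[p]) : Ts a = a 0 + p * Ts (fun m => a (m + 1)) := by
  unfold Ts
  rw [(summable_p a).tsum_eq_zero_add, ← (summable_p fun m => a (m + 1)).tsum_mul_left]
  simp only [pow_zero, one_mul, add_right_inj]
  congr 1
  funext m
  ring

/-- a finite part of the sum -/
theorem Ts_trunc (a : ℕ → ℤ_[p]) (n : ℕ) :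
    ∃ r, Ts a = ∑ m ∈ Finset.range n, (p : ℤ_[p]) ^ m * a m + (p : ℤ_[p]) ^ n * r := by
  induction n generalizing a with
  | zero => exact ⟨Ts a, by simp⟩
  | succ n ih =>
    obtain ⟨r, hr⟩ := ih (fun m => a (m + 1))
    refine ⟨r, ?_⟩
    rw [Ts_succ, hr, Finset.sum_range_succ', mul_add, Finset.mul_sum]
    simp only [pow_zero, one_mul]
    have : ∀ m, (p : ℤ_[p]) * (p ^ m * a (m + 1)) = p ^ (m + 1) * a (m + 1) := fun m => by ring
    simp only [this]
    ring

/-- division by a zero -/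
theorem exists_div (β : ℕ → ℤ_[p]) (t0 : ℤ_[p]) (h0 : Ts (fun m => t0 ^ m * β m) = 0) :
    ∃ β' : ℕ → ℤ_[p], (β 0 = - (p * t0) * β' 0) ∧
      (∀ j, β (j + 1) = β' j - p * t0 * β' (j + 1)) ∧
      ∀ t, Ts (fun m => t ^ m * β m) = (p : ℤ_[p]) * (t - t0) * Ts (fun m => t ^ m * β' m) := by
  let β' : ℕ → ℤ_[p] := fun j => Ts (fun i => t0 ^ i * β (j + 1 + i))
  have h1 : ∀ j, β' j = β (j + 1) + p * t0 * β' (j + 1) := by
    intro j
    show Ts _ = _
    rw [Ts_succ]
    simp only [pow_zero, one_mul, add_zero]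
    have : (fun m => t0 ^ (m + 1) * β (j + 1 + (m + 1))) =
        fun m => t0 * (t0 ^ m * β (j + 1 + 1 + m)) := by
      funext m
      have : j + 1 + (m + 1) = j + 1 + 1 + m := by ring
      rw [this]; ring
    rw [this, Ts_mul]
    show β (j + 1) + p * (t0 * β' (j + 1)) = _
    ring
  have h2 : β 0 = -(p * t0) * β' 0 := by
    rw [Ts_succ] at h0
    simp only [pow_zero, one_mul] at h0
    have : (fun m => t0 ^ (m + 1) * β (m + 1)) = fun m => t0 * (t0 ^ m * β (0 + 1 + m)) := by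
      funext m
      have : m + 1 = 0 + 1 + m := by ring
      rw [this]; ring
    rw [this, Ts_mul] at h0
    have h3 : β 0 + p * (t0 * β' 0) = 0 := h0
    linear_combination h3
  have h3 : ∀ j, β (j + 1) = β' j - p * t0 * β' (j + 1) := by
    intro j
    rw [h1 j]; ring
  refine ⟨β', h2, h3, fun t => ?_⟩
  rw [Ts_succ, Ts_succ (fun m => t ^ m * β' m)]
  simp only [pow_zero, one_mul]
  have e1 : (fun m => t ^ (m + 1) * β (m + 1)) =
      fun m => t * (t ^ m * β' m) + (-(p * t0)) * (t ^ (m + 1) * β' (m + 1)) := by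
    funext m
    rw [h3 m]; ring
  rw [e1, Ts_add, Ts_mul, Ts_mul, h2]
  have e2 := Ts_succ (fun m => t ^ m * β' m)
  simp only [pow_zero, one_mul] at e2
  rw [e2]
  ring

theorem dvd_of_infinite (j : ℕ) : ∀ (β : ℕ → ℤ_[p]),
    {t : ℤ_[p] | Ts (fun m => t ^ m * β m) = 0}.Infinite → (p : ℤ_[p]) ∣ β j := by
  induction j with
  | zero =>
    intro β hβ
    obtain ⟨t0, ht0⟩ := hβ.nonempty
    obtain ⟨β', h1, -, -⟩ := exists_div β t0 ht0
    exact ⟨-t0 * β' 0, by rw [h1]; ring⟩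
  | succ j ih =>
    intro β hβ
    obtain ⟨t0, ht0⟩ := hβ.nonempty
    obtain ⟨β', h1, h2, h3⟩ := exists_div β t0 ht0
    have hinf : {t : ℤ_[p] | Ts (fun m => t ^ m * β' m) = 0}.Infinite := by
      refine (hβ.sdiff (Set.finite_singleton t0)).mono ?_
      rintro t ⟨ht, htne⟩
      have ht' : Ts (fun m => t ^ m * β m) = 0 := ht
      rw [h3 t] at ht'
      have hne : (t - t0) ≠ 0 := sub_ne_zero.2 htne
      have hpne : (p : ℤ_[p]) ≠ 0 := by exact_mod_cast hp.1.ne_zero
      rcases mul_eq_zero.1 ht' with h | h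
      · exact absurd h (mul_ne_zero hpne hne)
      · exact h
    obtain ⟨c, hc⟩ := ih β' hinf
    exact ⟨c - t0 * β' (j + 1), by rw [h2, hc]; ring⟩

/-- `a` is divisible by all powers of `p` only if it is zero -/
theorem eq_zero_of_dvd (a : ℤ_[p]) (h : ∀ n : ℕ, (p : ℤ_[p]) ^ n ∣ a) : a = 0 := by
  by_contra hne
  have h1 := h (a.valuation + 1)
  rw [← Ideal.mem_span_singleton, PadicInt.mem_span_pow_iff_le_valuation a hne] at h1
  omega

theorem zeros (β : ℕ → ℤ_[p]) (hβ : {t : ℤ_[p] | Ts (fun m => t ^ m * β m) = 0}.Infinite) :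
    ∀ m, β m = 0 := by
  have hpne : (p : ℤ_[p]) ≠ 0 := by exact_mod_cast hp.1.ne_zero
  have key : ∀ n : ℕ, ∀ β : ℕ → ℤ_[p],
      {t : ℤ_[p] | Ts (fun m => t ^ m * β m) = 0}.Infinite → ∀ m, (p : ℤ_[p]) ^ n ∣ β m := by
    intro n
    induction n with
    | zero => intro β _ m; simp
    | succ n ih =>
      intro β hβ m
      have h1 := fun j => dvd_of_infinite j β hβ
      choose γ hγ using h1
      have h2 : {t : ℤ_[p] | Ts (fun m => t ^ m * γ m) = 0}.Infinite := by
        refine hβ.mono ?_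
        intro t ht
        have ht' : Ts (fun m => t ^ m * β m) = 0 := ht
        have e : (fun m => t ^ m * β m) = fun m => p * (t ^ m * γ m) := by
          funext m; rw [hγ m]; ring
        rw [e, Ts_mul] at ht'
        exact (mul_eq_zero.1 ht').resolve_left hpne
      obtain ⟨c, hc⟩ := ih γ h2 m
      exact ⟨c, by rw [hγ m, hc]; ring⟩
  intro m
  exact eq_zero_of_dvd _ (fun n => key n β hβ m)

end Pool.Agent.H219R3.FT
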