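import Pool.Agent.H219R3.FT1

set_option autoImplicit false

/-!
Convergent combinations of power series, derivatives, generic elements.
-/

namespace Pool.Agent.H219R3.FT

open PowerSeries Cardinal

variable {p : ℕ} [hp : Fact p.Prime]

/-- iterated derivative -/
noncomputable def dn (n : ℕ) (f : S p) : S p := (⇑(PowerSeries.derivative ℤ_[p]))^[n] f

theorem dn_zero (f : S p) : dn 0 f = f := rfl

theorem dn_succ (n : ℕ) (f : S p) : dn (n + 1) f = PowerSeries.derivative ℤ_[p] (dn n f) := by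
  unfold dn
  rw [Function.iterate_succ_apply']

theorem dn_succ' (n : ℕ) (f : S p) : dn (n + 1) f = dn n (PowerSeries.derivative ℤ_[p] f) := by
  unfold dn
  rw [Function.iterate_succ_apply]

theorem dn_add (n : ℕ) (f g : S p) : dn n (f + g) = dn n f + dn n g := by
  induction n with
  | zero => rfl
  | succ n ih => rw [dn_succ, dn_succ, dn_succ, ih, map_add]

theorem dn_C_mul (n : ℕ) (s : ℤ_[p]) (f : S p) : dn n (C s * f) = C s * dn n f := by
  induction n with
  | zero => rfl
  | succ n ih =>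
    rw [dn_succ, dn_succ, ih, Derivation.leibniz, PowerSeries.derivative_C]
    simp

theorem dn_mul_nat (n : ℕ) (k : ℤ) (f : S p) : dn n ((k : S p) * f) = (k : S p) * dn n f := by
  have := dn_C_mul n (k : ℤ_[p]) f
  simpa using this

/-- `∑ p ^ m c_m u_m` -/
noncomputable def Th (u : ℕ → S p) (c : ℕ → ℤ_[p]) : S p :=
  PowerSeries.mk (fun j => Ts (fun m => c m * coeff j (u m)))

theorem coeff_Th (u : ℕ → S p) (c : ℕ → ℤ_[p]) (j : ℕ) :
    coeff j (Th u c) = Ts (fun m => c m * coeff j (u m)) := by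
  rw [Th, coeff_mk]

theorem Th_lin (u : ℕ → S p) (c c' : ℕ → ℤ_[p]) (s : ℤ_[p]) :
    Th u (fun m => c m + s * c' m) = Th u c + C s * Th u c' := by
  ext j
  rw [map_add, coeff_C_mul, coeff_Th, coeff_Th, coeff_Th, ← Ts_mul, ← Ts_add]
  congr 1
  funext m
  ring

theorem Th_add (u v : ℕ → S p) (c : ℕ → ℤ_[p]) :
    Th (fun m => u m + v m) c = Th u c + Th v c := by
  ext j
  rw [map_add, coeff_Th, coeff_Th, coeff_Th, ← Ts_add]
  congr 1
  funext m
  rw [map_add]; ring

theorem Th_sum {ι : Type*} (s : Finset ι) (u : ι → ℕ → S p) (c : ℕ → ℤ_[p]) :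
    Th (fun m => ∑ i ∈ s, u i m) c = ∑ i ∈ s, Th (u i) c := by
  classical
  induction s using Finset.induction_on with
  | empty =>
    ext j
    rw [coeff_Th]
    simp [Ts]
  | insert i s hi ih =>
    simp only [Finset.sum_insert hi]
    rw [Th_add, ih]

theorem mul_Th (a : S p) (u : ℕ → S p) (c : ℕ → ℤ_[p]) :
    a * Th u c = Th (fun m => a * u m) c := by
  ext j
  rw [coeff_mul, coeff_Th]
  have h1 : ∀ q ∈ Finset.HasAntidiagonal.antidiagonal j, coeff q.1 a * coeff q.2 (Th u c) =
      Ts (fun m => coeff q.1 a * (c m * coeff q.2 (u m))) := by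
    intro q _
    rw [coeff_Th, Ts_mul]
  rw [Finset.sum_congr rfl h1, ← Ts_sum]
  congr 1
  funext m
  rw [coeff_mul, Finset.mul_sum]
  refine Finset.sum_congr rfl fun q _ => ?_
  ring

theorem neg_Th (u : ℕ → S p) (c : ℕ → ℤ_[p]) : -Th u c = Th (fun m => -u m) c := by
  have := mul_Th (-1) u c
  simpa using this

theorem d_Th (u : ℕ → S p) (c : ℕ → ℤ_[p]) :
    PowerSeries.derivative ℤ_[p] (Th u c) = Th (fun m => PowerSeries.derivative ℤ_[p] (u m)) c := by
  ext j
  rw [coeff_derivative, coeff_Th, coeff_Th, mul_comm, ← Ts_mul]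
  congr 1
  funext m
  rw [coeff_derivative]; ring

theorem dn_Th (n : ℕ) (u : ℕ → S p) (c : ℕ → ℤ_[p]) :
    dn n (Th u c) = Th (fun m => dn n (u m)) c := by
  induction n with
  | zero => rfl
  | succ n ih =>
    rw [dn_succ, ih, d_Th]
    congr 1
    funext m
    rw [dn_succ]

/-- `∑ p ^ m c_m x ^ m` -/
noncomputable def W (c : ℕ → ℤ_[p]) : S p := Th (fun m => X ^ m) c

theorem coeff_W (c : ℕ → ℤ_[p]) (j : ℕ) : coeff j (W c) = (p : ℤ_[p]) ^ j * c j := by
  rw [W, coeff_Th, Ts, tsum_eq_single j]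
  · simp [coeff_X_pow]
  · intro m hm
    simp [coeff_X_pow, hm.symm]

theorem coeff_mul_low (a b : S p) (r : ℕ) (h : ∀ n < r, coeff n a = 0) :
    coeff r (a * b) = coeff r a * constantCoeff b := by
  rw [coeff_mul, Finset.sum_eq_single (r, 0)]
  · simp
  · rintro ⟨i, j⟩ hij hne
    rw [Finset.HasAntidiagonal.mem_antidiagonal] at hij
    have : i < r := by
      rcases Nat.eq_zero_or_pos j with h0 | h0
      · exfalso
        apply hne
        ext <;> simp_all
      · simp only at hij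
        omega
    simp [h i this]
  · intro h
    simp at h

/-- genericity: a power series with algebraically independent coefficients is differentially
transcendental -/
theorem gen (K : Subring ℤ_[p]) (c : ℕ → ℤ_[p]) (hc : AlgebraicIndependent K c)
    (F : MvPolynomial ℕ (S p)) (hF : ∀ μ n, coeff n (MvPolynomial.coeff μ F) ∈ K) (hF0 : F ≠ 0) :
    MvPolynomial.aeval (fun i => dn i (W c)) F ≠ 0 := by
  classical
  intro hzero
  have hex : ∃ n, ∃ μ, coeff n (MvPolynomial.coeff μ F) ≠ 0 := by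
    obtain ⟨μ, hμ⟩ := MvPolynomial.ne_zero_iff.1 hF0
    obtain ⟨n, hn⟩ := (PowerSeries.exists_coeff_ne_zero_iff_ne_zero).2 hμ
    exact ⟨n, μ, hn⟩
  let r := Nat.find hex
  obtain ⟨μ₀, hμ₀⟩ := Nat.find_spec hex
  have hlow : ∀ n < r, ∀ μ, coeff n (MvPolynomial.coeff μ F) = 0 := by
    intro n hn μ
    by_contra h
    exact Nat.find_min hex hn ⟨μ, h⟩
  -- the scaling factor
  let lam : (ℕ →₀ ℕ) → ℤ_[p] := fun μ => μ.prod (fun i k => ((i.factorial : ℤ_[p]) * p ^ i) ^ k)
  have hlamK : ∀ μ, lam μ ∈ K := by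
    intro μ
    apply Subring.prod_mem
    intro i _
    exact pow_mem (mul_mem (natCast_mem K _) (pow_mem (natCast_mem K _) _)) _
  have hlam0 : ∀ μ, lam μ ≠ 0 := by
    intro μ
    apply Finset.prod_ne_zero_iff.2
    intro i _
    apply pow_ne_zero
    apply mul_ne_zero
    · exact_mod_cast (Nat.factorial_ne_zero i)
    · apply pow_ne_zero
      exact_mod_cast hp.1.ne_zero
  let G : MvPolynomial ℕ K := ∑ μ ∈ F.support,
    MvPolynomial.monomial μ ⟨coeff r (MvPolynomial.coeff μ F) * lam μ,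
      mul_mem (hF μ r) (hlamK μ)⟩
  have hG : MvPolynomial.aeval c G = 0 := by
    have h1 : coeff r (MvPolynomial.aeval (fun i => dn i (W c)) F) = 0 := by
      rw [hzero]; simp
    rw [MvPolynomial.aeval_def, MvPolynomial.eval₂_eq, map_sum] at h1
    rw [map_sum, ← h1]
    refine Finset.sum_congr rfl fun μ _ => ?_
    rw [MvPolynomial.aeval_monomial]
    have h2 : (algebraMap (S p) (S p)) (MvPolynomial.coeff μ F) = MvPolynomial.coeff μ F := rfl
    rw [h2, coeff_mul_low _ _ r (fun n hn => hlow n hn μ), map_prod]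
    have h3 : (algebraMap K ℤ_[p]) ⟨coeff r (MvPolynomial.coeff μ F) * lam μ,
      mul_mem (hF μ r) (hlamK μ)⟩ = coeff r (MvPolynomial.coeff μ F) * lam μ := rfl
    rw [h3, mul_assoc]
    congr 1
    show (μ.prod fun i k => ((i.factorial : ℤ_[p]) * p ^ i) ^ k) * (μ.prod fun i k => c i ^ k) = _
    rw [← Finsupp.prod_mul]
    refine Finset.prod_congr rfl fun i _ => ?_
    rw [map_pow]
    have h4 : constantCoeff (dn i (W c)) = (i.factorial : ℤ_[p]) * (p ^ i * c i) := by
      unfold dn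
      rw [PowerSeries.constantCoeff_iterate_derivative, coeff_W]
    rw [h4]; ring
  have hG0 : G = 0 := by
    have := hc.eq_zero_of_aeval_eq_zero G hG
    exact this
  have h5 : MvPolynomial.coeff μ₀ G = 0 := by rw [hG0]; simp
  have hmem : μ₀ ∈ F.support := by
    rw [MvPolynomial.mem_support_iff]
    intro h
    rw [h] at hμ₀
    simp at hμ₀
  rw [MvPolynomial.coeff_sum, Finset.sum_eq_single μ₀] at h5
  · rw [MvPolynomial.coeff_monomial, if_pos rfl] at h5
    have h6 := congrArg (Subtype.val) h5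
    have h7 : coeff r (MvPolynomial.coeff μ₀ F) * lam μ₀ = 0 := h6
    exact (mul_ne_zero hμ₀ (hlam0 μ₀)) h7
  · intro μ _ hne
    rw [MvPolynomial.coeff_monomial, if_neg hne]
  · intro h
    exact absurd hmem h

end Pool.Agent.H219R3.FT
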