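import Pool.Agent.H219R3.FT2

set_option autoImplicit false

/-!
Cardinalities and generic elements.
-/

namespace Pool.Agent.H219R3.FT

open PowerSeries Cardinal

variable {p : ℕ} [hp : Fact p.Prime]

theorem continuum_le_padicInt : 𝔠 ≤ #(ℤ_[p]) := by
  have h1 : 𝔠 ≤ #(ℚ_[p]) := continuum_le_cardinal_of_nontriviallyNormedField ℚ_[p]
  have h2 : IsOpen (Metric.closedBall (0 : ℚ_[p]) 1) :=
    IsUltrametricDist.isOpen_closedBall _ one_ne_zero
  have h3 : #(Metric.closedBall (0 : ℚ_[p]) 1) = #(ℚ_[p]) :=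
    cardinal_eq_of_isOpen ℚ_[p] h2 ⟨0, by simp⟩
  rw [← h3] at h1
  refine h1.trans ?_
  refine Cardinal.mk_le_of_injective
    (f := fun x : Metric.closedBall (0 : ℚ_[p]) 1 =>
      (⟨x.1, by have := x.2; rwa [Metric.mem_closedBall, dist_zero_right] at this⟩ : ℤ_[p])) ?_
  intro x y h
  have := congrArg Subtype.val h
  exact Subtype.ext this

theorem padicInt_le_continuum : #(ℤ_[p]) ≤ 𝔠 := by
  have : #(ℕ → ℕ) = 𝔠 := by simp
  rw [← this]
  refine Cardinal.mk_le_of_injective (f := fun (x : ℤ_[p]) (n : ℕ) =>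
    (PadicInt.toZModPow n x).val) ?_
  intro x y h
  apply PadicInt.ext_of_toZModPow.1
  intro n
  have h1 := congrFun h n
  have : NeZero (p ^ n) := ⟨pow_ne_zero _ hp.1.ne_zero⟩
  exact ZMod.val_injective _ h1

theorem S_le_continuum : #(S p) ≤ 𝔠 := by
  have h1 : #(ℕ → ℤ_[p]) ≤ 𝔠 := by
    have h2 : #(ℕ → ℤ_[p]) ≤ 𝔠 ^ ℵ₀ := by
      rw [← Cardinal.power_def, Cardinal.mk_nat]
      exact Cardinal.power_le_power_right padicInt_le_continuum
    rwa [Cardinal.continuum_power_aleph0] at h2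
  refine le_trans (Cardinal.mk_le_of_injective (f := fun (x : S p) (n : ℕ) => coeff n x) ?_) h1
  intro x y h
  ext n
  exact congrFun h n

theorem seq_le_continuum : #(ℕ → S p) ≤ 𝔠 := by
  have h2 : #(ℕ → S p) ≤ 𝔠 ^ ℵ₀ := by
    rw [← Cardinal.power_def, Cardinal.mk_nat]
    exact Cardinal.power_le_power_right S_le_continuum
  rwa [Cardinal.continuum_power_aleph0] at h2

theorem exists_generic (K : Subring ℤ_[p]) (hK : #K < 𝔠) :
    ∃ c : ℕ → ℤ_[p], AlgebraicIndependent K c := by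
  obtain ⟨s, hs⟩ := exists_isTranscendenceBasis K ℤ_[p]
  have hinf : Infinite s := by
    by_contra hfin
    rw [not_infinite_iff_finite] at hfin
    have halg := hs.isAlgebraic
    have h1 : #(ℤ_[p]) ≤ max #(Algebra.adjoin K (Set.range ((↑) : s → ℤ_[p]))) ℵ₀ :=
      Algebra.IsAlgebraic.cardinalMk_le_max _ _
    have h2 : #(Algebra.adjoin K (Set.range ((↑) : s → ℤ_[p]))) ≤
        max (max #K #(Set.range ((↑) : s → ℤ_[p]))) ℵ₀ := Algebra.cardinalMk_adjoin_le _ _
    have h3 : #(Set.range ((↑) : s → ℤ_[p])) ≤ ℵ₀ := by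
      have : Countable (Set.range ((↑) : s → ℤ_[p])) := (Set.finite_range _).countable.to_subtype
      exact Cardinal.mk_le_aleph0
    have h4 : ℵ₀ < 𝔠 := Cardinal.aleph0_lt_continuum
    have h5 : max (max (max #K #(Set.range ((↑) : s → ℤ_[p]))) ℵ₀) ℵ₀ < 𝔠 :=
      max_lt (max_lt (max_lt hK (h3.trans_lt h4)) h4) h4
    have h6 : 𝔠 < 𝔠 := by
      calc 𝔠 ≤ #(ℤ_[p]) := continuum_le_padicInt
        _ ≤ _ := h1
        _ ≤ _ := max_le_max h2 le_rfl
        _ < 𝔠 := h5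
    exact lt_irrefl _ h6
  refine ⟨fun n => (Infinite.natEmbedding s n : s), ?_⟩
  exact hs.1.comp _ (Infinite.natEmbedding s).injective

theorem subring_closure_card {R : Type} [CommRing R] (s : Set R) (hs : #s < 𝔠) :
    #(Subring.closure s) < 𝔠 := by
  have h1 : #(Algebra.adjoin ℤ s) ≤ max (max #ℤ #s) ℵ₀ := Algebra.cardinalMk_adjoin_le _ _
  have h2 : max (max #ℤ #s) ℵ₀ < 𝔠 := by
    refine max_lt (max_lt ?_ hs) Cardinal.aleph0_lt_continuum
    rw [Cardinal.mk_int]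
    exact Cardinal.aleph0_lt_continuum
  refine lt_of_le_of_lt ?_ (h1.trans_lt h2)
  refine Cardinal.mk_le_mk_of_subset ?_
  intro x hx
  have : Subring.closure s ≤ (Algebra.adjoin ℤ s).toSubring := by
    rw [Subring.closure_le]
    intro y hy
    exact Algebra.subset_adjoin hy
  exact this hx

end Pool.Agent.H219R3.FT
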