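import Pool.Agent.H219R3.FT3

set_option autoImplicit false

/-!
The killing lemma.
-/

namespace Pool.Agent.H219R3.FT

open PowerSeries Cardinal

variable {p : ℕ} [hp : Fact p.Prime]

/-- `v` is a fraction of elements of `A` -/
def InR (A : Subring (S p)) (v : S p) : Prop := ∃ q ∈ A, q ≠ 0 ∧ q * v ∈ A

/-- `u` is given by a differential operator -/
def DO (u : ℕ → S p) : Prop :=
  ∃ q : S p, q ≠ 0 ∧ ∃ c : ℕ →₀ S p, ∀ m, q * u m = c.sum (fun i a => a * dn i (X ^ m))

/-- evaluation at a power series and its derivatives -/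
noncomputable def ev (A : Subring (S p)) (w : S p) : MvPolynomial ℕ A →ₐ[A] S p :=
  MvPolynomial.aeval (fun i => dn i w)

/-- evaluation along a line -/
noncomputable def Ln (A : Subring (S p)) (w g : S p) : MvPolynomial ℕ A →ₐ[A] Polynomial (S p) :=
  MvPolynomial.aeval (fun i => Polynomial.C (dn i w) + Polynomial.X * Polynomial.C (dn i g))

theorem Ln_eval (A : Subring (S p)) (w g : S p) (s : ℤ_[p]) (P : MvPolynomial ℕ A) :
    (Ln A w g P).eval (C s) = ev A (w + C s * g) P := by
  induction P using MvPolynomial.induction_on with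
  | C a =>
    unfold Ln ev
    rw [MvPolynomial.aeval_C, MvPolynomial.aeval_C]
    show Polynomial.eval _ (Polynomial.C _) = _
    rw [Polynomial.eval_C]
  | add f g hf hg =>
    rw [map_add, Polynomial.eval_add, hf, hg, map_add]
  | mul_X f i hf =>
    rw [map_mul, Polynomial.eval_mul, hf, map_mul]
    congr 1
    unfold Ln ev
    rw [MvPolynomial.aeval_X, MvPolynomial.aeval_X, dn_add, dn_C_mul]
    simp only [Polynomial.eval_add, Polynomial.eval_mul, Polynomial.eval_C, Polynomial.eval_X]

theorem Ln_coeff_zero (A : Subring (S p)) (w g : S p) (P : MvPolynomial ℕ A) :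
    (Ln A w g P).coeff 0 = ev A w P := by
  rw [Polynomial.coeff_zero_eq_eval_zero]
  have := Ln_eval A w g 0 P
  simpa using this

theorem Ln_coeff_one (A : Subring (S p)) (w : S p) (P : MvPolynomial ℕ A) :
    ∃ c : ℕ →₀ S p, ∀ g, (Ln A w g P).coeff 1 = c.sum (fun i a => a * dn i g) := by
  classical
  induction P using MvPolynomial.induction_on with
  | C a =>
    refine ⟨0, fun g => ?_⟩
    unfold Ln
    rw [MvPolynomial.aeval_C]
    show (Polynomial.C _).coeff 1 = _
    rw [Polynomial.coeff_C]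
    simp
  | add f h hf hh =>
    obtain ⟨c1, h1⟩ := hf
    obtain ⟨c2, h2⟩ := hh
    refine ⟨c1 + c2, fun g => ?_⟩
    rw [map_add, Polynomial.coeff_add, h1, h2, Finsupp.sum_add_index']
    · intro i; simp
    · intro i a b; ring
  | mul_X f i hf =>
    obtain ⟨c1, h1⟩ := hf
    refine ⟨dn i w • c1 + Finsupp.single i (ev A w f), fun g => ?_⟩
    rw [map_mul]
    have e1 : Ln A w g (MvPolynomial.X i) =
        Polynomial.C (dn i w) + Polynomial.X * Polynomial.C (dn i g) := by
      unfold Ln; rw [MvPolynomial.aeval_X]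
    rw [e1, mul_add, Polynomial.coeff_add, Polynomial.coeff_mul_C, ← mul_assoc,
      Polynomial.coeff_mul_C, Polynomial.coeff_mul_X, Ln_coeff_zero, h1,
      Finsupp.sum_add_index', Finsupp.sum_smul_index, Finsupp.sum_single_index]
    · congr 1
      rw [Finsupp.sum, Finsupp.sum, Finset.sum_mul]
      refine Finset.sum_congr rfl fun k _ => ?_
      ring
    · simp
    · intro k; simp
    · intro k; simp
    · intro k a b; ring

theorem mvpoly_card (A : Subring (S p)) (hA : #A < 𝔠) : #(MvPolynomial ℕ A) < 𝔠 := by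
  refine lt_of_le_of_lt MvPolynomial.cardinalMk_le_max ?_
  refine max_lt (max_lt hA ?_) Cardinal.aleph0_lt_continuum
  simpa using Cardinal.aleph0_lt_continuum

theorem kill (A : Subring (S p)) (hA : #A < 𝔠) (V : Set (S p)) (hV : #V < 𝔠) (u : ℕ → S p)
    (hVA : ∀ v ∈ V, ¬ InR A v) (hu : ¬ DO u) :
    ∃ c : ℕ → ℤ_[p],
      (∀ v ∈ V, ∀ Q P : MvPolynomial ℕ A, ev A (W c) Q ≠ 0 →
        ev A (W c) Q * v ≠ ev A (W c) P) ∧
      (∀ Q P : MvPolynomial ℕ A, ev A (W c) Q ≠ 0 →
        ev A (W c) Q * Th u c ≠ ev A (W c) P) := by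
  classical
  -- the coefficients
  let K : Subring ℤ_[p] := Subring.closure
    (Set.range (fun x : ((A : Set (S p)) ∪ V : Set (S p)) × ℕ => coeff x.2 x.1.1))
  have hK : #K < 𝔠 := by
    apply subring_closure_card
    refine lt_of_le_of_lt Cardinal.mk_range_le ?_
    rw [Cardinal.mk_prod, Cardinal.lift_id, Cardinal.lift_id, Cardinal.mk_nat]
    refine Cardinal.mul_lt_of_lt Cardinal.aleph0_le_continuum ?_ Cardinal.aleph0_lt_continuum
    refine lt_of_le_of_lt (Cardinal.mk_union_le _ _) ?_
    exact Cardinal.add_lt_of_lt Cardinal.aleph0_le_continuum hA hV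
  have hAK : ∀ a ∈ A, ∀ n, coeff n a ∈ K := by
    intro a ha n
    exact Subring.subset_closure ⟨(⟨a, Or.inl ha⟩, n), rfl⟩
  have hVK : ∀ a ∈ V, ∀ n, coeff n a ∈ K := by
    intro a ha n
    exact Subring.subset_closure ⟨(⟨a, Or.inr ha⟩, n), rfl⟩
  obtain ⟨c0, hc0⟩ := exists_generic K hK
  -- genericity for polynomials over `A`
  have gen1 : ∀ Q : MvPolynomial ℕ A, Q ≠ 0 → ev A (W c0) Q ≠ 0 := by
    intro Q hQ
    have h1 := gen K c0 hc0 (MvPolynomial.map A.subtype Q) (by
      intro μ n
      rw [MvPolynomial.coeff_map]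
      exact hAK _ (MvPolynomial.coeff μ Q).2 n) (by
      intro h
      apply hQ
      apply MvPolynomial.map_injective A.subtype Subtype.val_injective
      rw [h, map_zero])
    rw [MvPolynomial.aeval_def, MvPolynomial.eval₂_map] at h1
    exact h1
  by_contra hcon
  push Not at hcon
  -- witnesses
  let val : Option V → (ℕ → ℤ_[p]) → S p := fun o c => match o with
    | some v => v.1
    | none => Th u c
  have hwit : ∀ c : ℕ → ℤ_[p], ∃ x : Option V × MvPolynomial ℕ A × MvPolynomial ℕ A,
      ev A (W c) x.2.1 ≠ 0 ∧ ev A (W c) x.2.1 * val x.1 c = ev A (W c) x.2.2 := by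
    intro c
    by_cases h : ∀ v ∈ V, ∀ Q P : MvPolynomial ℕ A, ev A (W c) Q ≠ 0 →
        ev A (W c) Q * v ≠ ev A (W c) P
    · obtain ⟨Q, P, h1, h2⟩ := hcon c h
      exact ⟨(none, Q, P), h1, h2⟩
    · push Not at h
      obtain ⟨v, hv, Q, P, h1, h2⟩ := h
      exact ⟨(some ⟨v, hv⟩, Q, P), h1, h2⟩
  choose wit hwit1 hwit2 using hwit
  let cc : ℤ_[p] → ℤ_[p] → ℕ → ℤ_[p] := fun t s m => c0 m + s * t ^ m
  have hWt : #(Option V × MvPolynomial ℕ A × MvPolynomial ℕ A) < #(ℤ_[p]) := by
    refine lt_of_lt_of_le ?_ continuum_le_padicInt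
    simp only [Cardinal.mk_prod, Cardinal.lift_id, Cardinal.mk_option]
    refine Cardinal.mul_lt_of_lt Cardinal.aleph0_le_continuum ?_ ?_
    · refine Cardinal.add_lt_of_lt Cardinal.aleph0_le_continuum hV ?_
      exact lt_of_lt_of_le Cardinal.one_lt_aleph0 Cardinal.aleph0_le_continuum
    · exact Cardinal.mul_lt_of_lt Cardinal.aleph0_le_continuum (mvpoly_card A hA)
        (mvpoly_card A hA)
  have hWtinf : Infinite (Option V × MvPolynomial ℕ A × MvPolynomial ℕ A) := inferInstance
  have hfib1 : ∀ t : ℤ_[p], ∃ y, Infinite ((fun s => wit (cc t s)) ⁻¹' {y}) := fun t =>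
    Cardinal.exists_infinite_fiber (fun s => wit (cc t s)) hWt
  choose y hy using hfib1
  obtain ⟨z, hz⟩ := Cardinal.exists_infinite_fiber y hWt
  obtain ⟨o, Q, P⟩ := z
  have hT : (y ⁻¹' {(o, Q, P)}).Infinite := Set.infinite_coe_iff.1 hz
  -- the conclusion for `t` in the infinite set
  have hmain : ∀ t ∈ y ⁻¹' {(o, Q, P)}, {s : ℤ_[p] |
      ev A (W c0 + C s * W (fun m => t ^ m)) Q ≠ 0 ∧
      ev A (W c0 + C s * W (fun m => t ^ m)) Q * val o (cc t s) =
        ev A (W c0 + C s * W (fun m => t ^ m)) P}.Infinite := by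
    intro t ht
    have h1 : ((fun s => wit (cc t s)) ⁻¹' {y t}).Infinite := Set.infinite_coe_iff.1 (hy t)
    refine h1.mono ?_
    intro s hs
    have h2 : wit (cc t s) = (o, Q, P) := by
      have h3 : wit (cc t s) = y t := hs
      have h4 : y t = (o, Q, P) := ht
      rw [h3, h4]
    have h5 := hwit1 (cc t s)
    have h6 := hwit2 (cc t s)
    rw [h2] at h5 h6
    have h7 : W (cc t s) = W c0 + C s * W (fun m => t ^ m) := Th_lin _ _ _ _
    rw [h7] at h5 h6
    exact ⟨h5, h6⟩
  have hQ0 : Q ≠ 0 := by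
    obtain ⟨t, ht⟩ := hT.nonempty
    obtain ⟨s, hs⟩ := (hmain t ht).nonempty
    intro h
    apply hs.1
    rw [h, map_zero]
  have hCinj : Function.Injective (fun s : ℤ_[p] => (C s : S p)) := PowerSeries.C_injective
  cases o with
  | some v =>
    obtain ⟨t, ht⟩ := hT.nonempty
    have h1 := hmain t ht
    have h2 : Ln A (W c0) (W (fun m => t ^ m)) Q * Polynomial.C v.1
        - Ln A (W c0) (W (fun m => t ^ m)) P = 0 := by
      apply Polynomial.eq_zero_of_infinite_isRoot
      refine (h1.image hCinj.injOn).mono ?_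
      rintro _ ⟨s, ⟨-, hs⟩, rfl⟩
      show Polynomial.eval _ _ = 0
      rw [Polynomial.eval_sub, Polynomial.eval_mul, Polynomial.eval_C, Ln_eval, Ln_eval]
      rw [sub_eq_zero]
      exact hs
    have h3 := congrArg (fun q => Polynomial.coeff q 0) h2
    simp only [Polynomial.coeff_sub, Polynomial.coeff_mul_C, Ln_coeff_zero,
      Polynomial.coeff_zero] at h3
    -- the polynomial vanishes
    have h4 : MvPolynomial.map A.subtype Q * MvPolynomial.C v.1 - MvPolynomial.map A.subtype P
        = 0 := by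
      by_contra hne
      refine gen K c0 hc0 _ ?_ hne ?_
      · intro μ n
        rw [MvPolynomial.coeff_sub, mul_comm, MvPolynomial.coeff_C_mul, MvPolynomial.coeff_map,
          MvPolynomial.coeff_map, map_sub]
        refine sub_mem ?_ (hAK _ (MvPolynomial.coeff μ P).2 n)
        rw [coeff_mul]
        refine sum_mem fun q _ => ?_
        exact mul_mem (hVK _ v.2 _) (hAK _ (MvPolynomial.coeff μ Q).2 _)
      · rw [map_sub, map_mul]
        simp only [MvPolynomial.aeval_def, MvPolynomial.eval₂_map, MvPolynomial.eval₂_C]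
        exact h3
    obtain ⟨μ, hμ⟩ := MvPolynomial.ne_zero_iff.1 hQ0
    have h5 := congrArg (MvPolynomial.coeff μ) h4
    rw [MvPolynomial.coeff_sub, mul_comm, MvPolynomial.coeff_C_mul, MvPolynomial.coeff_map,
          MvPolynomial.coeff_map, MvPolynomial.coeff_zero, sub_eq_zero] at h5
    refine hVA v.1 v.2 ⟨(MvPolynomial.coeff μ Q).1, (MvPolynomial.coeff μ Q).2, ?_, ?_⟩
    · intro h
      exact hμ (Subtype.ext h)
    · have h6 : (MvPolynomial.coeff μ Q).1 * v.1 = (MvPolynomial.coeff μ P).1 := by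
        rw [mul_comm]; exact h5
      rw [h6]
      exact (MvPolynomial.coeff μ P).2
  | none =>
    obtain ⟨cP, hcP⟩ := Ln_coeff_one A (W c0) P
    obtain ⟨cQ, hcQ⟩ := Ln_coeff_one A (W c0) Q
    apply hu
    let d : ℕ →₀ S p := cP + (-(Th u c0)) • cQ
    have hkey : ∀ t ∈ y ⁻¹' {((none : Option V), Q, P)},
        ev A (W c0) Q * Th u (fun m => t ^ m) =
          d.sum (fun i a => a * dn i (W (fun m => t ^ m))) := by
      intro t ht
      have h1 := hmain t ht
      have h2 : Ln A (W c0) (W (fun m => t ^ m)) Q *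
          (Polynomial.C (Th u c0) + Polynomial.X * Polynomial.C (Th u (fun m => t ^ m)))
          - Ln A (W c0) (W (fun m => t ^ m)) P = 0 := by
        apply Polynomial.eq_zero_of_infinite_isRoot
        refine (h1.image hCinj.injOn).mono ?_
        rintro _ ⟨s, ⟨-, hs⟩, rfl⟩
        show Polynomial.eval _ _ = 0
        rw [Polynomial.eval_sub, Polynomial.eval_mul, Polynomial.eval_add, Polynomial.eval_mul,
          Polynomial.eval_C, Polynomial.eval_C, Polynomial.eval_X, Ln_eval, Ln_eval, sub_eq_zero]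
        have h3 : val none (cc t s) = Th u c0 + C s * Th u (fun m => t ^ m) := Th_lin _ _ _ _
        rw [h3] at hs
        exact hs
      have h3 := congrArg (fun q => Polynomial.coeff q 1) h2
      simp only [Polynomial.coeff_sub, mul_add, Polynomial.coeff_add, Polynomial.coeff_mul_C,
        ← mul_assoc, Polynomial.coeff_mul_X, Ln_coeff_zero, Polynomial.coeff_zero, hcP, hcQ] at h3
      have h4 : d.sum (fun i a => a * dn i (W (fun m => t ^ m))) =
          cP.sum (fun i a => a * dn i (W (fun m => t ^ m))) +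
          (-(Th u c0)) * cQ.sum (fun i a => a * dn i (W (fun m => t ^ m))) := by
        show (cP + (-(Th u c0)) • cQ).sum _ = _
        rw [Finsupp.sum_add_index', Finsupp.sum_smul_index]
        · congr 1
          rw [Finsupp.sum, Finsupp.sum, Finset.mul_sum]
          refine Finset.sum_congr rfl fun k _ => ?_
          ring
        · intro k; simp
        · intro k; simp
        · intro k a b; ring
      rw [h4]
      linear_combination h3
    refine ⟨ev A (W c0) Q, gen1 Q hQ0, d, ?_⟩
    intro m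
    ext j
    let β : ℕ → ℤ_[p] := fun m => coeff j (ev A (W c0) Q * u m) -
      coeff j (d.sum (fun i a => a * dn i (X ^ m)))
    have hβ : ∀ m, β m = 0 := by
      apply zeros
      refine hT.mono ?_
      intro t ht
      have h1 := hkey t ht
      rw [mul_Th, Finsupp.sum] at h1
      have h2 : ∀ i ∈ d.support, d i * dn i (W (fun m => t ^ m)) =
          Th (fun m => d i * dn i (X ^ m)) (fun m => t ^ m) := by
        intro i _
        rw [W, dn_Th, mul_Th]
      rw [Finset.sum_congr rfl h2, ← Th_sum] at h1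
      have h3 := congrArg (coeff j) h1
      rw [coeff_Th, coeff_Th] at h3
      show Ts (fun m => t ^ m * β m) = 0
      have h4 : (fun m => t ^ m * β m) = fun m => t ^ m * coeff j (ev A (W c0) Q * u m) +
          (-1) * (t ^ m * coeff j (∑ i ∈ d.support, d i * dn i (X ^ m))) := by
        funext m
        show t ^ m * (_ - _) = _
        rw [Finsupp.sum]
        ring
      rw [h4, Ts_add, Ts_mul, h3]
      ring
    have := hβ m
    exact sub_eq_zero.1 this

end Pool.Agent.H219R3.FT
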