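import Pool.Agent.H219R3.FT4

set_option autoImplicit false
set_option linter.unusedSectionVars false

/-!
The transfinite construction.
-/

namespace Pool.Agent.H219R3.FT

open PowerSeries Cardinal

variable {p : ℕ} [hp : Fact p.Prime]

/-- the differential ring generated by `X` and a set -/
noncomputable def AA (Y : Set (S p)) : Subring (S p) :=
  Subring.closure ({X} ∪ {f | ∃ n, ∃ g ∈ Y, f = dn n g})

theorem X_mem_AA (Y : Set (S p)) : (X : S p) ∈ AA Y := Subring.subset_closure (Or.inl rfl)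

theorem dn_mem_AA (Y : Set (S p)) (n : ℕ) (g : S p) (hg : g ∈ Y) : dn n g ∈ AA Y :=
  Subring.subset_closure (Or.inr ⟨n, g, hg, rfl⟩)

theorem AA_mono {Y Z : Set (S p)} (h : Y ⊆ Z) : AA Y ≤ AA Z := by
  apply Subring.closure_mono
  refine Set.union_subset_union_right _ ?_
  rintro f ⟨n, g, hg, rfl⟩
  exact ⟨n, g, h hg, rfl⟩

theorem InR_mono {A B : Subring (S p)} (h : A ≤ B) {v : S p} (hv : InR A v) : InR B v := by
  obtain ⟨q, hq, hq0, hqv⟩ := hv
  exact ⟨q, h hq, hq0, h hqv⟩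

theorem derivative_mem_AA (Y : Set (S p)) (f : S p) (hf : f ∈ AA Y) :
    PowerSeries.derivative ℤ_[p] f ∈ AA Y := by
  induction hf using Subring.closure_induction with
  | mem x hx =>
    rcases hx with hx | ⟨n, g, hg, rfl⟩
    · rw [Set.mem_singleton_iff.1 hx]
      rw [PowerSeries.derivative_X]
      exact one_mem _
    · rw [← dn_succ]
      exact dn_mem_AA _ _ _ hg
  | zero => rw [map_zero]; exact zero_mem _
  | one => rw [Derivation.map_one_eq_zero]; exact zero_mem _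
  | add x y hx hy h1 h2 => rw [map_add]; exact add_mem h1 h2
  | neg x hx h1 => rw [map_neg]; exact neg_mem h1
  | mul x y hx hy h1 h2 =>
    rw [Derivation.leibniz, smul_eq_mul, smul_eq_mul]
    exact add_mem (mul_mem hx h2) (mul_mem hy h1)

theorem AA_card (Y : Set (S p)) (hY : #Y < 𝔠) : #(AA Y) < 𝔠 := by
  apply subring_closure_card
  have h1 : {f : S p | ∃ n, ∃ g ∈ Y, f = dn n g} = Set.range (fun x : ℕ × Y => dn x.1 x.2.1) := by
    ext f
    constructor
    · rintro ⟨n, g, hg, rfl⟩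
      exact ⟨(n, ⟨g, hg⟩), rfl⟩
    · rintro ⟨⟨n, g⟩, rfl⟩
      exact ⟨n, g.1, g.2, rfl⟩
  refine lt_of_le_of_lt (Cardinal.mk_union_le _ _) ?_
  refine Cardinal.add_lt_of_lt Cardinal.aleph0_le_continuum ?_ ?_
  · rw [Cardinal.mk_singleton]
    exact lt_of_lt_of_le Cardinal.one_lt_aleph0 Cardinal.aleph0_le_continuum
  · rw [h1]
    refine lt_of_le_of_lt Cardinal.mk_range_le ?_
    simp only [Cardinal.mk_prod, Cardinal.lift_id, Cardinal.mk_nat]
    exact Cardinal.mul_lt_of_lt Cardinal.aleph0_le_continuum Cardinal.aleph0_lt_continuum hY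

theorem AA_insert (Y : Set (S p)) (w : S p) (f : S p) (hf : f ∈ AA (insert w Y)) :
    ∃ P, ev (AA Y) w P = f := by
  have h : AA (insert w Y) ≤ (ev (AA Y) w).range.toSubring := by
    unfold AA
    rw [Subring.closure_le]
    rintro g (hg | ⟨n, g, hg, rfl⟩)
    · rw [Set.mem_singleton_iff.1 hg]
      refine ⟨MvPolynomial.C ⟨X, X_mem_AA Y⟩, ?_⟩
      show ev (AA Y) w (MvPolynomial.C _) = _
      unfold ev
      rw [MvPolynomial.aeval_C]
      rfl
    · rcases hg with rfl | hg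
      · refine ⟨MvPolynomial.X n, ?_⟩
        show ev (AA Y) _ (MvPolynomial.X n) = _
        unfold ev
        rw [MvPolynomial.aeval_X]
      · refine ⟨MvPolynomial.C ⟨dn n g, dn_mem_AA Y n g hg⟩, ?_⟩
        show ev (AA Y) w (MvPolynomial.C _) = _
        unfold ev
        rw [MvPolynomial.aeval_C]
        rfl
  obtain ⟨P, hP⟩ := h hf
  exact ⟨P, hP⟩

section family

variable {ι : Type} [LinearOrder ι] [WellFoundedLT ι] (u : ι → ℕ → S p)

/-- the generators -/
noncomputable def Xs (c : ι → ℕ → ℤ_[p]) (I : Set ι) : Set (S p) := (fun i => W (c i)) '' I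

/-- the elements to avoid -/
noncomputable def Vs (c : ι → ℕ → ℤ_[p]) (I : Set ι) : Set (S p) :=
  (fun i => Th (u i) (c i)) '' {i | i ∈ I ∧ ¬ DO (u i)}

/-- a good choice at `i` -/
def Good (c : ι → ℕ → ℤ_[p]) (i : ι) : Prop :=
  (∀ v ∈ Vs u c (Set.Iio i), ¬ InR (AA (Xs c (Set.Iio i))) v) →
    (∀ v ∈ Vs u c (Set.Iio i), ¬ InR (AA (Xs c (Set.Iic i))) v) ∧
    (¬ DO (u i) → ¬ InR (AA (Xs c (Set.Iic i))) (Th (u i) (c i)))

theorem Xs_congr (c c' : ι → ℕ → ℤ_[p]) (I : Set ι) (h : ∀ i ∈ I, c i = c' i) :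
    Xs c I = Xs c' I := by
  unfold Xs
  refine Set.image_congr ?_
  intro i hi
  rw [h i hi]

theorem Vs_congr (c c' : ι → ℕ → ℤ_[p]) (I : Set ι) (h : ∀ i ∈ I, c i = c' i) :
    Vs u c I = Vs u c' I := by
  unfold Vs
  refine Set.image_congr ?_
  intro i hi
  rw [h i hi.1]

theorem Good_congr (c c' : ι → ℕ → ℤ_[p]) (i : ι) (h : ∀ j ≤ i, c j = c' j) (hg : Good u c i) :
    Good u c' i := by
  have h1 := Xs_congr c c' (Set.Iio i) (fun j hj => h j (le_of_lt hj))
  have h2 := Xs_congr c c' (Set.Iic i) (fun j hj => h j hj)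
  have h3 := Vs_congr u c c' (Set.Iio i) (fun j hj => h j (le_of_lt hj))
  have h4 := h i le_rfl
  unfold Good at hg ⊢
  rw [← h1, ← h2, ← h3, ← h4]
  exact hg

theorem exists_next (hι : ∀ i : ι, #(Set.Iio i) < 𝔠) (c : ι → ℕ → ℤ_[p]) (i : ι) :
    ∃ x : ℕ → ℤ_[p], Good u (Function.update c i x) i := by
  classical
  have e1 : ∀ x : ℕ → ℤ_[p], Xs (Function.update c i x) (Set.Iio i) = Xs c (Set.Iio i) :=
    fun x => Xs_congr _ _ _ (fun j hj => Function.update_of_ne (ne_of_lt hj) _ _)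
  have e2 : ∀ x : ℕ → ℤ_[p], Vs u (Function.update c i x) (Set.Iio i) = Vs u c (Set.Iio i) :=
    fun x => Vs_congr u _ _ _ (fun j hj => Function.update_of_ne (ne_of_lt hj) _ _)
  have e3 : ∀ x : ℕ → ℤ_[p], Xs (Function.update c i x) (Set.Iic i) =
      insert (W x) (Xs c (Set.Iio i)) := by
    intro x
    rw [← e1 x]
    unfold Xs
    rw [← Set.Iio_insert, Set.image_insert_eq, Function.update_self]
  have e4 : ∀ x : ℕ → ℤ_[p], Function.update c i x i = x := fun x => Function.update_self _ _ _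
  by_cases hH : ∀ v ∈ Vs u c (Set.Iio i), ¬ InR (AA (Xs c (Set.Iio i))) v
  swap
  · refine ⟨0, ?_⟩
    intro h
    rw [e1, e2] at h
    exact absurd h hH
  by_cases hD : DO (u i)
  · refine ⟨fun _ => 0, fun _ => ⟨?_, fun h => absurd hD h⟩⟩
    rw [e2, e3]
    intro v hv hin
    apply hH v hv
    refine InR_mono ?_ hin
    unfold AA
    rw [Subring.closure_le]
    rintro g (hg | ⟨n, g, hg, rfl⟩)
    · rw [Set.mem_singleton_iff.1 hg]
      exact X_mem_AA _
    · rcases hg with rfl | hg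
      · have h0 : W (fun _ => (0 : ℤ_[p])) = 0 := by
          ext j
          rw [coeff_W]; simp
        rw [h0]
        have h1 : dn n (0 : S p) = 0 := by
          have := dn_C_mul n 0 (0 : S p)
          simpa using this
        rw [h1]
        exact zero_mem _
      · exact dn_mem_AA _ _ _ hg
  · have hX : #(Xs c (Set.Iio i)) < 𝔠 := lt_of_le_of_lt Cardinal.mk_image_le (hι i)
    have hV : #(Vs u c (Set.Iio i)) < 𝔠 := by
      refine lt_of_le_of_lt Cardinal.mk_image_le ?_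
      refine lt_of_le_of_lt (Cardinal.mk_le_mk_of_subset ?_) (hι i)
      intro j hj
      exact hj.1
    obtain ⟨x, hx1, hx2⟩ := kill (AA (Xs c (Set.Iio i))) (AA_card _ hX) (Vs u c (Set.Iio i)) hV
      (u i) hH hD
    refine ⟨x, fun _ => ⟨?_, fun _ => ?_⟩⟩
    · rw [e2, e3]
      rintro v hv ⟨q, hq, hq0, hqv⟩
      obtain ⟨Q, rfl⟩ := AA_insert _ _ _ hq
      obtain ⟨P, hP⟩ := AA_insert _ _ _ hqv
      exact hx1 v hv Q P hq0 hP.symm
    · rw [e3, e4]
      rintro ⟨q, hq, hq0, hqv⟩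
      obtain ⟨Q, rfl⟩ := AA_insert _ _ _ hq
      obtain ⟨P, hP⟩ := AA_insert _ _ _ hqv
      exact hx2 Q P hq0 hP.symm

theorem exists_all (hι : ∀ i : ι, #(Set.Iio i) < 𝔠) :
    ∃ c : ι → ℕ → ℤ_[p], ∀ i, Good u c i := by
  classical
  let ext : (i : ι) → ((j : ι) → j < i → ℕ → ℤ_[p]) → ι → ℕ → ℤ_[p] :=
    fun i f j => if h : j < i then f j h else 0
  let F : (i : ι) → ((j : ι) → j < i → ℕ → ℤ_[p]) → ℕ → ℤ_[p] :=
    fun i f => Classical.choose (exists_next u hι (ext i f) i)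
  let wf : WellFounded ((· < ·) : ι → ι → Prop) := wellFounded_lt
  let c : ι → ℕ → ℤ_[p] := wf.fix F
  refine ⟨c, fun i => ?_⟩
  have h1 : c i = F i (fun j _ => c j) := wf.fix_eq F i
  have h2 := Classical.choose_spec (exists_next u hι (ext i (fun j _ => c j)) i)
  refine Good_congr u _ _ i ?_ h2
  intro j hj
  rcases eq_or_lt_of_le hj with rfl | hlt
  · rw [Function.update_self, h1]
  · rw [Function.update_of_ne (ne_of_lt hlt)]
    show (if h : j < i then c j else 0) = c j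
    rw [dif_pos hlt]

theorem directed_mem (c : ι → ℕ → ℤ_[p]) (I : Set ι) (i0 : ι) (hi0 : i0 ∈ I) (x : S p)
    (hx : x ∈ AA (Xs c I)) : ∃ j ∈ I, i0 ≤ j ∧ x ∈ AA (Xs c (Set.Iic j)) := by
  induction hx using Subring.closure_induction with
  | mem x hx =>
    rcases hx with hx | ⟨n, g, ⟨k, hk, rfl⟩, rfl⟩
    · rw [Set.mem_singleton_iff.1 hx]
      exact ⟨i0, hi0, le_rfl, X_mem_AA _⟩
    · refine ⟨max i0 k, ?_, le_max_left _ _, ?_⟩
      · rcases le_total i0 k with h | h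
        · rw [max_eq_right h]; exact hk
        · rw [max_eq_left h]; exact hi0
      · exact dn_mem_AA _ _ _ ⟨k, le_max_right _ _, rfl⟩
  | zero => exact ⟨i0, hi0, le_rfl, zero_mem _⟩
  | one => exact ⟨i0, hi0, le_rfl, one_mem _⟩
  | neg x hx h1 =>
    obtain ⟨j, hj, hle, hm⟩ := h1
    exact ⟨j, hj, hle, neg_mem hm⟩
  | add x y hx hy h1 h2 =>
    obtain ⟨j, hj, hle, hm⟩ := h1
    obtain ⟨k, hk, hle', hm'⟩ := h2
    refine ⟨max j k, ?_, hle.trans (le_max_left _ _), ?_⟩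
    · rcases le_total j k with h | h
      · rw [max_eq_right h]; exact hk
      · rw [max_eq_left h]; exact hj
    · refine add_mem (AA_mono ?_ hm) (AA_mono ?_ hm')
      · exact Set.image_mono (Set.Iic_subset_Iic.2 (le_max_left _ _))
      · exact Set.image_mono (Set.Iic_subset_Iic.2 (le_max_right _ _))
  | mul x y hx hy h1 h2 =>
    obtain ⟨j, hj, hle, hm⟩ := h1
    obtain ⟨k, hk, hle', hm'⟩ := h2
    refine ⟨max j k, ?_, hle.trans (le_max_left _ _), ?_⟩
    · rcases le_total j k with h | h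
      · rw [max_eq_right h]; exact hk
      · rw [max_eq_left h]; exact hj
    · refine mul_mem (AA_mono ?_ hm) (AA_mono ?_ hm')
      · exact Set.image_mono (Set.Iic_subset_Iic.2 (le_max_left _ _))
      · exact Set.image_mono (Set.Iic_subset_Iic.2 (le_max_right _ _))

theorem directed_InR (c : ι → ℕ → ℤ_[p]) (I : Set ι) (i0 : ι) (hi0 : i0 ∈ I) (x : S p)
    (hx : InR (AA (Xs c I)) x) : ∃ j ∈ I, i0 ≤ j ∧ InR (AA (Xs c (Set.Iic j))) x := by
  obtain ⟨q, hq, hq0, hqx⟩ := hx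
  obtain ⟨j, hj, hle, hm⟩ := directed_mem c I i0 hi0 q hq
  obtain ⟨k, hk, hle', hm'⟩ := directed_mem c I i0 hi0 (q * x) hqx
  refine ⟨max j k, ?_, hle.trans (le_max_left _ _), q, ?_, hq0, ?_⟩
  · rcases le_total j k with h | h
    · rw [max_eq_right h]; exact hk
    · rw [max_eq_left h]; exact hj
  · exact AA_mono (Set.image_mono (Set.Iic_subset_Iic.2 (le_max_left _ _))) hm
  · exact AA_mono (Set.image_mono (Set.Iic_subset_Iic.2 (le_max_right _ _))) hm'

theorem avoid_Iio (c : ι → ℕ → ℤ_[p]) (hc : ∀ i, Good u c i) (i : ι) :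
    ∀ v ∈ Vs u c (Set.Iio i), ¬ InR (AA (Xs c (Set.Iio i))) v := by
  induction i using WellFoundedLT.induction with
  | _ i ih =>
    rintro v ⟨k, ⟨hk, hDk⟩, rfl⟩ hin
    obtain ⟨j, hj, hle, hm⟩ := directed_InR c (Set.Iio i) k hk _ hin
    have h1 := hc j (ih j hj)
    rcases eq_or_lt_of_le hle with rfl | hlt
    · exact h1.2 hDk hm
    · exact h1.1 _ ⟨k, ⟨hlt, hDk⟩, rfl⟩ hm

theorem avoid_univ (c : ι → ℕ → ℤ_[p]) (hc : ∀ i, Good u c i) (k : ι) (hDk : ¬ DO (u k)) :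
    ¬ InR (AA (Xs c Set.univ)) (Th (u k) (c k)) := by
  intro hin
  obtain ⟨j, hj, hle, hm⟩ := directed_InR c Set.univ k (Set.mem_univ _) _ hin
  have h1 := hc j (avoid_Iio u c hc j)
  rcases eq_or_lt_of_le hle with rfl | hlt
  · exact h1.2 hDk hm
  · exact h1.1 _ ⟨k, ⟨hlt, hDk⟩, rfl⟩ hm

end family

theorem exists_A (p : ℕ) [hp : Fact p.Prime] : ∃ A : Subring (S p), X ∈ A ∧
    (∀ f ∈ A, PowerSeries.derivative ℤ_[p] f ∈ A) ∧
    ∀ u : ℕ → S p, ¬ DO u → ∃ c : ℕ → ℤ_[p], W c ∈ A ∧ ¬ InR A (Th u c) := by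
  let ι : Type := (Cardinal.ord 𝔠).ToType
  have h1 : #(ℕ → S p) ≤ #ι := by
    rw [Cardinal.mk_ord_toType]
    exact seq_le_continuum
  obtain ⟨e⟩ := h1
  let u : ι → ℕ → S p := Function.invFun e
  have hu : Function.Surjective u := Function.invFun_surjective e.injective
  have hι : ∀ i : ι, #(Set.Iio i) < 𝔠 := by
    intro i
    have := Cardinal.mk_Iio_lt i (by simp [ι])
    rwa [Cardinal.mk_ord_toType] at this
  obtain ⟨c, hc⟩ := exists_all u hι
  refine ⟨AA (Xs c Set.univ), X_mem_AA _, derivative_mem_AA _, ?_⟩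
  intro v hv
  obtain ⟨k, rfl⟩ := hu v
  refine ⟨c k, ?_, avoid_univ u c hc k hv⟩
  have := dn_mem_AA (Xs c Set.univ) 0 (W (c k)) ⟨k, Set.mem_univ _, rfl⟩
  exact this

end Pool.Agent.H219R3.FT
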