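import Pool.Agent.H219R3.FT5

set_option autoImplicit false
set_option linter.unusedSectionVars false

/-!
The ring.
-/

namespace Pool.Agent.H219R3.FT

open PowerSeries Cardinal

variable {p : ℕ} [hp : Fact p.Prime]

/-- power series whose coefficients tend to zero -/
noncomputable def Sh (p : ℕ) [hp : Fact p.Prime] : Subring (S p) where
  carrier := {f | ∀ n : ℕ, ∃ N : ℕ, ∀ i ≥ N, (p : ℤ_[p]) ^ n ∣ coeff i f}
  zero_mem' := fun n => ⟨0, fun i _ => by simp⟩
  one_mem' := fun n => ⟨1, fun i hi => by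
    rw [coeff_one, if_neg (by omega)]
    exact dvd_zero _⟩
  add_mem' := by
    intro f g hf hg n
    obtain ⟨N, hN⟩ := hf n
    obtain ⟨M, hM⟩ := hg n
    refine ⟨max N M, fun i hi => ?_⟩
    rw [map_add]
    exact dvd_add (hN i (le_trans (le_max_left _ _) hi)) (hM i (le_trans (le_max_right _ _) hi))
  neg_mem' := by
    intro f hf n
    obtain ⟨N, hN⟩ := hf n
    refine ⟨N, fun i hi => ?_⟩
    rw [map_neg]
    exact (hN i hi).neg_right
  mul_mem' := by
    intro f g hf hg n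
    obtain ⟨N, hN⟩ := hf n
    obtain ⟨M, hM⟩ := hg n
    refine ⟨N + M, fun i hi => ?_⟩
    rw [coeff_mul]
    refine Finset.dvd_sum fun q hq => ?_
    rw [Finset.HasAntidiagonal.mem_antidiagonal] at hq
    by_cases h : N ≤ q.1
    · exact (hN _ h).mul_right _
    · exact (hM _ (by omega)).mul_left _

theorem mem_Sh {f : S p} : f ∈ Sh p ↔ ∀ n : ℕ, ∃ N : ℕ, ∀ i ≥ N, (p : ℤ_[p]) ^ n ∣ coeff i f :=
  Iff.rfl

/-- the fractions in `Sh` -/
noncomputable def RR (A : Subring (S p)) : Subring (S p) where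
  carrier := {f | f ∈ Sh p ∧ InR A f}
  zero_mem' := ⟨zero_mem _, 1, one_mem _, one_ne_zero, by rw [mul_zero]; exact zero_mem _⟩
  one_mem' := ⟨one_mem _, 1, one_mem _, one_ne_zero, by rw [mul_one]; exact one_mem _⟩
  add_mem' := by
    rintro f g ⟨hf, q, hq, hq0, hqf⟩ ⟨hg, r, hr, hr0, hrg⟩
    refine ⟨add_mem hf hg, q * r, mul_mem hq hr, mul_ne_zero hq0 hr0, ?_⟩
    have : q * r * (f + g) = r * (q * f) + q * (r * g) := by ring
    rw [this]
    exact add_mem (mul_mem hr hqf) (mul_mem hq hrg)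
  neg_mem' := by
    rintro f ⟨hf, q, hq, hq0, hqf⟩
    refine ⟨neg_mem hf, q, hq, hq0, ?_⟩
    rw [mul_neg]
    exact neg_mem hqf
  mul_mem' := by
    rintro f g ⟨hf, q, hq, hq0, hqf⟩ ⟨hg, r, hr, hr0, hrg⟩
    refine ⟨mul_mem hf hg, q * r, mul_mem hq hr, mul_ne_zero hq0 hr0, ?_⟩
    have : q * r * (f * g) = (q * f) * (r * g) := by ring
    rw [this]
    exact mul_mem hqf hrg

theorem mem_RR {A : Subring (S p)} {f : S p} : f ∈ RR A ↔ f ∈ Sh p ∧ InR A f := Iff.rfl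

theorem p_ne_zero' : (p : ℤ_[p]) ≠ 0 := by exact_mod_cast hp.1.ne_zero

theorem natS_ne_zero (m : ℕ) (hm : m ≠ 0) : (m : S p) ≠ 0 := by
  intro h
  have h1 := congrArg (constantCoeff (R := ℤ_[p])) h
  rw [map_natCast, map_zero] at h1
  exact hm (by exact_mod_cast h1)

theorem pS_ne_zero : (p : S p) ≠ 0 := natS_ne_zero p hp.1.ne_zero

theorem coeff_natCast_mul (m : ℕ) (i : ℕ) (f : S p) : coeff i ((m : S p) * f) = m * coeff i f := by
  have : (m : S p) = C (m : ℤ_[p]) := by simp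
  rw [this, coeff_C_mul]

theorem coeff_p_pow_mul (m : ℕ) (i : ℕ) (f : S p) :
    coeff i ((p : S p) ^ m * f) = (p : ℤ_[p]) ^ m * coeff i f := by
  have := coeff_natCast_mul (p ^ m) i f
  simpa using this

theorem p_pow_dvd_iff (m : ℕ) (f : S p) :
    (p : S p) ^ m ∣ f ↔ ∀ i, (p : ℤ_[p]) ^ m ∣ coeff i f := by
  constructor
  · rintro ⟨g, rfl⟩ i
    rw [coeff_p_pow_mul]
    exact dvd_mul_right _ _
  · intro h
    choose g hg using h
    refine ⟨PowerSeries.mk g, ?_⟩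
    ext i
    rw [coeff_p_pow_mul, coeff_mk, hg]

/-- every nonzero natural number is a power of `p` times a unit -/
theorem nat_unit (m : ℕ) (hm : m ≠ 0) : ∃ (v : ℕ) (u : ℤ_[p]ˣ), (m : ℤ_[p]) = p ^ v * u := by
  have h0 : (m : ℤ_[p]) ≠ 0 := by exact_mod_cast hm
  refine ⟨(m : ℤ_[p]).valuation, PadicInt.unitCoeff h0, ?_⟩
  rw [mul_comm]
  exact PadicInt.unitCoeff_spec h0

theorem Sh_pure (m : ℕ) (hm : m ≠ 0) (f : S p) (hf : (m : S p) * f ∈ Sh p) : f ∈ Sh p := by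
  obtain ⟨v, u, hu⟩ := nat_unit (p := p) m hm
  rw [mem_Sh] at hf ⊢
  intro n
  obtain ⟨N, hN⟩ := hf (v + n)
  refine ⟨N, fun i hi => ?_⟩
  have h1 := hN i hi
  rw [coeff_natCast_mul, hu, pow_add, mul_assoc] at h1
  have h2 := (mul_dvd_mul_iff_left (pow_ne_zero v p_ne_zero')).1 h1
  exact (Units.dvd_mul_left).1 h2

theorem RR_pure (A : Subring (S p)) (m : ℕ) (hm : m ≠ 0) (f : S p) (hf : (m : S p) * f ∈ RR A) :
    f ∈ RR A := by
  obtain ⟨h1, q, hq, hq0, hqf⟩ := hf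
  refine ⟨Sh_pure m hm f h1, q * m, mul_mem hq (natCast_mem A m), mul_ne_zero hq0 ?_, ?_⟩
  · exact natS_ne_zero m hm
  · rw [mul_assoc]; exact hqf

theorem RR_pure_pow (A : Subring (S p)) (m : ℕ) (f : S p) (hf : (p : S p) ^ m * f ∈ RR A) :
    f ∈ RR A := by
  refine RR_pure A (p ^ m) (pow_ne_zero _ hp.1.ne_zero) f ?_
  rw [Nat.cast_pow]; exact hf

theorem X_mem_Sh : (X : S p) ∈ Sh p := by
  intro n
  refine ⟨2, fun i hi => ?_⟩
  rw [coeff_X, if_neg (by omega)]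
  exact dvd_zero _

theorem A_sub (A : Subring (S p)) (f : S p) (h1 : f ∈ Sh p) (h2 : f ∈ A) : f ∈ RR A :=
  ⟨h1, 1, one_mem _, one_ne_zero, by rw [one_mul]; exact h2⟩

theorem W_mem_Sh (c : ℕ → ℤ_[p]) : W c ∈ Sh p := by
  intro n
  refine ⟨n, fun i hi => ?_⟩
  rw [coeff_W]
  exact (pow_dvd_pow _ hi).mul_right _

theorem derivative_mem_Sh (f : S p) (hf : f ∈ Sh p) : PowerSeries.derivative ℤ_[p] f ∈ Sh p := by
  intro n
  obtain ⟨N, hN⟩ := hf n
  refine ⟨N, fun i hi => ?_⟩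
  rw [coeff_derivative]
  exact (hN (i + 1) (by omega)).mul_right _

theorem derivative_mem_RR (A : Subring (S p))
    (hA : ∀ f ∈ A, PowerSeries.derivative ℤ_[p] f ∈ A) (f : S p) (hf : f ∈ RR A) :
    PowerSeries.derivative ℤ_[p] f ∈ RR A := by
  obtain ⟨h1, q, hq, hq0, hqf⟩ := hf
  refine ⟨derivative_mem_Sh f h1, q * q, mul_mem hq hq, mul_ne_zero hq0 hq0, ?_⟩
  have h2 := hA _ hqf
  rw [Derivation.leibniz, smul_eq_mul, smul_eq_mul] at h2
  have h3 : q * q * PowerSeries.derivative ℤ_[p] f =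
      q * (q * PowerSeries.derivative ℤ_[p] f + f * PowerSeries.derivative ℤ_[p] q) -
      (q * f) * PowerSeries.derivative ℤ_[p] q := by ring
  rw [h3]
  exact sub_mem (mul_mem hq h2) (mul_mem hqf (hA _ hq))

theorem dn_mem_RR (A : Subring (S p))
    (hA : ∀ f ∈ A, PowerSeries.derivative ℤ_[p] f ∈ A) (n : ℕ) (f : S p) (hf : f ∈ RR A) :
    dn n f ∈ RR A := by
  induction n with
  | zero => exact hf
  | succ n ih =>
    rw [dn_succ]
    exact derivative_mem_RR A hA _ ih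

/-- Hasse derivative -/
noncomputable def Hd (m : ℕ) (f : S p) : S p :=
  PowerSeries.mk (fun i => ((i + m).choose m : ℤ_[p]) * coeff (i + m) f)

theorem Hd_add (m : ℕ) (f g : S p) : Hd m (f + g) = Hd m f + Hd m g := by
  ext i
  rw [map_add, Hd, Hd, Hd, coeff_mk, coeff_mk, coeff_mk, map_add, mul_add]

theorem factorial_Hd (m : ℕ) (f : S p) : (m.factorial : S p) * Hd m f = dn m f := by
  ext i
  rw [coeff_natCast_mul, Hd, coeff_mk]
  unfold dn
  rw [coeff_iterate_derivative, Nat.ascFactorial_eq_factorial_mul_choose]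
  push_cast
  ring

theorem Hd_mem_RR (A : Subring (S p))
    (hA : ∀ f ∈ A, PowerSeries.derivative ℤ_[p] f ∈ A) (m : ℕ) (f : S p) (hf : f ∈ RR A) :
    Hd m f ∈ RR A := by
  refine RR_pure A m.factorial (Nat.factorial_ne_zero m) _ ?_
  rw [factorial_Hd]
  exact dn_mem_RR A hA m f hf

theorem inv_mem_Sh (e g : S p) (he : e ∈ Sh p) (hge : e * g = 1)
    (hu : IsUnit (constantCoeff e)) (hdiv : ∀ i, i ≠ 0 → (p : ℤ_[p]) ∣ coeff i e) :
    g ∈ Sh p := by
  obtain ⟨u, hu⟩ := hu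
  have hz : (p : S p) ^ 1 ∣ 1 - C (↑u⁻¹ : ℤ_[p]) * e := by
    rw [p_pow_dvd_iff]
    intro i
    rw [map_sub, coeff_C_mul, pow_one]
    rcases Nat.eq_zero_or_pos i with rfl | hi
    · rw [coeff_zero_eq_constantCoeff_apply, coeff_zero_eq_constantCoeff_apply, ← hu]
      simp
    · rw [coeff_one, if_neg (by omega), zero_sub, dvd_neg]
      exact (hdiv i (by omega)).mul_left _
  obtain ⟨h, hh⟩ := hz
  have hCu : (C (↑u⁻¹ : ℤ_[p]) : S p) ∈ Sh p := by
    intro n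
    refine ⟨1, fun i hi => ?_⟩
    rw [coeff_C, if_neg (by omega)]
    exact dvd_zero _
  have hhSh : h ∈ Sh p := by
    refine Sh_pure p hp.1.ne_zero h ?_
    rw [pow_one] at hh
    rw [← hh]
    exact sub_mem (one_mem _) (mul_mem hCu he)
  -- geometric series
  have hgeom : ∀ n : ℕ, ∃ s ∈ Sh p, g = s + (p : S p) ^ n * (h ^ n * g) := by
    intro n
    refine ⟨(∑ k ∈ Finset.range n, ((p : S p) * h) ^ k) * C (↑u⁻¹ : ℤ_[p]), ?_, ?_⟩
    · refine mul_mem (sum_mem fun k _ => pow_mem (mul_mem (natCast_mem _ _) hhSh) _) hCu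
    · have h1 := geom_sum_mul ((p : S p) * h) n
      have h2 : (p : S p) * h - 1 = - (C (↑u⁻¹ : ℤ_[p]) * e) := by
        rw [pow_one] at hh
        rw [← hh]; ring
      rw [h2] at h1
      have h3 : (∑ k ∈ Finset.range n, ((p : S p) * h) ^ k) * C (↑u⁻¹ : ℤ_[p]) * (e * g) =
          (1 - ((p : S p) * h) ^ n) * g := by
        linear_combination (-g) * h1
      rw [hge, mul_one] at h3
      rw [h3, mul_pow]
      ring
  intro n
  obtain ⟨s, hs, hgs⟩ := hgeom n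
  obtain ⟨N, hN⟩ := hs n
  refine ⟨N, fun i hi => ?_⟩
  rw [hgs, map_add, coeff_p_pow_mul]
  exact dvd_add (hN i hi) (dvd_mul_right _ _)

theorem inv_mem_RR (A : Subring (S p)) (e g : S p) (he : e ∈ RR A) (hge : e * g = 1)
    (hu : IsUnit (constantCoeff e)) (hdiv : ∀ i, i ≠ 0 → (p : ℤ_[p]) ∣ coeff i e) :
    g ∈ RR A := by
  refine ⟨inv_mem_Sh e g he.1 hge hu hdiv, ?_⟩
  obtain ⟨-, q, hq, hq0, hqe⟩ := he
  refine ⟨q * e, hqe, mul_ne_zero hq0 ?_, ?_⟩
  · rintro rfl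
    rw [zero_mul] at hge
    exact zero_ne_one hge
  · rw [mul_assoc, hge, mul_one]
    exact hq

/-- approximation by integral polynomials -/
theorem approx (A : Subring (S p)) (hXA : X ∈ A) (f : S p) (hf : f ∈ RR A) (n : ℕ) :
    ∃ (N : ℕ) (k : ℕ → ℤ) (r : S p), r ∈ RR A ∧
      f = ∑ m ∈ Finset.range N, (k m : S p) * X ^ m + (p : S p) ^ n * r := by
  obtain ⟨N, hN⟩ := hf.1 n
  have h1 : ∀ a : ℤ_[p], ∃ k : ℤ, (p : ℤ_[p]) ^ n ∣ a - k := by
    intro a
    refine ⟨(PadicInt.appr a n : ℤ), ?_⟩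
    have := PadicInt.appr_spec n a
    rw [Ideal.mem_span_singleton] at this
    simpa using this
  choose k hk using h1
  have hXR : (X : S p) ∈ RR A := A_sub A X X_mem_Sh hXA
  have h2 : (p : S p) ^ n ∣ f - ∑ m ∈ Finset.range N, (k (coeff m f) : S p) * X ^ m := by
    rw [p_pow_dvd_iff]
    intro i
    rw [map_sub, map_sum]
    have h3 : ∀ m ∈ Finset.range N, coeff i ((k (coeff m f) : S p) * X ^ m) =
        if i = m then (k (coeff m f) : ℤ_[p]) else 0 := by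
      intro m _
      have : (k (coeff m f) : S p) = C (k (coeff m f) : ℤ_[p]) := by simp
      rw [this, coeff_C_mul, coeff_X_pow]
      split_ifs <;> simp
    rw [Finset.sum_congr rfl h3, Finset.sum_ite_eq]
    split_ifs with hi
    · exact hk _
    · rw [sub_zero]
      apply hN
      rw [Finset.mem_range] at hi
      omega
  obtain ⟨r, hr⟩ := h2
  refine ⟨N, fun m => k (coeff m f), r, ?_, ?_⟩
  · refine RR_pure_pow A n r ?_
    rw [← hr]
    exact sub_mem hf (sum_mem fun m _ => mul_mem (intCast_mem _ _) (pow_mem hXR _))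
  · rw [← hr]; ring

/-- an element divisible by all powers of `p` is zero -/
theorem S_eq_zero (f : S p) (h : ∀ n : ℕ, (p : S p) ^ n ∣ f) : f = 0 := by
  ext i
  rw [map_zero]
  apply eq_zero_of_dvd
  intro n
  exact (p_pow_dvd_iff n f).1 (h n) i

end Pool.Agent.H219R3.FT
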