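import Pool.Agent.H219R3.FT6

set_option autoImplicit false
set_option linter.unusedSectionVars false

/-!
Heights and full transitivity.
-/

namespace Pool.Agent.H219R3.FT

open PowerSeries Cardinal

variable {p : ℕ} [hp : Fact p.Prime]

theorem isUnit_of_not_dvd (z : ℤ_[p]) (h : ¬ (p : ℤ_[p]) ∣ z) : IsUnit z := by
  rw [PadicInt.isUnit_iff]
  rw [← PadicInt.norm_lt_one_iff_dvd] at h
  exact le_antisymm (PadicInt.norm_le_one z) (not_lt.1 h)

theorem unit_of_ne (q : ℕ) (hq : q.Prime) (hne : q ≠ p) (k : ℕ) :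
    ∃ v : ℤ_[p], ((q ^ k : ℕ) : ℤ_[p]) * v = 1 := by
  have h1 : IsUnit ((q ^ k : ℕ) : ℤ_[p]) := by
    apply isUnit_of_not_dvd
    intro h
    rw [← PadicInt.norm_lt_one_iff_dvd] at h
    have h2 : ‖(((q ^ k : ℕ) : ℤ) : ℤ_[p])‖ < 1 := by
      rw [Int.cast_natCast]; exact h
    rw [PadicInt.norm_int_lt_one_iff_dvd] at h2
    have h3 : p ∣ q ^ k := by exact_mod_cast h2
    have h4 := hp.1.dvd_of_dvd_pow h3
    exact hne ((Nat.prime_dvd_prime_iff_eq hp.1 hq).1 h4).symm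
  exact h1.exists_right_inv

theorem coe_nsmul' (A : Subring (S p)) (m : ℕ) (y : RR A) :
    ((m • y : RR A) : S p) = (m : S p) * (y : S p) := by
  rw [nsmul_eq_mul]
  push_cast
  rfl

theorem div_iff (A : Subring (S p)) (a : RR A) (q : ℕ) (hq : q.Prime) (k : ℕ) :
    (∃ y : RR A, q ^ k • y = a) ↔ (q ≠ p ∨ (p : S p) ^ k ∣ (a : S p)) := by
  constructor
  · rintro ⟨y, rfl⟩
    by_cases h : q = p
    · right
      subst h
      rw [coe_nsmul', Nat.cast_pow]
      exact dvd_mul_right _ _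
    · left; exact h
  · intro h
    by_cases hqp : q = p
    · subst hqp
      rcases h with h | h
      · exact absurd rfl h
      · obtain ⟨y, hy⟩ := h
        have hyR : y ∈ RR A := by
          refine RR_pure_pow A k y ?_
          rw [← hy]; exact a.2
        refine ⟨⟨y, hyR⟩, ?_⟩
        apply Subtype.ext
        rw [coe_nsmul', Nat.cast_pow, hy]
    · obtain ⟨v, hv⟩ := unit_of_ne (p := p) q hq hqp k
      have h1 : ((q ^ k : ℕ) : S p) * (C v * (a : S p)) = a := by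
        have : ((q ^ k : ℕ) : S p) = C ((q ^ k : ℕ) : ℤ_[p]) := by simp
        rw [this, ← mul_assoc, ← map_mul, hv, map_one, one_mul]
      have hyR : C v * (a : S p) ∈ RR A := by
        refine RR_pure A (q ^ k) (pow_ne_zero _ hq.ne_zero) _ ?_
        rw [h1]; exact a.2
      refine ⟨⟨_, hyR⟩, ?_⟩
      apply Subtype.ext
      rw [coe_nsmul']
      exact h1

theorem exists_height (f : S p) (hf : f ≠ 0) :
    ∃ h : ℕ, (p : S p) ^ h ∣ f ∧ ¬ (p : S p) ^ (h + 1) ∣ f := by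
  classical
  have h1 : ∃ n : ℕ, ¬ (p : S p) ^ n ∣ f := by
    by_contra hcon
    push Not at hcon
    exact hf (S_eq_zero f hcon)
  have h2 := Nat.find_spec h1
  have h3 : Nat.find h1 ≠ 0 := by
    intro h
    rw [h] at h2
    exact h2 (by rw [pow_zero]; exact one_dvd _)
  obtain ⟨h, hh⟩ := Nat.exists_eq_succ_of_ne_zero h3
  refine ⟨h, ?_, ?_⟩
  · have := Nat.find_min h1 (m := h) (by omega)
    exact not_not.1 this
  · rw [hh] at h2
    exact h2

theorem exists_map_one (A : Subring (S p))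
    (hA : ∀ f ∈ A, PowerSeries.derivative ℤ_[p] f ∈ A) (a : RR A)
    (ha : ¬ (p : S p) ∣ (a : S p)) : ∃ F : RR A →+ RR A, F a = 1 := by
  classical
  have h1 : ∃ N : ℕ, ∀ i ≥ N, (p : ℤ_[p]) ∣ coeff i (a : S p) := by
    have := a.2.1 1
    simpa using this
  have h2 := Nat.find_spec h1
  have h3 : Nat.find h1 ≠ 0 := by
    intro h
    rw [h] at h2
    apply ha
    have := (p_pow_dvd_iff 1 (a : S p)).2 (fun i => by
      rw [pow_one]; exact h2 i (Nat.zero_le _))
    rwa [pow_one] at this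
  obtain ⟨m, hm⟩ := Nat.exists_eq_succ_of_ne_zero h3
  have h4 : ¬ (p : ℤ_[p]) ∣ coeff m (a : S p) := by
    intro h
    refine Nat.find_min h1 (m := m) (by omega) ?_
    intro i hi
    rcases eq_or_lt_of_le hi with rfl | hlt
    · exact h
    · exact h2 i (by omega)
  let e : S p := Hd m (a : S p)
  have he : e ∈ RR A := Hd_mem_RR A hA m _ a.2
  have he0 : IsUnit (constantCoeff e) := by
    have : constantCoeff e = coeff m (a : S p) := by
      rw [← coeff_zero_eq_constantCoeff_apply]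
      show coeff 0 (Hd m _) = _
      rw [Hd, coeff_mk]
      simp
    rw [this]
    exact isUnit_of_not_dvd _ h4
  have hdiv : ∀ i, i ≠ 0 → (p : ℤ_[p]) ∣ coeff i e := by
    intro i hi
    show _ ∣ coeff i (Hd m _)
    rw [Hd, coeff_mk]
    exact (h2 (i + m) (by omega)).mul_left _
  obtain ⟨g, hg⟩ := (PowerSeries.isUnit_iff_constantCoeff.2 he0).exists_right_inv
  have hgR : g ∈ RR A := inv_mem_RR A e g he hg he0 hdiv
  refine ⟨AddMonoidHom.mk' (fun f => ⟨g * Hd m (f : S p), mul_mem hgR (Hd_mem_RR A hA m _ f.2)⟩)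
    ?_, ?_⟩
  · intro x y
    apply Subtype.ext
    show g * Hd m ((x : S p) + (y : S p)) = g * Hd m x + g * Hd m y
    rw [Hd_add, mul_add]
  · apply Subtype.ext
    show g * e = 1
    rw [mul_comm]; exact hg

theorem RR_homogeneous (A : Subring (S p)) (a b : RR A) (ha : a ≠ 0) :
    ∃ n : ℕ, n ≠ 0 ∧ ∀ q : ℕ, q.Prime → ∀ k : ℕ,
      (∃ y : RR A, q ^ k • y = a) → ∃ y : RR A, q ^ k • y = n • b := by
  have ha' : (a : S p) ≠ 0 := fun h => ha (Subtype.ext h)
  obtain ⟨h, h1, h2⟩ := exists_height (a : S p) ha'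
  refine ⟨p ^ h, pow_ne_zero _ hp.1.ne_zero, fun q hq k => ?_⟩
  rw [div_iff A _ q hq, div_iff A _ q hq]
  rintro (hne | hdvd)
  · exact Or.inl hne
  · right
    have hk : k ≤ h := by
      by_contra hlt
      exact h2 ((pow_dvd_pow _ (by omega)).trans hdvd)
    rw [coe_nsmul', Nat.cast_pow]
    exact (pow_dvd_pow _ hk).mul_right _

theorem RR_fully (A : Subring (S p))
    (hA : ∀ f ∈ A, PowerSeries.derivative ℤ_[p] f ∈ A) (a b : RR A) (ha : a ≠ 0)
    (hab : ∀ q : ℕ, q.Prime → ∀ k : ℕ, (∃ y : RR A, q ^ k • y = a) → ∃ y : RR A, q ^ k • y = b) :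
    ∃ f : RR A →+ RR A, f a = b := by
  have ha' : (a : S p) ≠ 0 := fun h => ha (Subtype.ext h)
  obtain ⟨h, h1, h2⟩ := exists_height (a : S p) ha'
  obtain ⟨a', hA'⟩ := (div_iff A a p hp.1 h).2 (Or.inr h1)
  obtain ⟨b', hB'⟩ := hab p hp.1 h ⟨a', hA'⟩
  have ha'' : ¬ (p : S p) ∣ (a' : S p) := by
    rintro ⟨c, hc⟩
    apply h2
    refine ⟨c, ?_⟩
    rw [← hA', coe_nsmul', hc, Nat.cast_pow]
    ring
  obtain ⟨F, hF⟩ := exists_map_one A hA a' ha''
  refine ⟨(AddMonoidHom.mulLeft b').comp F, ?_⟩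
  rw [← hA', AddMonoidHom.comp_apply, map_nsmul, map_nsmul, hF, ← hB']
  simp

theorem RR_torsionfree (A : Subring (S p)) (n : ℕ) (x : RR A) (hn : n ≠ 0) (h : n • x = 0) :
    x = 0 := by
  have h1 := congrArg (Subtype.val) h
  rw [coe_nsmul'] at h1
  rcases mul_eq_zero.1 h1 with h2 | h2
  · exact absurd h2 (natS_ne_zero n hn)
  · exact Subtype.ext h2

end Pool.Agent.H219R3.FT
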