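import Pool.Agent.H219R3.FT7

set_option autoImplicit false
set_option linter.unusedSectionVars false

/-!
Endomorphisms are differential operators; automorphisms sending `1` to `x` do not exist.
-/

namespace Pool.Agent.H219R3.FT

open PowerSeries Cardinal

variable {p : ℕ} [hp : Fact p.Prime]

/-- the element `x` -/
noncomputable def Xr (A : Subring (S p)) (hXA : X ∈ A) : RR A := ⟨X, A_sub A X X_mem_Sh hXA⟩

theorem Xr_pow_coe (A : Subring (S p)) (hXA : X ∈ A) (m : ℕ) :
    (((Xr A hXA) ^ m : RR A) : S p) = X ^ m := by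
  rw [SubmonoidClass.coe_pow]
  rfl

theorem coe_zsmul' (A : Subring (S p)) (m : ℤ) (y : RR A) :
    ((m • y : RR A) : S p) = (m : S p) * (y : S p) := by
  rw [zsmul_eq_mul]
  push_cast
  rfl

theorem approx' (A : Subring (S p)) (hXA : X ∈ A) (f : RR A) (n : ℕ) :
    ∃ (N : ℕ) (k : ℕ → ℤ) (r : RR A),
      f = ∑ m ∈ Finset.range N, k m • (Xr A hXA) ^ m + (p ^ n) • r := by
  obtain ⟨N, k, r, hr, hf⟩ := approx A hXA f f.2 n
  refine ⟨N, k, ⟨r, hr⟩, ?_⟩
  apply Subtype.ext
  rw [hf, Subring.coe_add, AddSubmonoidClass.coe_finsetSum, coe_nsmul', Nat.cast_pow]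
  congr 1
  refine Finset.sum_congr rfl fun m _ => ?_
  rw [coe_zsmul', Xr_pow_coe]

theorem dens (A : Subring (S p)) (hXA : X ∈ A) (T : RR A →+ S p)
    (hT : ∀ m, T ((Xr A hXA) ^ m) = 0) (f : RR A) : T f = 0 := by
  apply S_eq_zero
  intro n
  obtain ⟨N, k, r, hf⟩ := approx' A hXA f n
  have h1 : T f = (p : S p) ^ n * T r := by
    conv_lhs => rw [hf]
    rw [map_add, map_sum, map_nsmul]
    have h2 : ∀ m ∈ Finset.range N, T (k m • (Xr A hXA) ^ m) = 0 := by
      intro m _
      rw [map_zsmul, hT, smul_zero]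
    rw [Finset.sum_eq_zero h2, zero_add, nsmul_eq_mul, Nat.cast_pow]
  rw [h1]
  exact dvd_mul_right _ _

theorem Th_approx (u : ℕ → S p) (c : ℕ → ℤ_[p]) (k : ℕ → ℤ) (n : ℕ)
    (hk : ∀ m, (p : ℤ_[p]) ^ n ∣ c m - k m) :
    (p : S p) ^ n ∣ Th u c - ∑ m ∈ Finset.range n, ((p ^ m * k m : ℤ) : S p) * u m := by
  rw [p_pow_dvd_iff]
  intro i
  rw [map_sub, map_sum, coeff_Th]
  obtain ⟨r, hr⟩ := Ts_trunc (fun m => c m * coeff i (u m)) n
  rw [hr]
  have h1 : ∀ m ∈ Finset.range n, coeff i (((p ^ m * k m : ℤ) : S p) * u m) =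
      (p : ℤ_[p]) ^ m * (k m * coeff i (u m)) := by
    intro m _
    have : ((p ^ m * k m : ℤ) : S p) = C ((p ^ m * k m : ℤ) : ℤ_[p]) := by
      rw [map_intCast]
    rw [this, coeff_C_mul]
    push_cast
    ring
  rw [Finset.sum_congr rfl h1, add_sub_right_comm, ← Finset.sum_sub_distrib]
  refine dvd_add ?_ (dvd_mul_right _ _)
  refine Finset.dvd_sum fun m _ => ?_
  have : (p : ℤ_[p]) ^ m * (c m * coeff i (u m)) - (p : ℤ_[p]) ^ m * (k m * coeff i (u m)) =
      (c m - k m) * ((p : ℤ_[p]) ^ m * coeff i (u m)) := by ring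
  rw [this]
  exact (hk m).mul_right _

/-- every endomorphism is given by a differential operator on polynomials -/
theorem DO_end (A : Subring (S p)) (hXA : X ∈ A)
    (hA : ∀ u : ℕ → S p, ¬ DO u → ∃ c : ℕ → ℤ_[p], W c ∈ A ∧ ¬ InR A (Th u c))
    (φ : RR A →+ RR A) : DO (fun m => (φ ((Xr A hXA) ^ m) : S p)) := by
  by_contra hnot
  obtain ⟨c, hcA, hc⟩ := hA _ hnot
  have hWR : W c ∈ RR A := A_sub A _ (W_mem_Sh c) hcA
  apply hc
  have key : Th (fun m => (φ ((Xr A hXA) ^ m) : S p)) c = φ ⟨W c, hWR⟩ := by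
    rw [← sub_eq_zero]
    apply S_eq_zero
    intro n
    have h1 : ∀ a : ℤ_[p], ∃ k : ℤ, (p : ℤ_[p]) ^ n ∣ a - k := by
      intro a
      refine ⟨(PadicInt.appr a n : ℤ), ?_⟩
      have := PadicInt.appr_spec n a
      rw [Ideal.mem_span_singleton] at this
      simpa using this
    choose k hk using h1
    have h2 := Th_approx (fun m => (φ ((Xr A hXA) ^ m) : S p)) c (fun m => k (c m)) n
      (fun m => hk _)
    have h3 := Th_approx (fun m => (X : S p) ^ m) c (fun m => k (c m)) n (fun m => hk _)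
    obtain ⟨r, hr⟩ := h3
    have hXR : (X : S p) ∈ RR A := A_sub A X X_mem_Sh hXA
    have hrR : r ∈ RR A := by
      refine RR_pure_pow A n r ?_
      rw [← hr]
      exact sub_mem hWR (sum_mem fun m _ => mul_mem (intCast_mem _ _) (pow_mem hXR _))
    have h4 : (⟨W c, hWR⟩ : RR A) =
        ∑ m ∈ Finset.range n, (p ^ m * k (c m) : ℤ) • (Xr A hXA) ^ m + (p ^ n) • ⟨r, hrR⟩ := by
      apply Subtype.ext
      rw [Subring.coe_add, AddSubmonoidClass.coe_finsetSum, coe_nsmul', Nat.cast_pow]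
      show W c = _ + (p : S p) ^ n * r
      rw [← hr]
      have h5 : ∑ m ∈ Finset.range n, (((p ^ m * k (c m) : ℤ) • (Xr A hXA) ^ m : RR A) : S p) =
          ∑ m ∈ Finset.range n, ((p ^ m * k (c m) : ℤ) : S p) * X ^ m := by
        refine Finset.sum_congr rfl fun m _ => ?_
        rw [coe_zsmul', Xr_pow_coe]
      rw [h5]
      show W c = _ + (W c - _)
      ring
    have h6 : (φ ⟨W c, hWR⟩ : S p) =
        ∑ m ∈ Finset.range n, ((p ^ m * k (c m) : ℤ) : S p) * (φ ((Xr A hXA) ^ m) : S p) +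
        (p : S p) ^ n * (φ ⟨r, hrR⟩ : S p) := by
      rw [h4, map_add, map_sum, map_nsmul, Subring.coe_add, AddSubmonoidClass.coe_finsetSum,
        coe_nsmul', Nat.cast_pow]
      congr 1
      refine Finset.sum_congr rfl fun m _ => ?_
      rw [map_zsmul, coe_zsmul']
    rw [h6]
    have h7 : Th (fun m => (φ ((Xr A hXA) ^ m) : S p)) c -
        (∑ m ∈ Finset.range n, ((p ^ m * k (c m) : ℤ) : S p) * (φ ((Xr A hXA) ^ m) : S p) +
        (p : S p) ^ n * (φ ⟨r, hrR⟩ : S p)) =
        (Th (fun m => (φ ((Xr A hXA) ^ m) : S p)) c -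
        ∑ m ∈ Finset.range n, ((p ^ m * k (c m) : ℤ) : S p) * (φ ((Xr A hXA) ^ m) : S p)) -
        (p : S p) ^ n * (φ ⟨r, hrR⟩ : S p) := by ring
    rw [h7]
    exact dvd_sub h2 (dvd_mul_right _ _)
  rw [key]
  exact (φ ⟨W c, hWR⟩).2.2

/-- the commutator with `x` -/
noncomputable def Dl (A : Subring (S p)) (hXA : X ∈ A) :
    (RR A → S p) →ₗ[S p] (RR A → S p) where
  toFun T := fun f => X * T f - T (Xr A hXA * f)
  map_add' T U := by
    funext f
    show X * (T f + U f) - (T _ + U _) = (X * T f - T _) + (X * U f - U _)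
    ring
  map_smul' c T := by
    funext f
    show X * (c * T f) - c * T _ = c * (X * T f - T _)
    ring

/-- derivatives as functions on the ring -/
noncomputable def Dd (A : Subring (S p)) (i : ℕ) : RR A → S p := fun f => dn i (f : S p)

theorem dn_X_mul (i : ℕ) (f : S p) :
    dn (i + 1) (X * f) = X * dn (i + 1) f + ((i + 1 : ℕ) : S p) * dn i f := by
  induction i with
  | zero =>
    rw [dn_succ, dn_zero, dn_succ, dn_zero, Derivation.leibniz, PowerSeries.derivative_X,
      smul_eq_mul, smul_eq_mul]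
    push_cast
    ring
  | succ i ih =>
    rw [dn_succ, ih, map_add, Derivation.leibniz, PowerSeries.derivative_X, Derivation.leibniz,
      Derivation.map_natCast, smul_eq_mul, smul_eq_mul, smul_eq_mul, smul_eq_mul, ← dn_succ,
      ← dn_succ]
    push_cast
    ring

theorem Dl_Dd_zero (A : Subring (S p)) (hXA : X ∈ A) : Dl A hXA (Dd A 0) = 0 := by
  funext f
  show X * dn 0 (f : S p) - dn 0 ((Xr A hXA * f : RR A) : S p) = 0
  rw [dn_zero, dn_zero]
  show X * (f : S p) - X * (f : S p) = 0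
  ring

theorem Dl_Dd_succ (A : Subring (S p)) (hXA : X ∈ A) (i : ℕ) :
    Dl A hXA (Dd A (i + 1)) = (-((i + 1 : ℕ) : S p)) • Dd A i := by
  funext f
  show X * dn (i + 1) (f : S p) - dn (i + 1) (X * (f : S p)) = (-((i + 1 : ℕ) : S p)) * dn i f
  rw [dn_X_mul]
  ring

theorem Dl_pow_Dd (A : Subring (S p)) (hXA : X ∈ A) (i : ℕ) :
    (Dl A hXA ^ (i + 1)) (Dd A i) = 0 := by
  induction i with
  | zero =>
    rw [zero_add, pow_one]
    exact Dl_Dd_zero A hXA
  | succ i ih =>
    rw [pow_succ, Module.End.mul_apply, Dl_Dd_succ, map_smul, ih, smul_zero]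

theorem Dl_pow_Dd' (A : Subring (S p)) (hXA : X ∈ A) (i n : ℕ) (h : i < n) :
    (Dl A hXA ^ n) (Dd A i) = 0 := by
  obtain ⟨m, rfl⟩ : ∃ m, n = m + (i + 1) := ⟨n - (i + 1), by omega⟩
  rw [pow_add, Module.End.mul_apply, Dl_pow_Dd, map_zero]

/-- multiplication by `x` -/
noncomputable def mX (A : Subring (S p)) (hXA : X ∈ A) : AddMonoid.End (RR A) :=
  AddMonoidHom.mulLeft (Xr A hXA)

/-- the commutator with `x` on endomorphisms -/
noncomputable def dl (A : Subring (S p)) (hXA : X ∈ A) (T : AddMonoid.End (RR A)) :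
    AddMonoid.End (RR A) := mX A hXA * T - T * mX A hXA

theorem dl_apply (A : Subring (S p)) (hXA : X ∈ A) (T : AddMonoid.End (RR A)) (f : RR A) :
    dl A hXA T f = Xr A hXA * T f - T (Xr A hXA * f) := rfl

theorem dl_add (A : Subring (S p)) (hXA : X ∈ A) (T U : AddMonoid.End (RR A)) :
    dl A hXA (T + U) = dl A hXA T + dl A hXA U := by
  unfold dl
  rw [mul_add, add_mul]
  abel

theorem dl_zero (A : Subring (S p)) (hXA : X ∈ A) :
    dl A hXA (0 : AddMonoid.End (RR A)) = 0 := by
  unfold dl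
  rw [mul_zero, zero_mul, sub_zero]

theorem dl_one (A : Subring (S p)) (hXA : X ∈ A) :
    dl A hXA (1 : AddMonoid.End (RR A)) = 0 := by
  unfold dl
  rw [mul_one, one_mul, sub_self]

theorem dl_mul (A : Subring (S p)) (hXA : X ∈ A) (T U : AddMonoid.End (RR A)) :
    dl A hXA (T * U) = dl A hXA T * U + T * dl A hXA U := by
  unfold dl
  rw [sub_mul, mul_sub, mul_assoc, mul_assoc, mul_assoc]
  abel

theorem dl_iter_add (A : Subring (S p)) (hXA : X ∈ A) (n : ℕ) (T U : AddMonoid.End (RR A)) :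
    (dl A hXA)^[n] (T + U) = (dl A hXA)^[n] T + (dl A hXA)^[n] U := by
  induction n generalizing T U with
  | zero => rfl
  | succ n ih =>
    rw [Function.iterate_succ_apply, dl_add, ih, Function.iterate_succ_apply,
      Function.iterate_succ_apply]

theorem dl_iter_zero (A : Subring (S p)) (hXA : X ∈ A) (n : ℕ) :
    (dl A hXA)^[n] (0 : AddMonoid.End (RR A)) = 0 := by
  induction n with
  | zero => rfl
  | succ n ih => rw [Function.iterate_succ_apply, dl_zero, ih]

theorem dl_iter_coe (A : Subring (S p)) (hXA : X ∈ A) (n : ℕ) (T : AddMonoid.End (RR A)) :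
    (Dl A hXA ^ n) (fun f => (T f : S p)) = fun f => (((dl A hXA)^[n] T) f : S p) := by
  induction n generalizing T with
  | zero => rfl
  | succ n ih =>
    rw [pow_succ, Module.End.mul_apply, Function.iterate_succ_apply, ← ih]
    rfl

/-- the commutators eventually vanish -/
theorem nilp (A : Subring (S p)) (hXA : X ∈ A)
    (hA : ∀ u : ℕ → S p, ¬ DO u → ∃ c : ℕ → ℤ_[p], W c ∈ A ∧ ¬ InR A (Th u c))
    (φ : AddMonoid.End (RR A)) : ∃ n, (dl A hXA)^[n] φ = 0 := by
  obtain ⟨q, hq, c, hc⟩ := DO_end A hXA hA φ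
  -- extension by density
  have h1 : ∀ f : RR A, q * (φ f : S p) = c.sum (fun i a => a * dn i (f : S p)) := by
    intro f
    let T : RR A →+ S p := AddMonoidHom.mk' (fun f => q * (φ f : S p) -
      c.sum (fun i a => a * dn i (f : S p))) (by
        intro x y
        have h2 : c.sum (fun i a => a * dn i ((x + y : RR A) : S p)) =
            c.sum (fun i a => a * dn i (x : S p)) + c.sum (fun i a => a * dn i (y : S p)) := by
          rw [← Finsupp.sum_add]
          refine Finsupp.sum_congr fun i _ => ?_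
          rw [Subring.coe_add, dn_add]; ring
        rw [h2, map_add, Subring.coe_add]
        ring)
    have h3 := dens A hXA T (by
      intro m
      show q * (φ ((Xr A hXA) ^ m) : S p) -
        c.sum (fun i a => a * dn i (((Xr A hXA) ^ m : RR A) : S p)) = 0
      rw [Xr_pow_coe, sub_eq_zero]
      exact hc m) f
    have h4 : q * (φ f : S p) - c.sum (fun i a => a * dn i (f : S p)) = 0 := h3
    exact sub_eq_zero.1 h4
  have h2 : q • (fun f : RR A => (φ f : S p)) = ∑ i ∈ c.support, c i • Dd A i := by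
    funext f
    rw [Finset.sum_apply]
    exact h1 f
  refine ⟨c.support.sup id + 1, ?_⟩
  have h3 : q • (Dl A hXA ^ (c.support.sup id + 1)) (fun f : RR A => (φ f : S p)) = 0 := by
    rw [← map_smul, h2, map_sum]
    refine Finset.sum_eq_zero fun i hi => ?_
    rw [map_smul, Dl_pow_Dd', smul_zero]
    have := Finset.le_sup (f := id) hi
    simp only [id] at this
    omega
  rw [dl_iter_coe] at h3
  refine DFunLike.ext _ _ fun f => Subtype.ext ?_
  have h4 := congrFun h3 f
  have h5 : q * (((dl A hXA)^[c.support.sup id + 1] φ) f : S p) = 0 := h4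
  exact (mul_eq_zero.1 h5).resolve_left hq

theorem leib (A : Subring (S p)) (hXA : X ∈ A) : ∀ (n k l : ℕ) (T U : AddMonoid.End (RR A)),
    k + l = n → (dl A hXA)^[k + 1] T = 0 → (dl A hXA)^[l + 1] U = 0 →
    (dl A hXA)^[n] (T * U) = (n.choose k) • ((dl A hXA)^[k] T * (dl A hXA)^[l] U) := by
  intro n
  induction n with
  | zero =>
    intro k l T U hkl _ _
    obtain ⟨rfl, rfl⟩ : k = 0 ∧ l = 0 := by omega
    simp
  | succ n ih =>
    intro k l T U hkl hT hU
    rw [Function.iterate_succ_apply, dl_mul, dl_iter_add]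
    rcases Nat.eq_zero_or_pos k with rfl | hk
    · have hT' : dl A hXA T = 0 := by simpa using hT
      rw [hT', zero_mul, dl_iter_zero, zero_add]
      obtain ⟨l', rfl⟩ : ∃ l', l = l' + 1 := ⟨n, by omega⟩
      have := ih 0 l' T (dl A hXA U) (by omega) hT (by
        rw [← Function.iterate_succ_apply]; exact hU)
      rw [this, ← Function.iterate_succ_apply]
      simp
    · rcases Nat.eq_zero_or_pos l with rfl | hl
      · have hU' : dl A hXA U = 0 := by simpa using hU
        rw [hU', mul_zero, dl_iter_zero, add_zero]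
        obtain ⟨k', rfl⟩ : ∃ k', k = k' + 1 := ⟨k - 1, by omega⟩
        have := ih k' 0 (dl A hXA T) U (by omega) (by
          rw [← Function.iterate_succ_apply]; exact hT) hU
        rw [this, ← Function.iterate_succ_apply]
        obtain rfl : n = k' := by omega
        simp
      · obtain ⟨k', rfl⟩ : ∃ k', k = k' + 1 := ⟨k - 1, by omega⟩
        obtain ⟨l', rfl⟩ : ∃ l', l = l' + 1 := ⟨l - 1, by omega⟩
        have e1 := ih k' (l' + 1) (dl A hXA T) U (by omega) (by
          rw [← Function.iterate_succ_apply]; exact hT) hU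
        have e2 := ih (k' + 1) l' T (dl A hXA U) (by omega) hT (by
          rw [← Function.iterate_succ_apply]; exact hU)
        rw [e1, e2, ← Function.iterate_succ_apply, ← Function.iterate_succ_apply, ← add_nsmul,
          Nat.choose_succ_succ']

theorem central (A : Subring (S p)) (hXA : X ∈ A) (T : AddMonoid.End (RR A))
    (hT : dl A hXA T = 0) (f : RR A) : T f = f * T 1 := by
  have hc : ∀ g : RR A, T (Xr A hXA * g) = Xr A hXA * T g := by
    intro g
    have h1 : dl A hXA T g = 0 := by rw [hT]; rfl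
    rw [dl_apply, sub_eq_zero] at h1
    exact h1.symm
  have hpow : ∀ m : ℕ, T ((Xr A hXA) ^ m) = (Xr A hXA) ^ m * T 1 := by
    intro m
    induction m with
    | zero => rw [pow_zero, one_mul]
    | succ m ih => rw [pow_succ', hc, ih, mul_assoc]
  let T' : RR A →+ S p := AddMonoidHom.mk' (fun f => ((T f - f * T 1 : RR A) : S p)) (by
    intro x y
    rw [← Subring.coe_add]
    congr 1
    rw [map_add]; ring)
  have h2 := dens A hXA T' (by
    intro m
    show ((T ((Xr A hXA) ^ m) - (Xr A hXA) ^ m * T 1 : RR A) : S p) = 0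
    rw [hpow, sub_self]
    rfl) f
  have h3 : ((T f - f * T 1 : RR A) : S p) = 0 := h2
  have h4 : (T f - f * T 1 : RR A) = 0 := Subtype.ext h3
  exact sub_eq_zero.1 h4

theorem exists_min (A : Subring (S p)) (hXA : X ∈ A) (T : AddMonoid.End (RR A)) (hT0 : T ≠ 0)
    (hT : ∃ n, (dl A hXA)^[n] T = 0) :
    ∃ k, (dl A hXA)^[k + 1] T = 0 ∧ (dl A hXA)^[k] T ≠ 0 := by
  classical
  have h1 := Nat.find_spec hT
  have h2 : Nat.find hT ≠ 0 := by
    intro h
    rw [h] at h1
    exact hT0 h1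
  obtain ⟨k, hk⟩ := Nat.exists_eq_succ_of_ne_zero h2
  refine ⟨k, ?_, ?_⟩
  · rw [hk] at h1; exact h1
  · exact Nat.find_min hT (m := k) (by omega)

theorem not_transitive (A : Subring (S p)) (hXA : X ∈ A)
    (hA : ∀ u : ℕ → S p, ¬ DO u → ∃ c : ℕ → ℤ_[p], W c ∈ A ∧ ¬ InR A (Th u c))
    (φ : RR A ≃+ RR A) (hφ : φ 1 = Xr A hXA) : False := by
  let a : AddMonoid.End (RR A) := φ.toAddMonoidHom
  let b : AddMonoid.End (RR A) := φ.symm.toAddMonoidHom
  have hab : a * b = 1 := by
    refine DFunLike.ext _ _ fun f => ?_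
    show φ (φ.symm f) = f
    rw [AddEquiv.apply_symm_apply]
  have hX0 : (Xr A hXA) ≠ 0 := by
    intro h
    have : (X : S p) = 0 := congrArg Subtype.val h
    exact PowerSeries.X_ne_zero this
  have hone0 : (1 : AddMonoid.End (RR A)) ≠ 0 := by
    intro h
    have h1 : (1 : AddMonoid.End (RR A)) (Xr A hXA) = 0 := by rw [h]; rfl
    exact hX0 h1
  have ha0 : a ≠ 0 := by
    intro h
    rw [h, zero_mul] at hab
    exact hone0 hab.symm
  have hb0 : b ≠ 0 := by
    intro h
    rw [h, mul_zero] at hab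
    exact hone0 hab.symm
  obtain ⟨k, hk1, hk2⟩ := exists_min A hXA a ha0 (nilp A hXA hA a)
  obtain ⟨l, hl1, hl2⟩ := exists_min A hXA b hb0 (nilp A hXA hA b)
  have hL := leib A hXA (k + l) k l a b rfl hk1 hl1
  rw [hab] at hL
  have hzero_of : ∀ T : AddMonoid.End (RR A), dl A hXA T = 0 → T 1 = 0 → T = 0 := by
    intro T hT h1
    refine DFunLike.ext _ _ fun f => ?_
    rw [central A hXA T hT, h1, mul_zero]
    rfl
  have hka : dl A hXA ((dl A hXA)^[k] a) = 0 := by
    have := Function.iterate_succ_apply' (dl A hXA) k a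
    rw [← this]; exact hk1
  have hlb : dl A hXA ((dl A hXA)^[l] b) = 0 := by
    have := Function.iterate_succ_apply' (dl A hXA) l b
    rw [← this]; exact hl1
  have hkl : k + l = 0 := by
    by_contra hne
    obtain ⟨n, hn⟩ := Nat.exists_eq_succ_of_ne_zero hne
    have h1 : (dl A hXA)^[k + l] (1 : AddMonoid.End (RR A)) = 0 := by
      rw [hn, Function.iterate_succ_apply, dl_one, dl_iter_zero]
    rw [h1] at hL
    have h2 := DFunLike.congr_fun hL 1
    have h3 : (0 : RR A) = ((k + l).choose k) •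
        (((dl A hXA)^[k] a) (((dl A hXA)^[l] b) 1)) := h2
    have h4 := RR_torsionfree A _ _ (Nat.choose_pos (Nat.le_add_right k l)).ne' h3.symm
    rw [central A hXA _ hka] at h4
    have h5 := congrArg Subtype.val h4
    have h6 : ((((dl A hXA)^[l] b) 1 : RR A) : S p) * ((((dl A hXA)^[k] a) 1 : RR A) : S p) = 0 :=
      h5
    rcases mul_eq_zero.1 h6 with h7 | h7
    · exact hl2 (hzero_of _ hlb (Subtype.ext h7))
    · exact hk2 (hzero_of _ hka (Subtype.ext h7))
  obtain ⟨rfl, rfl⟩ : k = 0 ∧ l = 0 := by omega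
  have h1 : dl A hXA a = 0 := hka
  have h2 : a (φ.symm 1) = φ.symm 1 * a 1 := central A hXA a h1 _
  have h3 : a (φ.symm 1) = 1 := AddEquiv.apply_symm_apply φ 1
  have h4 : a 1 = Xr A hXA := hφ
  rw [h3, h4] at h2
  have h5 := congrArg Subtype.val h2
  have h6 : (1 : S p) = ((φ.symm 1 : RR A) : S p) * X := h5
  have h7 := congrArg (constantCoeff (R := ℤ_[p])) h6
  rw [map_mul, constantCoeff_X, mul_zero, map_one] at h7
  exact one_ne_zero h7

end Pool.Agent.H219R3.FT
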