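import Mathlib

set_option autoImplicit false

/-!
Increasing bijections of the real line: supports, patching, lattice operations, swindle.
-/

namespace Pool.Agent.H219R3.HR

open scoped commutatorElement

abbrev P : Type := Equiv.Perm ℝ

theorem ais (f : P) (x : ℝ) : f (f⁻¹ x) = x := f.apply_symm_apply x

theorem sia (f : P) (x : ℝ) : f⁻¹ (f x) = x := f.symm_apply_apply x

theorem strictMono_inv {w : P} (h : StrictMono w) : StrictMono (w⁻¹ : P) := by
  intro x y hxy
  by_contra hc
  push Not at hc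
  have := h.monotone hc
  rw [ais, ais] at this
  exact absurd hxy (not_lt.2 this)

theorem strictMono_mul {v w : P} (hv : StrictMono v) (hw : StrictMono w) : StrictMono (v * w : P) :=
  hv.comp hw

theorem strictMono_one : StrictMono (1 : P) := strictMono_id

/-- the subgroup of the increasing bijections -/
def SM : Subgroup P where
  carrier := {w | StrictMono w}
  mul_mem' := fun ha hb => strictMono_mul ha hb
  one_mem' := strictMono_one
  inv_mem' := fun ha => strictMono_inv ha

theorem mem_SM {w : P} : w ∈ SM ↔ StrictMono w := Iff.rfl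

/-- increasing bijections supported in `D` -/
def GD (D : Set ℝ) : Subgroup P where
  carrier := {w | StrictMono w ∧ ∀ x, x ∉ D → w x = x}
  mul_mem' := by
    rintro a b ⟨ha, ha'⟩ ⟨hb, hb'⟩
    refine ⟨strictMono_mul ha hb, fun x hx => ?_⟩
    rw [Equiv.Perm.mul_apply, hb' x hx, ha' x hx]
  one_mem' := ⟨strictMono_one, fun x _ => rfl⟩
  inv_mem' := by
    rintro a ⟨ha, ha'⟩
    refine ⟨strictMono_inv ha, fun x hx => ?_⟩
    rw [Equiv.Perm.inv_eq_iff_eq, ha' x hx]

theorem mem_GD {D : Set ℝ} {w : P} : w ∈ GD D ↔ StrictMono w ∧ ∀ x, x ∉ D → w x = x := Iff.rfl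

theorem GD_mono {D D' : Set ℝ} (h : D ⊆ D') : GD D ≤ GD D' := by
  rintro w ⟨hw, hw'⟩
  exact ⟨hw, fun x hx => hw' x (fun h' => hx (h h'))⟩

theorem GD_le_SM (D : Set ℝ) : GD D ≤ SM := fun _ hw => hw.1

theorem GD_mem_iff {D : Set ℝ} {w : P} (hw : w ∈ GD D) (x : ℝ) : w x ∈ D ↔ x ∈ D := by
  constructor
  · intro h
    by_contra hx
    rw [hw.2 x hx] at h
    exact hx h
  · intro h
    by_contra hx
    have h2 := hw.2 _ hx
    have h3 := w.injective h2
    rw [h3] at hx
    exact hx h

theorem GD_pow_mem_iff {D : Set ℝ} {w : P} (hw : w ∈ GD D) (n : ℕ) (x : ℝ) :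
    (w ^ n) x ∈ D ↔ x ∈ D :=
  GD_mem_iff (pow_mem hw n) x

/-- patching a family of increasing bijections with pairwise disjoint supports -/
theorem exists_patch {ι : Type*} (D : ι → Set ℝ) (hD : ∀ i j, i ≠ j → Disjoint (D i) (D j))
    (w : ι → P) (hw : ∀ i, w i ∈ GD (D i)) :
    ∃ W : P, W ∈ GD (⋃ i, D i) ∧ ∀ i, ∀ x ∈ D i, W x = w i x := by
  classical
  have huniq : ∀ i j x, x ∈ D i → x ∈ D j → i = j := by
    intro i j x hi hj
    by_contra hij
    exact Set.disjoint_left.1 (hD i j hij) hi hj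
  -- the patch of a family
  let F : (ι → P) → ℝ → ℝ := fun v x => if h : ∃ i, x ∈ D i then v h.choose x else x
  have hF : ∀ (v : ι → P) i x, x ∈ D i → F v x = v i x := by
    intro v i x hx
    have h : ∃ i, x ∈ D i := ⟨i, hx⟩
    have h2 : h.choose = i := huniq _ _ x h.choose_spec hx
    simp only [F, dif_pos h, h2]
  have hF' : ∀ (v : ι → P) x, (∀ i, x ∉ D i) → F v x = x := by
    intro v x hx
    have h : ¬ ∃ i, x ∈ D i := by simpa using hx
    simp only [F, dif_neg h]
  have hinv : ∀ (v v' : ι → P), (∀ i, v i ∈ GD (D i)) → (∀ i, v' i * v i = 1) →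
      ∀ x, F v' (F v x) = x := by
    intro v v' hv hvv x
    by_cases h : ∃ i, x ∈ D i
    · obtain ⟨i, hi⟩ := h
      rw [hF v i x hi, hF v' i _ ((GD_mem_iff (hv i) x).2 hi), ← Equiv.Perm.mul_apply, hvv]
      rfl
    · push Not at h
      rw [hF' v x h, hF' v' x h]
  let W : P :=
    { toFun := F w
      invFun := F (fun i => (w i)⁻¹)
      left_inv := fun x => hinv w (fun i => (w i)⁻¹) hw (fun i => inv_mul_cancel (w i)) x
      right_inv := fun x => hinv (fun i => (w i)⁻¹) w (fun i => inv_mem (hw i)) (fun i => mul_inv_cancel (w i)) x }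
  have hW : ∀ x, W x = F w x := fun x => rfl
  refine ⟨W, ⟨?_, ?_⟩, fun i x hx => by rw [hW, hF w i x hx]⟩
  · -- monotonicity
    intro x y hxy
    rw [hW, hW]
    by_cases hx : ∃ i, x ∈ D i
    · obtain ⟨i, hi⟩ := hx
      rw [hF w i x hi]
      by_cases hy : y ∈ D i
      · rw [hF w i y hy]
        exact (hw i).1 hxy
      · have h1 : w i x < y := by
          have := (hw i).1 hxy
          rwa [(hw i).2 y hy] at this
        by_cases hy' : ∃ j, y ∈ D j
        · obtain ⟨j, hj⟩ := hy'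
          have hij : i ≠ j := by
            rintro rfl
            exact hy hj
          rw [hF w j y hj]
          have h2 := (hw j).1 h1
          rwa [(hw j).2 (w i x)] at h2
          intro hc
          exact hij (huniq _ _ _ ((GD_mem_iff (hw i) x).2 hi) hc)
        · push Not at hy'
          rw [hF' w y hy']
          exact h1
    · push Not at hx
      rw [hF' w x hx]
      by_cases hy' : ∃ j, y ∈ D j
      · obtain ⟨j, hj⟩ := hy'
        rw [hF w j y hj]
        have := (hw j).1 hxy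
        rwa [(hw j).2 x (hx j)] at this
      · push Not at hy'
        rw [hF' w y hy']
        exact hxy
  · intro x hx
    rw [hW]
    apply hF'
    intro i hi
    exact hx (Set.mem_iUnion.2 ⟨i, hi⟩)

/-- the supremum of two increasing bijections -/
theorem exists_sup (f g : P) (hf : StrictMono f) (hg : StrictMono g) :
    ∃ h : P, StrictMono h ∧ ∀ x, h x = max (f x) (g x) := by
  have hfi := strictMono_inv hf
  have hgi := strictMono_inv hg
  refine ⟨{ toFun := fun x => max (f x) (g x)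
            invFun := fun y => min ((f⁻¹ : P) y) ((g⁻¹ : P) y)
            left_inv := ?_
            right_inv := ?_ }, ?_, fun x => rfl⟩
  · intro x
    simp only
    rcases le_total (f x) (g x) with h | h
    · rw [max_eq_right h]
      have h1 : x ≤ (f⁻¹ : P) (g x) := by
        have := hfi.monotone h
        simpa using this
      simpa using h1
    · rw [max_eq_left h]
      have h1 : x ≤ (g⁻¹ : P) (f x) := by
        have := hgi.monotone h
        simpa using this
      simpa using h1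
  · intro y
    simp only
    rcases le_total ((f⁻¹ : P) y) ((g⁻¹ : P) y) with h | h
    · rw [min_eq_left h]
      have h1 : g ((f⁻¹ : P) y) ≤ y := by
        have := hg.monotone h
        simpa using this
      simpa using h1
    · rw [min_eq_right h]
      have h1 : f ((g⁻¹ : P) y) ≤ y := by
        have := hf.monotone h
        simpa using this
      simpa using h1
  · intro x y hxy
    exact max_lt_max (hf hxy) (hg hxy)

/-- the infimum of two increasing bijections -/
theorem exists_inf (f g : P) (hf : StrictMono f) (hg : StrictMono g) :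
    ∃ h : P, StrictMono h ∧ ∀ x, h x = min (f x) (g x) := by
  obtain ⟨h, hh, hx⟩ := exists_sup f⁻¹ g⁻¹ (strictMono_inv hf) (strictMono_inv hg)
  refine ⟨h⁻¹, strictMono_inv hh, fun x => ?_⟩
  rw [Equiv.Perm.inv_eq_iff_eq, hx]
  rcases le_total (f x) (g x) with h1 | h1
  · rw [min_eq_left h1]
    have h2 : (g⁻¹ : P) (f x) ≤ x := by
      have := (strictMono_inv hg).monotone h1
      rwa [sia] at this
    rw [sia, max_eq_left h2]
  · rw [min_eq_right h1]
    have h2 : (f⁻¹ : P) (g x) ≤ x := by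
      have := (strictMono_inv hf).monotone h1
      rwa [sia] at this
    rw [sia, max_eq_right h2]

/-- affine maps -/
theorem exists_affine (a b : ℝ) (ha : 0 < a) :
    ∃ h : P, StrictMono h ∧ ∀ x, h x = a * x + b := by
  refine ⟨{ toFun := fun x => a * x + b
            invFun := fun y => (y - b) / a
            left_inv := fun x => by field_simp; ring
            right_inv := fun x => by field_simp; ring }, ?_, fun x => rfl⟩
  intro x y hxy
  have : a * x < a * y := mul_lt_mul_of_pos_left hxy ha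
  simpa using this

/-- **swindle**: an element supported in a set displaced by `t` is a commutator with `t`. -/
theorem swindle (t : P) (D D' : Set ℝ) (hDD' : D ⊆ D') (ht : t ∈ GD D')
    (hdisj : ∀ i : ℕ, 0 < i → ∀ x ∈ D, (t ^ i) x ∉ D) (a : P) (ha : a ∈ GD D) :
    ∃ B ∈ GD D', a = ⁅B, t⁆ := by
  -- the disjoint sets
  let E : ℕ → Set ℝ := fun i => {y | (t ^ i)⁻¹ y ∈ D}
  have hE : ∀ i j, i ≠ j → Disjoint (E i) (E j) := by
    have key : ∀ i j, i < j → ∀ y, y ∈ E i → y ∉ E j := by
      intro i j hij y hi hj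
      have hi' : (t ^ i)⁻¹ y ∈ D := hi
      have hj' : (t ^ j)⁻¹ y ∈ D := hj
      have h1 := hdisj (j - i) (by omega) _ hj'
      apply h1
      have h2 : (t ^ (j - i)) ((t ^ j)⁻¹ y) = (t ^ i)⁻¹ y := by
        rw [← Equiv.Perm.mul_apply]
        congr 1
        have : t ^ j = t ^ i * t ^ (j - i) := by rw [← pow_add]; congr 1; omega
        rw [this, mul_inv_rev, ← mul_assoc, mul_inv_cancel, one_mul]
      rw [h2]
      exact hi'
    intro i j hij
    rw [Set.disjoint_left]
    intro y hi hj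
    rcases lt_or_gt_of_ne hij with h | h
    · exact key i j h y hi hj
    · exact key j i h y hj hi
  have hw : ∀ i, t ^ i * a * (t ^ i)⁻¹ ∈ GD (E i) := by
    intro i
    have htS : t ∈ SM := ht.1
    refine ⟨mem_SM.1 (mul_mem (mul_mem (pow_mem htS i) ha.1) (inv_mem (pow_mem htS i))), ?_⟩
    intro x hx
    have : (t ^ i)⁻¹ x ∉ D := hx
    rw [Equiv.Perm.mul_apply, Equiv.Perm.mul_apply, ha.2 _ this, ais]
  obtain ⟨B, hB, hBx⟩ := exists_patch E hE _ hw
  have hED : (⋃ i, E i) ⊆ D' := by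
    intro y hy
    obtain ⟨i, hi⟩ := Set.mem_iUnion.1 hy
    have h1 : (t ^ i)⁻¹ y ∈ D' := hDD' hi
    have h2 := (GD_mem_iff (inv_mem (pow_mem ht i)) y).1 h1
    exact h2
  refine ⟨B, GD_mono hED hB, ?_⟩
  rw [commutatorElement_def, eq_comm, mul_inv_eq_iff_eq_mul, mul_inv_eq_iff_eq_mul]
  ext x
  rw [Equiv.Perm.mul_apply, Equiv.Perm.mul_apply, Equiv.Perm.mul_apply]
  by_cases hx : ∃ i, x ∈ E i
  · obtain ⟨i, hi⟩ := hx
    have hi' : (t ^ i)⁻¹ x ∈ D := hi
    have h1 : (t ^ (i + 1))⁻¹ (t x) = (t ^ i)⁻¹ x := by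
      rw [pow_succ', mul_inv_rev, Equiv.Perm.mul_apply, sia]
    have h2 : t x ∈ E (i + 1) := by
      show (t ^ (i + 1))⁻¹ (t x) ∈ D
      rw [h1]; exact hi'
    rw [hBx (i + 1) _ h2, hBx i x hi]
    have h3 : (t ^ (i + 1) * a * (t ^ (i + 1))⁻¹) (t x) = t ((t ^ i * a * (t ^ i)⁻¹) x) := by
      rw [Equiv.Perm.mul_apply, Equiv.Perm.mul_apply, h1, pow_succ', Equiv.Perm.mul_apply,
        Equiv.Perm.mul_apply, Equiv.Perm.mul_apply]
    rw [h3, eq_comm]
    apply ha.2
    rw [← h3]
    have h4 : (t ^ (i + 1) * a * (t ^ (i + 1))⁻¹) (t x) ∈ E (i + 1) :=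
      (GD_mem_iff (hw (i + 1)) _).2 h2
    intro hc
    have h0 : (t ^ (i + 1) * a * (t ^ (i + 1))⁻¹) (t x) ∈ E 0 := by
      show (t ^ 0)⁻¹ _ ∈ D
      rw [pow_zero, inv_one]
      exact hc
    exact Set.disjoint_left.1 (hE (i + 1) 0 (by omega)) h4 h0
  · push Not at hx
    have hBx' : B x = x := hB.2 x (by simpa using hx)
    rw [hBx']
    by_cases hx0 : t x ∈ D
    · have : t x ∈ E 0 := by
        show (t ^ 0)⁻¹ _ ∈ D
        rw [pow_zero, inv_one]
        exact hx0
      rw [hBx 0 _ this, pow_zero, one_mul, inv_one, mul_one]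
    · rw [ha.2 _ hx0]
      apply hB.2
      intro hc
      obtain ⟨i, hi⟩ := Set.mem_iUnion.1 hc
      rcases Nat.eq_zero_or_pos i with rfl | hpos
      · apply hx0
        have : (t ^ 0)⁻¹ (t x) ∈ D := hi
        simpa using this
      · obtain ⟨j, rfl⟩ : ∃ j, i = j + 1 := ⟨i - 1, by omega⟩
        apply hx j
        have : (t ^ (j + 1))⁻¹ (t x) ∈ D := hi
        show (t ^ j)⁻¹ x ∈ D
        rw [pow_succ', mul_inv_rev, Equiv.Perm.mul_apply, sia] at this
        exact this

/-- localization of a commutator -/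
theorem loc (A B b c : P) (D : Set ℝ) (hA : ∀ x, A x ∈ D ↔ x ∈ D) (hB : ∀ x, B x ∈ D ↔ x ∈ D)
    (hb : ∀ x ∈ D, b x = A x) (hc : ∀ x ∈ D, c x = B x)
    (hb' : ∀ x, x ∉ D → b x = x) (hc' : ∀ x, x ∉ D → c x = x)
    (h : ∀ x, x ∉ D → A x = x ∨ B x = x) : ⁅A, B⁆ = ⁅b, c⁆ := by
  have hAi : ∀ x, A⁻¹ x ∈ D ↔ x ∈ D := by
    intro x
    rw [← hA (A⁻¹ x), ais]
  have hBi : ∀ x, B⁻¹ x ∈ D ↔ x ∈ D := by
    intro x
    rw [← hB (B⁻¹ x), ais]
  have hbi : ∀ x ∈ D, b⁻¹ x = A⁻¹ x := by
    intro x hx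
    rw [Equiv.Perm.inv_eq_iff_eq, hb _ ((hAi x).2 hx), ais]
  have hci : ∀ x ∈ D, c⁻¹ x = B⁻¹ x := by
    intro x hx
    rw [Equiv.Perm.inv_eq_iff_eq, hc _ ((hBi x).2 hx), ais]
  have hbi' : ∀ x, x ∉ D → b⁻¹ x = x := by
    intro x hx
    rw [Equiv.Perm.inv_eq_iff_eq, hb' x hx]
  have hci' : ∀ x, x ∉ D → c⁻¹ x = x := by
    intro x hx
    rw [Equiv.Perm.inv_eq_iff_eq, hc' x hx]
  ext x
  simp only [commutatorElement_def, Equiv.Perm.mul_apply]
  by_cases hx : x ∈ D
  · have h1 := (hBi x).2 hx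
    have h2 := (hAi _).2 h1
    have h3 := (hB _).2 h2
    rw [hci x hx, hbi _ h1, hc _ h2, hb _ h3]
  · have h1 : B⁻¹ x ∉ D := fun h' => hx ((hBi x).1 h')
    rw [hci' x hx, hbi' x hx, hc' x hx, hb' x hx]
    -- now show A B A⁻¹ B⁻¹ x = x
    by_cases hBx : B x = x
    · have e1 : B⁻¹ x = x := by rw [Equiv.Perm.inv_eq_iff_eq, hBx]
      rw [e1]
      have hz : A⁻¹ x ∉ D := fun h' => hx ((hAi x).1 h')
      rcases h _ hz with h2 | h2
      · rw [ais] at h2
        rw [← h2, hBx]
        have : A x = x := by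
          conv_lhs => rw [h2]
          rw [ais]
        exact this
      · rw [h2, ais]
    · have hAx : A x = x := (h x hx).resolve_right hBx
      rcases h _ h1 with h2 | h2
      · have e1 : A⁻¹ (B⁻¹ x) = B⁻¹ x := by rw [Equiv.Perm.inv_eq_iff_eq, h2]
        rw [e1, ais, hAx]
      · rw [ais] at h2
        exfalso
        apply hBx
        conv_lhs => rw [h2]
        rw [ais]

end Pool.Agent.H219R3.HR
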