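import Pool.Agent.H219R3.HRBase

set_option autoImplicit false

/-!
Periodic bumps.
-/

namespace Pool.Agent.H219R3.HR

open scoped commutatorElement

/-- the union of the open intervals `(L k + p, L k + q)` -/
def Per (L p q : ℤ) : Set ℝ := {x | ∃ k : ℤ, (L : ℝ) * k + p < x ∧ x < (L : ℝ) * k + q}

/-- a single bump on `(p, q)` -/
theorem exists_bump1 (p q : ℝ) (h2 : 2 ≤ q - p) :
    ∃ E : P, E ∈ GD (Set.Ioo p q) ∧ (∀ x, x ≤ E x) ∧
      (∀ x, p + 1 ≤ x → x < q → q - 1 < E x) ∧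
      (∀ x, p + 1 ≤ x → x ≤ q - 2 → x + 1 ≤ E x) := by
  set l := q - p with hl
  have hlpos : 0 < l := by linarith
  obtain ⟨f1, hf1, hf1x⟩ := exists_affine l (p - l * p) hlpos
  obtain ⟨f2, hf2, hf2x⟩ := exists_affine (1 / l) (q - q / l) (by positivity)
  obtain ⟨f3, hf3, hf3x⟩ := exists_inf f1 f2 hf1 hf2
  obtain ⟨E, hE, hEx⟩ := exists_sup 1 f3 strictMono_one hf3
  have e2 : ∀ x, f2 x = q - (q - x) / l := by
    intro x; rw [hf2x]; field_simp; ring
  have e1 : ∀ x, f1 x = p + l * (x - p) := by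
    intro x; rw [hf1x]; ring
  have eE : ∀ x, E x = max x (min (p + l * (x - p)) (q - (q - x) / l)) := by
    intro x; rw [hEx, hf3x, e1, e2]; rfl
  have hdiv : ∀ x, x < q → (q - x) / l < q - x := by
    intro x hx
    rw [div_lt_iff₀ hlpos]
    nlinarith
  refine ⟨E, ⟨hE, ?_⟩, ?_, ?_, ?_⟩
  · intro x hx
    rw [eE, max_eq_left]
    rw [Set.mem_Ioo, not_and_or, not_lt, not_lt] at hx
    rcases hx with hx | hx
    · refine (min_le_left _ _).trans ?_
      nlinarith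
    · refine (min_le_right _ _).trans ?_
      have : q - x ≤ (q - x) / l := by
        rw [le_div_iff₀ hlpos]
        nlinarith
      linarith
  · intro x
    rw [eE]; exact le_max_left _ _
  · intro x hx1 hx2
    rw [eE, lt_max_iff, lt_min_iff]
    right
    constructor
    · nlinarith
    · have : (q - x) / l < 1 := by
        rw [div_lt_one hlpos]
        linarith
      linarith
  · intro x hx1 hx2
    rw [eE, le_max_iff, le_min_iff]
    right
    constructor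
    · nlinarith
    · have : (q - x) / l ≤ (q - x) / 2 := by
        apply div_le_div_of_nonneg_left <;> linarith
      linarith

theorem exists_trans (c : ℝ) : ∃ h : P, StrictMono h ∧ ∀ x, h x = x + c := by
  obtain ⟨h, hh, hx⟩ := exists_affine 1 c one_pos
  exact ⟨h, hh, fun x => by rw [hx, one_mul]⟩

/-- the periodic bump -/
theorem exists_bump (L p q : ℤ) (h2 : 2 ≤ q - p) (hL : q - p ≤ L) :
    ∃ E : P, E ∈ GD (Per L p q) ∧ (∀ x, x ≤ E x) ∧
      (∀ (k : ℤ) (x : ℝ), (L : ℝ) * k + p + 1 ≤ x → x < L * k + q →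
        (L : ℝ) * k + q - 1 < E x ∧ E x < L * k + q) ∧
      (∀ (k : ℤ) (x : ℝ), (L : ℝ) * k + p + 1 ≤ x → x ≤ L * k + q - 2 → x + 1 ≤ E x) := by
  have h2r : (2 : ℝ) ≤ q - p := by exact_mod_cast h2
  have hLr : (q : ℝ) - p ≤ L := by exact_mod_cast hL
  have hb : ∀ k : ℤ, ∃ E : P, E ∈ GD (Set.Ioo ((L : ℝ) * k + p) (L * k + q)) ∧ (∀ x, x ≤ E x) ∧
      (∀ x, (L : ℝ) * k + p + 1 ≤ x → x < (L : ℝ) * k + q → (L : ℝ) * k + q - 1 < E x) ∧
      (∀ x, (L : ℝ) * k + p + 1 ≤ x → x ≤ (L : ℝ) * k + q - 2 → x + 1 ≤ E x) := by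
    intro k
    exact exists_bump1 _ _ (by linarith)
  choose E hE1 hE2 hE3 hE4 using hb
  have hdis : ∀ i j : ℤ, i ≠ j → Disjoint (Set.Ioo ((L : ℝ) * i + p) (L * i + q))
      (Set.Ioo ((L : ℝ) * j + p) (L * j + q)) := by
    have key : ∀ i j : ℤ, i < j → Disjoint (Set.Ioo ((L : ℝ) * i + p) (L * i + q))
      (Set.Ioo ((L : ℝ) * j + p) (L * j + q)) := by
      intro i j hij
      rw [Set.disjoint_left]
      rintro x ⟨-, h1⟩ ⟨h3, -⟩
      have h4 : (i : ℝ) + 1 ≤ j := by exact_mod_cast hij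
      nlinarith
    intro i j hij
    rcases lt_or_gt_of_ne hij with h | h
    · exact key i j h
    · exact (key j i h).symm
  obtain ⟨W, hW, hWx⟩ := exists_patch _ hdis E hE1
  have hU : (⋃ k : ℤ, Set.Ioo ((L : ℝ) * k + p) (L * k + q)) = Per L p q := by
    ext x
    simp only [Set.mem_iUnion, Set.mem_Ioo, Per, Set.mem_ofPred_eq]
  rw [hU] at hW
  refine ⟨W, hW, ?_, ?_, ?_⟩
  · intro x
    by_cases hx : x ∈ Per L p q
    · obtain ⟨k, hk⟩ := hx
      rw [hWx k x hk]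
      exact hE2 k x
    · rw [hW.2 x hx]
  · intro k x h1 h3
    have hx : x ∈ Set.Ioo ((L : ℝ) * k + p) (L * k + q) := ⟨by linarith, h3⟩
    rw [hWx k x hx]
    exact ⟨hE3 k x h1 h3, ((GD_mem_iff (hE1 k) x).2 hx).2⟩
  · intro k x h1 h3
    have hx : x ∈ Set.Ioo ((L : ℝ) * k + p) (L * k + q) := ⟨by linarith, by linarith⟩
    rw [hWx k x hx]
    exact hE4 k x h1 h3

/-- the powers of the bump displace the inner interval into the last unit interval -/
theorem bump_displace (L p q : ℤ) (h2 : 2 ≤ q - p) (E : P)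
    (hE : ∀ (k : ℤ) (x : ℝ), (L : ℝ) * k + p + 1 ≤ x → x < L * k + q →
        (L : ℝ) * k + q - 1 < E x ∧ E x < L * k + q) (i : ℕ) (hi : 0 < i) (x : ℝ)
    (hx : x ∈ Per L (p + 1) (q - 1)) : (E ^ i) x ∈ Per L (q - 1) q := by
  obtain ⟨k, hk1, hk2⟩ := hx
  have h2r : (2 : ℝ) ≤ q - p := by exact_mod_cast h2
  push_cast at hk1 hk2
  have key : ∀ j : ℕ, (L : ℝ) * k + q - 1 < (E ^ (j + 1)) x ∧ (E ^ (j + 1)) x < L * k + q := by
    intro j
    induction j with
    | zero =>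
      rw [zero_add, pow_one]
      exact hE k x (by linarith) (by linarith)
    | succ j ih =>
      rw [pow_succ', Equiv.Perm.mul_apply]
      exact hE k _ (by linarith) ih.2
  obtain ⟨j, rfl⟩ : ∃ j, i = j + 1 := ⟨i - 1, by omega⟩
  refine ⟨k, ?_, (key j).2⟩
  rw [Int.cast_sub, Int.cast_one]
  linarith [(key j).1]

theorem Per_disjoint_end (L p q : ℤ) (hL : q - p ≤ L) (x : ℝ)
    (hx : x ∈ Per L (p + 1) (q - 1)) : x ∉ Per L (q - 1) q := by
  rintro ⟨j, hj1, hj2⟩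
  obtain ⟨k, hk1, hk2⟩ := hx
  push_cast at *
  have hLr : (q : ℝ) - p ≤ L := by exact_mod_cast hL
  rcases lt_trichotomy j k with h | h | h
  · have : (j : ℝ) + 1 ≤ k := by exact_mod_cast h
    by_cases hL0 : (0 : ℝ) ≤ L
    · nlinarith
    · nlinarith
  · subst h; linarith
  · have : (k : ℝ) + 1 ≤ j := by exact_mod_cast h
    by_cases hL0 : (0 : ℝ) ≤ L
    · nlinarith
    · push Not at hL0
      nlinarith

end Pool.Agent.H219R3.HR
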