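import Pool.Agent.H219R3.HRBump

set_option autoImplicit false

/-!
Coding countably many elements by two elements.
-/

namespace Pool.Agent.H219R3.HR

open scoped commutatorElement

/-- the patch of `s ^ (e n) u_n s ^ (- e n)` -/
theorem exists_copies (s : P) (D Z : Set ℝ) (hs : StrictMono s)
    (hZ : ∀ i : ℕ, 0 < i → ∀ x ∈ D, (s ^ i) x ∈ Z) (hDZ : ∀ x ∈ D, x ∉ Z)
    (e : ℕ → ℕ) (he : Function.Injective e) (he0 : ∀ n, 0 < e n)
    (u : ℕ → P) (hu : ∀ n, u n ∈ GD D) :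
    ∃ A : P, A ∈ GD Z ∧ (∀ n, ∀ x ∈ D, A ((s ^ e n) x) = (s ^ e n) (u n x)) ∧
      (∀ y, A y ≠ y → ∃ n, (s ^ e n)⁻¹ y ∈ D) := by
  have hsS : s ∈ SM := hs
  let E : ℕ → Set ℝ := fun n => {y | (s ^ e n)⁻¹ y ∈ D}
  have key : ∀ i j, e i < e j → ∀ y, y ∈ E i → y ∉ E j := by
    intro i j hij y hi hj
    have hi' : (s ^ e i)⁻¹ y ∈ D := hi
    have hj' : (s ^ e j)⁻¹ y ∈ D := hj
    have h1 := hZ (e j - e i) (by omega) _ hj'
    apply hDZ _ hi'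
    have h2 : (s ^ (e j - e i)) ((s ^ e j)⁻¹ y) = (s ^ e i)⁻¹ y := by
      rw [← Equiv.Perm.mul_apply]
      congr 1
      have : s ^ e j = s ^ e i * s ^ (e j - e i) := by rw [← pow_add]; congr 1; omega
      rw [this, mul_inv_rev, ← mul_assoc, mul_inv_cancel, one_mul]
    rw [h2] at h1
    exact h1
  have hE : ∀ i j, i ≠ j → Disjoint (E i) (E j) := by
    intro i j hij
    rw [Set.disjoint_left]
    intro y hi hj
    rcases lt_or_gt_of_ne (fun h => hij (he h) : e i ≠ e j) with h | h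
    · exact key i j h y hi hj
    · exact key j i h y hj hi
  have hw : ∀ n, s ^ e n * u n * (s ^ e n)⁻¹ ∈ GD (E n) := by
    intro n
    refine ⟨mem_SM.1 (mul_mem (mul_mem (pow_mem hsS _) (hu n).1) (inv_mem (pow_mem hsS _))), ?_⟩
    intro x hx
    have : (s ^ e n)⁻¹ x ∉ D := hx
    rw [Equiv.Perm.mul_apply, Equiv.Perm.mul_apply, (hu n).2 _ this, ais]
  obtain ⟨A, hA, hAx⟩ := exists_patch E hE _ hw
  refine ⟨A, GD_mono ?_ hA, ?_, ?_⟩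
  · intro y hy
    obtain ⟨n, hn⟩ := Set.mem_iUnion.1 hy
    have hn' : (s ^ e n)⁻¹ y ∈ D := hn
    have := hZ (e n) (he0 n) _ hn'
    rwa [ais] at this
  · intro n x hx
    have h1 : (s ^ e n) x ∈ E n := by
      show (s ^ e n)⁻¹ ((s ^ e n) x) ∈ D
      rw [sia]; exact hx
    rw [hAx n _ h1, Equiv.Perm.mul_apply, Equiv.Perm.mul_apply, sia]
  · intro y hy
    by_contra hc
    apply hy
    apply hA.2
    intro h
    obtain ⟨n, hn⟩ := Set.mem_iUnion.1 h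
    exact hc ⟨n, hn⟩

/-- arithmetic: `3 ^ m + 3 ^ n = 2 * 3 ^ k` forces equality -/
theorem pow_sidon (m n k : ℕ) (h : 3 ^ m + 3 ^ n = 2 * 3 ^ k) : m = n := by
  have key : ∀ m n k : ℕ, m < n → 3 ^ m + 3 ^ n ≠ 2 * 3 ^ k := by
    intro m n k hmn h
    rcases lt_or_ge k n with hk | hk
    · have h1 : 3 ^ (k + 1) ≤ 3 ^ n := Nat.pow_le_pow_right (by norm_num) hk
      have h2 : 3 ^ (k + 1) = 3 * 3 ^ k := by ring
      have h3 : 0 < 3 ^ k := by positivity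
      have h4 : 0 < 3 ^ m := by positivity
      omega
    · have h1 : 3 ^ n ≤ 3 ^ k := Nat.pow_le_pow_right (by norm_num) hk
      have h2 : 3 ^ m < 3 ^ n := Nat.pow_lt_pow_right (by norm_num) hmn
      omega
  rcases lt_trichotomy m n with h1 | h1 | h1
  · exact absurd h (key m n k h1)
  · exact h1
  · rw [add_comm] at h
    exact absurd h (key n m k h1)

/-- the isolation of one commutator -/
theorem isolate (s : P) (D Z : Set ℝ)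
    (hZ : ∀ i : ℕ, 0 < i → ∀ x ∈ D, (s ^ i) x ∈ Z) (hDZ : ∀ x ∈ D, x ∉ Z)
    (b c : ℕ → P) (hb : ∀ n, b n ∈ GD D) (hc : ∀ n, c n ∈ GD D) (A B : P)
    (hA : ∀ n, ∀ x ∈ D, A ((s ^ 3 ^ n) x) = (s ^ 3 ^ n) (b n x))
    (hA' : ∀ y, A y ≠ y → ∃ n, (s ^ 3 ^ n)⁻¹ y ∈ D)
    (hB : ∀ n, ∀ x ∈ D, B ((s ^ (2 * 3 ^ n)) x) = (s ^ (2 * 3 ^ n)) (c n x))
    (hB' : ∀ y, B y ≠ y → ∃ n, (s ^ (2 * 3 ^ n))⁻¹ y ∈ D) (n : ℕ) :
    ⁅(s ^ 3 ^ n)⁻¹ * A * s ^ 3 ^ n, (s ^ (2 * 3 ^ n))⁻¹ * B * s ^ (2 * 3 ^ n)⁆ = ⁅b n, c n⁆ := by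
  have hdis : ∀ i j : ℕ, ∀ x ∈ D, ∀ y ∈ D, (s ^ i) x = (s ^ j) y → i = j := by
    have key : ∀ i j : ℕ, i < j → ∀ x ∈ D, ∀ y ∈ D, (s ^ i) x ≠ (s ^ j) y := by
      intro i j hij x hx y hy h
      have h1 : s ^ j = s ^ i * s ^ (j - i) := by rw [← pow_add]; congr 1; omega
      rw [h1, Equiv.Perm.mul_apply] at h
      have h2 := (s ^ i).injective h
      have h3 := hZ (j - i) (by omega) y hy
      rw [← h2] at h3
      exact hDZ x hx h3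
    intro i j x hx y hy h
    rcases lt_trichotomy i j with h1 | h1 | h1
    · exact absurd h (key i j h1 x hx y hy)
    · exact h1
    · exact absurd h.symm (key j i h1 y hy x hx)
  have eA : ∀ x ∈ D, ((s ^ 3 ^ n)⁻¹ * A * s ^ 3 ^ n) x = b n x := by
    intro x hx
    rw [Equiv.Perm.mul_apply, Equiv.Perm.mul_apply, hA n x hx, sia]
  have eB : ∀ x ∈ D, ((s ^ (2 * 3 ^ n))⁻¹ * B * s ^ (2 * 3 ^ n)) x = c n x := by
    intro x hx
    rw [Equiv.Perm.mul_apply, Equiv.Perm.mul_apply, hB n x hx, sia]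
  have iff_of : ∀ (W b : P), b ∈ GD D → (∀ x ∈ D, W x = b x) → ∀ x, W x ∈ D ↔ x ∈ D := by
    intro W b hb hW x
    constructor
    · intro h
      have h1 : b⁻¹ (W x) ∈ D := (GD_mem_iff (inv_mem hb) _).2 h
      have h2 := hW _ h1
      rw [ais] at h2
      have h3 := W.injective h2
      rw [← h3]; exact h1
    · intro h
      rw [hW x h]
      exact (GD_mem_iff hb x).2 h
  refine loc _ _ _ _ D (iff_of _ _ (hb n) eA) (iff_of _ _ (hc n) eB)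
    (fun x hx => (eA x hx).symm) (fun x hx => (eB x hx).symm) (hb n).2 (hc n).2 ?_
  intro x hx
  by_contra hcon
  push Not at hcon
  obtain ⟨h1, h2⟩ := hcon
  have h1' : A ((s ^ 3 ^ n) x) ≠ (s ^ 3 ^ n) x := by
    intro h
    apply h1
    rw [Equiv.Perm.mul_apply, Equiv.Perm.mul_apply, h, sia]
  have h2' : B ((s ^ (2 * 3 ^ n)) x) ≠ (s ^ (2 * 3 ^ n)) x := by
    intro h
    apply h2
    rw [Equiv.Perm.mul_apply, Equiv.Perm.mul_apply, h, sia]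
  obtain ⟨m, hm⟩ := hA' _ h1'
  obtain ⟨k, hk⟩ := hB' _ h2'
  set y := (s ^ 3 ^ m)⁻¹ ((s ^ 3 ^ n) x) with hy
  set z := (s ^ (2 * 3 ^ k))⁻¹ ((s ^ (2 * 3 ^ n)) x) with hz
  -- x = s^(3^m - 3^n) y = s^(2 3^k - 2 3^n) z
  have e1 : (s ^ 3 ^ m) y = (s ^ 3 ^ n) x := by rw [hy, ais]
  have e2 : (s ^ (2 * 3 ^ k)) z = (s ^ (2 * 3 ^ n)) x := by rw [hz, ais]
  have e3 : (s ^ (3 ^ n + 3 ^ m)) y = (s ^ (2 * 3 ^ k)) z := by
    rw [e2, pow_add, Equiv.Perm.mul_apply, e1, ← Equiv.Perm.mul_apply, ← pow_add]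
    congr 2
    ring
  have e4 := hdis _ _ y hm z hk e3
  have e5 := pow_sidon n m k e4
  apply hx
  have : y = x := by
    rw [hy, ← e5, sia]
  rw [← this]
  exact hm

theorem iff_of (D : Set ℝ) (W b : P) (hb : b ∈ GD D) (hW : ∀ x ∈ D, W x = b x) (x : ℝ) :
    W x ∈ D ↔ x ∈ D := by
  constructor
  · intro h
    have h1 : b⁻¹ (W x) ∈ D := (GD_mem_iff (inv_mem hb) _).2 h
    have h2 := hW _ h1
    rw [ais] at h2
    have h3 := W.injective h2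
    rw [← h3]; exact h1
  · intro h
    rw [hW x h]
    exact (GD_mem_iff hb x).2 h

theorem Tpow (T : P) (hT : ∀ x, T x = x + 1) (n : ℕ) (x : ℝ) : (T ^ n) x = x + n := by
  induction n generalizing x with
  | zero => simp
  | succ n ih =>
    rw [pow_succ', Equiv.Perm.mul_apply, ih, hT]
    push_cast; ring

theorem Tpow_inv (T : P) (hT : ∀ x, T x = x + 1) (n : ℕ) (x : ℝ) : (T ^ n)⁻¹ x = x - n := by
  rw [Equiv.Perm.inv_eq_iff_eq, Tpow T hT]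
  ring

theorem mem_Per_shift (L p q n : ℤ) (x : ℝ) : x + n ∈ Per L (p + n) (q + n) ↔ x ∈ Per L p q := by
  constructor
  · rintro ⟨k, h1, h2⟩
    refine ⟨k, ?_, ?_⟩ <;> push_cast at * <;> linarith
  · rintro ⟨k, h1, h2⟩
    refine ⟨k, ?_, ?_⟩ <;> push_cast at * <;> linarith

theorem shift_GD (T : P) (hT : ∀ x, T x = x + 1) (n : ℕ) (L p q : ℤ) (w : P)
    (hw : w ∈ GD (Per L p q)) : T ^ n * w * (T ^ n)⁻¹ ∈ GD (Per L (p + n) (q + n)) := by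
  have hTS : T ∈ SM := by
    intro x y hxy
    rw [hT, hT]; linarith
  refine ⟨mem_SM.1 (mul_mem (mul_mem (pow_mem hTS _) hw.1) (inv_mem (pow_mem hTS _))), ?_⟩
  intro x hx
  have h1 : (T ^ n)⁻¹ x ∉ Per L p q := by
    rw [Tpow_inv T hT, ← mem_Per_shift L p q n]
    push_cast
    simpa using hx
  rw [Equiv.Perm.mul_apply, Equiv.Perm.mul_apply, hw.2 _ h1, ais]

theorem per_two {L p q p' q' : ℤ} {x : ℝ} (h : x ∈ Per L p q) (h' : x ∈ Per L p' q') :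
    ∃ k k' : ℤ, L * k + p < L * k' + q' ∧ L * k' + p' < L * k + q := by
  obtain ⟨k, h1, h2⟩ := h
  obtain ⟨k', h3, h4⟩ := h'
  refine ⟨k, k', ?_, ?_⟩
  · have := h1.trans h4
    exact_mod_cast this
  · have := h3.trans h2
    exact_mod_cast this

theorem shift_comm (T g A1 A2 : P) (hT : ∀ x, T x = x + 1) (n m : ℕ) (Z : Set ℝ)
    (hA1 : A1 ∈ GD Z) (hA2 : A2 ∈ GD Z)
    (h1 : ∀ x ∈ Z, g (x + n) = A1 x + n) (h2 : ∀ x ∈ Z, g (x + m) = A2 x + m)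
    (hsep : ∀ x, x ∉ Z → g (x + n) = x + n ∨ g (x + m) = x + m) :
    ⁅(T ^ n)⁻¹ * g * T ^ n, (T ^ m)⁻¹ * g * T ^ m⁆ = ⁅A1, A2⁆ := by
  have e : ∀ (k : ℕ) x, ((T ^ k)⁻¹ * g * T ^ k) x = g (x + k) - k := by
    intro k x
    rw [Equiv.Perm.mul_apply, Equiv.Perm.mul_apply, Tpow_inv T hT, Tpow T hT]
  have e1 : ∀ x ∈ Z, ((T ^ n)⁻¹ * g * T ^ n) x = A1 x := by
    intro x hx; rw [e, h1 x hx]; ring
  have e2 : ∀ x ∈ Z, ((T ^ m)⁻¹ * g * T ^ m) x = A2 x := by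
    intro x hx; rw [e, h2 x hx]; ring
  refine loc _ _ _ _ Z (iff_of Z _ _ hA1 e1) (iff_of Z _ _ hA2 e2)
    (fun x hx => (e1 x hx).symm) (fun x hx => (e2 x hx).symm) hA1.2 hA2.2 ?_
  intro x hx
  rw [e, e]
  rcases hsep x hx with h | h
  · left; rw [h]; ring
  · right; rw [h]; ring

theorem pow_eq_on (g s : P) (D : Set ℝ) (hs : s ∈ GD D) (h : ∀ x ∈ D, g x = s x) (n : ℕ) :
    ∀ x ∈ D, (g ^ n) x = (s ^ n) x := by
  induction n with
  | zero => intro x _; rfl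
  | succ n ih =>
    intro x hx
    rw [pow_succ', pow_succ', Equiv.Perm.mul_apply, Equiv.Perm.mul_apply, ih x hx]
    exact h _ ((GD_pow_mem_iff hs n x).2 hx)

theorem conj_eq (g s A : P) (D : Set ℝ) (hs : s ∈ GD D) (h : ∀ x ∈ D, g x = s x)
    (hA : A ∈ GD D) (n : ℕ) : (g ^ n)⁻¹ * A * g ^ n = (s ^ n)⁻¹ * A * s ^ n := by
  have h1 := pow_eq_on g s D hs h n
  have hsn := pow_mem hs n
  have h2 : ∀ x, (g ^ n) x ∈ D ↔ x ∈ D := iff_of D _ _ hsn h1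
  ext x
  rw [Equiv.Perm.mul_apply, Equiv.Perm.mul_apply, Equiv.Perm.mul_apply, Equiv.Perm.mul_apply]
  by_cases hx : x ∈ D
  · rw [h1 x hx, Equiv.Perm.inv_eq_iff_eq, h1, ais]
    refine (GD_mem_iff (inv_mem hsn) _).2 ((GD_mem_iff hA _).2 ?_)
    exact (GD_mem_iff hsn x).2 hx
  · have h3 : (g ^ n) x ∉ D := fun h' => hx ((h2 x).1 h')
    rw [hA.2 _ h3, sia, hsn.2 x hx, hA.2 x hx, (inv_mem hsn).2 x hx]

end Pool.Agent.H219R3.HR
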