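import Pool.Agent.H219R3.HRGen

set_option autoImplicit false

/-!
A conjugacy making countably many increasing bijections of bounded displacement.
-/

namespace Pool.Agent.H219R3.HR

open scoped commutatorElement

/-- the fast growing sequence -/
noncomputable def mseq (r : ℕ → P) : ℕ → ℝ
  | 0 => 0
  | k + 1 => mseq r k + 1 + ∑ i ∈ Finset.range (k + 1),
      (|r i (mseq r k)| + |(r i)⁻¹ (mseq r k)| + |r i (-mseq r k)| + |(r i)⁻¹ (-mseq r k)|)

theorem mseq_nonneg (r : ℕ → P) (k : ℕ) : 0 ≤ mseq r k := by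
  induction k with
  | zero => simp [mseq]
  | succ k ih =>
    rw [mseq]
    have : 0 ≤ ∑ i ∈ Finset.range (k + 1),
      (|r i (mseq r k)| + |(r i)⁻¹ (mseq r k)| + |r i (-mseq r k)| + |(r i)⁻¹ (-mseq r k)|) :=
      Finset.sum_nonneg (fun i _ => by positivity)
    linarith

theorem mseq_succ (r : ℕ → P) (k : ℕ) : mseq r k + 1 ≤ mseq r (k + 1) := by
  rw [mseq]
  have : 0 ≤ ∑ i ∈ Finset.range (k + 1),
    (|r i (mseq r k)| + |(r i)⁻¹ (mseq r k)| + |r i (-mseq r k)| + |(r i)⁻¹ (-mseq r k)|) :=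
    Finset.sum_nonneg (fun i _ => by positivity)
  linarith

theorem mseq_mono (r : ℕ → P) : StrictMono (mseq r) :=
  strictMono_nat_of_lt_succ (fun k => by linarith [mseq_succ r k])

theorem mseq_ge (r : ℕ → P) (k : ℕ) : (k : ℝ) ≤ mseq r k := by
  induction k with
  | zero => simp [mseq]
  | succ k ih =>
    push_cast
    linarith [mseq_succ r k]

theorem mseq_bound (r : ℕ → P) (k i : ℕ) (hi : i ≤ k) :
    |r i (mseq r k)| + |(r i)⁻¹ (mseq r k)| + |r i (-mseq r k)| + |(r i)⁻¹ (-mseq r k)|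
      ≤ mseq r (k + 1) := by
  rw [mseq]
  have h1 : (|r i (mseq r k)| + |(r i)⁻¹ (mseq r k)| + |r i (-mseq r k)| +
      |(r i)⁻¹ (-mseq r k)|) ≤ ∑ i ∈ Finset.range (k + 1),
    (|r i (mseq r k)| + |(r i)⁻¹ (mseq r k)| + |r i (-mseq r k)| + |(r i)⁻¹ (-mseq r k)|) :=
    Finset.single_le_sum (f := fun i => |r i (mseq r k)| + |(r i)⁻¹ (mseq r k)| +
      |r i (-mseq r k)| + |(r i)⁻¹ (-mseq r k)|) (fun i _ => by positivity)
      (Finset.mem_range.2 (by omega))
  have := mseq_nonneg r k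
  linarith

/-- the two sided sequence -/
noncomputable def Mz (r : ℕ → P) (j : ℤ) : ℝ := if 0 ≤ j then mseq r j.toNat else -mseq r (-j).toNat

theorem Mz_nat (r : ℕ → P) (n : ℕ) : Mz r n = mseq r n := by
  simp [Mz]

theorem Mz_neg (r : ℕ → P) (n : ℕ) : Mz r (-(n : ℤ)) = -mseq r n := by
  rcases Nat.eq_zero_or_pos n with rfl | hn
  · simp [Mz, mseq]
  · rw [Mz, if_neg (by omega)]
    simp

theorem Mz_succ (r : ℕ → P) (j : ℤ) : Mz r j + 1 ≤ Mz r (j + 1) := by
  rcases le_or_gt 0 j with h | h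
  · obtain ⟨n, rfl⟩ := Int.eq_ofNat_of_zero_le h
    have : ((n : ℤ) + 1) = ((n + 1 : ℕ) : ℤ) := by push_cast; ring
    rw [this, Mz_nat, Mz_nat]
    exact mseq_succ r n
  · obtain ⟨n, hn⟩ : ∃ n : ℕ, j = -((n + 1 : ℕ) : ℤ) := ⟨(-j - 1).toNat, by omega⟩
    rw [hn]
    have : -((n + 1 : ℕ) : ℤ) + 1 = -(n : ℤ) := by push_cast; ring
    rw [this, Mz_neg, Mz_neg]
    linarith [mseq_succ r n]

theorem Mz_mono (r : ℕ → P) : StrictMono (Mz r) :=
  strictMono_int_of_lt_succ (fun j => by linarith [Mz_succ r j])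

/-- the key growth estimate, for `v = r i` or its inverse -/
theorem Mz_bound (r : ℕ → P) (i : ℕ) (v : P) (hv : StrictMono v)
    (h1 : ∀ k, i ≤ k → |v (mseq r k)| ≤ mseq r (k + 1))
    (h2 : ∀ k, i ≤ k → |v⁻¹ (-mseq r k)| ≤ mseq r (k + 1)) (j : ℤ) :
    v (Mz r j) ≤ Mz r (j + (2 * i + 1 : ℕ)) := by
  rcases le_or_gt 0 j with h | h
  · obtain ⟨n, rfl⟩ := Int.eq_ofNat_of_zero_le h
    rw [Mz_nat]
    have e1 : v (mseq r n) ≤ v (mseq r (n + i)) :=
      hv.monotone ((mseq_mono r).monotone (by omega))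
    have e2 := (le_abs_self _).trans (h1 (n + i) (by omega))
    have e3 : mseq r (n + i + 1) ≤ Mz r ((n : ℤ) + (2 * i + 1 : ℕ)) := by
      rw [← Nat.cast_add, Mz_nat]
      exact (mseq_mono r).monotone (by omega)
    linarith
  · obtain ⟨n, hn⟩ : ∃ n : ℕ, j = -((n + 1 : ℕ) : ℤ) := ⟨(-j - 1).toNat, by omega⟩
    subst hn
    rw [Mz_neg]
    rcases le_or_gt i n with hin | hin
    · -- large
      have e1 := (neg_abs_le (v⁻¹ (-mseq r n)))
      have e2 := h2 n hin
      have e3 : -mseq r (n + 1) ≤ v⁻¹ (-mseq r n) := by linarith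
      have e4 := hv.monotone e3
      rw [ais] at e4
      have e5 : Mz r (-(n : ℤ)) ≤ Mz r (-((n + 1 : ℕ) : ℤ) + (2 * i + 1 : ℕ)) :=
        (Mz_mono r).monotone (by push_cast; omega)
      rw [Mz_neg] at e5
      exact e4.trans e5
    · have e1 : v (-mseq r (n + 1)) ≤ v (mseq r i) := by
        apply hv.monotone
        linarith [mseq_nonneg r (n + 1), mseq_nonneg r i]
      have e2 := (le_abs_self _).trans (h1 i le_rfl)
      have e3 : mseq r (i + 1) ≤ Mz r (-((n + 1 : ℕ) : ℤ) + (2 * i + 1 : ℕ)) := by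
        rw [← Mz_nat]
        exact (Mz_mono r).monotone (by push_cast; omega)
      linarith

/-- the interpolation -/
theorem exists_interp (M : ℤ → ℝ) (hM : ∀ j, M j + 1 ≤ M (j + 1)) :
    ∃ φ : P, StrictMono φ ∧ ∀ j : ℤ, φ j = M j := by
  have hmono : StrictMono M := strictMono_int_of_lt_succ (fun j => by linarith [hM j])
  let F : ℝ → ℝ := fun x => M ⌊x⌋ + Int.fract x * (M (⌊x⌋ + 1) - M ⌊x⌋)
  have hF1 : ∀ x, M ⌊x⌋ ≤ F x := by
    intro x
    have h1 := Int.fract_nonneg x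
    have h2 := hM ⌊x⌋
    have : 0 ≤ Int.fract x * (M (⌊x⌋ + 1) - M ⌊x⌋) := mul_nonneg h1 (by linarith)
    simp only [F]; linarith
  have hF2 : ∀ x, F x < M (⌊x⌋ + 1) := by
    intro x
    have h1 := Int.fract_lt_one x
    have h2 := hM ⌊x⌋
    have : Int.fract x * (M (⌊x⌋ + 1) - M ⌊x⌋) < 1 * (M (⌊x⌋ + 1) - M ⌊x⌋) :=
      mul_lt_mul_of_pos_right h1 (by linarith)
    simp only [F]; linarith
  have hFm : StrictMono F := by
    intro x y hxy
    have hle : ⌊x⌋ ≤ ⌊y⌋ := Int.floor_le_floor hxy.le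
    rcases hle.eq_or_lt with h | h
    · have h3 : Int.fract x < Int.fract y := by
        rw [Int.fract, Int.fract, h]; linarith
      have h2 := hM ⌊y⌋
      have : Int.fract x * (M (⌊y⌋ + 1) - M ⌊y⌋) < Int.fract y * (M (⌊y⌋ + 1) - M ⌊y⌋) :=
        mul_lt_mul_of_pos_right h3 (by linarith)
      simp only [F]
      rw [h]
      linarith
    · have h3 : M (⌊x⌋ + 1) ≤ M ⌊y⌋ := hmono.monotone (by omega)
      linarith [hF1 y, hF2 x]
  have hlow : ∀ n : ℕ, M (-(n : ℤ)) ≤ M 0 - n := by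
    intro n
    induction n with
    | zero => simp
    | succ n ih =>
      have := hM (-((n + 1 : ℕ) : ℤ))
      have e : -((n + 1 : ℕ) : ℤ) + 1 = -(n : ℤ) := by push_cast; ring
      rw [e] at this
      push_cast at *
      linarith
  have hhigh : ∀ n : ℕ, M 0 + n ≤ M (n : ℤ) := by
    intro n
    induction n with
    | zero => simp
    | succ n ih =>
      have := hM (n : ℤ)
      push_cast at *
      linarith
  have hsurj : Function.Surjective F := by
    intro y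
    obtain ⟨j, hj1, hj2⟩ : ∃ j : ℤ, M j ≤ y ∧ y < M (j + 1) := by
      obtain ⟨a, ha⟩ := exists_nat_ge (M 0 - y)
      obtain ⟨b, hb⟩ := exists_nat_gt (y - M 0)
      have hbdd : ∃ B : ℤ, ∀ z : ℤ, M z ≤ y → z ≤ B := by
        refine ⟨b, fun z hz => ?_⟩
        by_contra hc
        push Not at hc
        have := hmono hc
        have := hhigh b
        linarith
      obtain ⟨j, hj, hjm⟩ := Int.exists_greatest_of_bdd hbdd
        ⟨-(a : ℤ), by linarith [hlow a]⟩
      refine ⟨j, hj, ?_⟩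
      by_contra hc
      push Not at hc
      have := hjm (j + 1) hc
      omega
    have hpos : 0 < M (j + 1) - M j := by linarith [hM j]
    have h0 : 0 ≤ (y - M j) / (M (j + 1) - M j) := div_nonneg (by linarith) hpos.le
    have h1 : (y - M j) / (M (j + 1) - M j) < 1 := by
      rw [div_lt_one hpos]; linarith
    refine ⟨j + (y - M j) / (M (j + 1) - M j), ?_⟩
    have hfl : ⌊(j : ℝ) + (y - M j) / (M (j + 1) - M j)⌋ = j := by
      rw [Int.floor_eq_iff]
      constructor <;> linarith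
    simp only [F]
    rw [Int.fract, hfl]
    field_simp
    ring
  refine ⟨Equiv.ofBijective F ⟨hFm.injective, hsurj⟩, hFm, fun j => ?_⟩
  show F j = M j
  simp [F]

/-- **Main theorem.** -/
theorem main (S : Set P) (hS : S.Countable) (hSm : ∀ σ ∈ S, StrictMono σ) :
    ∃ f g : P, StrictMono f ∧ StrictMono g ∧
      S ⊆ (Subgroup.closure ({f, g} : Set P) : Set P) := by
  obtain ⟨T, hTm, hT⟩ := exists_trans 1
  -- enumeration
  obtain ⟨r, hr⟩ := (hS.union (Set.countable_singleton (1 : P))).exists_eq_range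
    ⟨1, Or.inr rfl⟩
  have hrm : ∀ i, StrictMono (r i) := by
    intro i
    have : r i ∈ S ∪ {1} := by rw [hr]; exact ⟨i, rfl⟩
    rcases this with h | h
    · exact hSm _ h
    · rw [Set.mem_singleton_iff.1 h]; exact strictMono_one
  obtain ⟨φ, hφ, hφM⟩ := exists_interp (Mz r) (Mz_succ r)
  have hφS : φ ∈ SM := hφ
  -- upper bound for the conjugates
  have upper : ∀ (i : ℕ) (v : P), StrictMono v →
      (∀ k, i ≤ k → |v (mseq r k)| ≤ mseq r (k + 1)) →
      (∀ k, i ≤ k → |v⁻¹ (-mseq r k)| ≤ mseq r (k + 1)) →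
      ∀ x, (φ⁻¹ * v * φ) x ≤ x + (2 * i + 2 : ℕ) := by
    intro i v hv h1 h2 x
    have e0 : x ≤ ((⌊x⌋ + 1 : ℤ) : ℝ) := by
      push_cast; exact (Int.lt_floor_add_one x).le
    have e1 : v (φ x) ≤ v (φ ((⌊x⌋ + 1 : ℤ) : ℝ)) := hv.monotone (hφ.monotone e0)
    rw [hφM] at e1
    have e2 := Mz_bound r i v hv h1 h2 (⌊x⌋ + 1)
    rw [← hφM (⌊x⌋ + 1 + (2 * i + 1 : ℕ))] at e2
    have e3 := (strictMono_inv hφ).monotone (e1.trans e2)
    rw [sia] at e3
    rw [Equiv.Perm.mul_apply, Equiv.Perm.mul_apply]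
    refine e3.trans ?_
    have := Int.floor_le x
    push_cast
    linarith
  have hconj : ∀ i, φ⁻¹ * r i * φ ∈ Gam T := by
    intro i
    have b1 : ∀ k, i ≤ k → |r i (mseq r k)| ≤ mseq r (k + 1) := by
      intro k hk
      have := mseq_bound r k i hk
      have h1 := abs_nonneg ((r i)⁻¹ (mseq r k))
      have h2 := abs_nonneg ((r i) (-mseq r k))
      have h3 := abs_nonneg ((r i)⁻¹ (-mseq r k))
      linarith
    have b2 : ∀ k, i ≤ k → |(r i)⁻¹ (-mseq r k)| ≤ mseq r (k + 1) := by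
      intro k hk
      have := mseq_bound r k i hk
      have h1 := abs_nonneg ((r i)⁻¹ (mseq r k))
      have h2 := abs_nonneg ((r i) (-mseq r k))
      have h3 := abs_nonneg ((r i) (mseq r k))
      linarith
    have b3 : ∀ k, i ≤ k → |(r i)⁻¹ (mseq r k)| ≤ mseq r (k + 1) := by
      intro k hk
      have := mseq_bound r k i hk
      have h1 := abs_nonneg ((r i) (mseq r k))
      have h2 := abs_nonneg ((r i) (-mseq r k))
      have h3 := abs_nonneg ((r i)⁻¹ (-mseq r k))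
      linarith
    have b4 : ∀ k, i ≤ k → |((r i)⁻¹)⁻¹ (-mseq r k)| ≤ mseq r (k + 1) := by
      intro k hk
      rw [inv_inv]
      have := mseq_bound r k i hk
      have h1 := abs_nonneg ((r i)⁻¹ (mseq r k))
      have h2 := abs_nonneg ((r i) (mseq r k))
      have h3 := abs_nonneg ((r i)⁻¹ (-mseq r k))
      linarith
    have u1 := upper i (r i) (hrm i) b1 b2
    have u2 := upper i (r i)⁻¹ (strictMono_inv (hrm i)) b3 b4
    refine bdd_mem_Gam T hT _
      (mem_SM.1 (mul_mem (mul_mem (inv_mem hφS) (show r i ∈ SM from hrm i)) hφS)) (2 * i + 2) u1 ?_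
    intro x
    have := u2 ((φ⁻¹ * r i * φ) x)
    have e : (φ⁻¹ * (r i)⁻¹ * φ) ((φ⁻¹ * r i * φ) x) = x := by
      rw [← Equiv.Perm.mul_apply]
      have : φ⁻¹ * (r i)⁻¹ * φ * (φ⁻¹ * r i * φ) = 1 := by group
      rw [this]; rfl
    rw [e] at this
    linarith
  obtain ⟨g, hg, hgS⟩ := countable_Gam T hT (Set.range fun i => φ⁻¹ * r i * φ)
    (Set.countable_range _) (by rintro _ ⟨i, rfl⟩; exact hconj i)
  refine ⟨φ * T * φ⁻¹, φ * g * φ⁻¹,
    mem_SM.1 (mul_mem (mul_mem hφS (show T ∈ SM from hTm)) (inv_mem hφS)),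
    mem_SM.1 (mul_mem (mul_mem hφS (show g ∈ SM from hg)) (inv_mem hφS)), ?_⟩
  intro σ hσ
  have : σ ∈ S ∪ {1} := Or.inl hσ
  rw [hr] at this
  obtain ⟨i, rfl⟩ := this
  have h1 : φ⁻¹ * r i * φ ∈ Subgroup.closure ({T, g} : Set P) := hgS ⟨i, rfl⟩
  have h2 : (MulAut.conj φ).toMonoidHom (φ⁻¹ * r i * φ) ∈
      (Subgroup.closure ({T, g} : Set P)).map (MulAut.conj φ).toMonoidHom :=
    Subgroup.mem_map_of_mem _ h1
  rw [MonoidHom.map_closure, Set.image_pair] at h2
  have h3 : (MulAut.conj φ).toMonoidHom (φ⁻¹ * r i * φ) = r i := by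
    show φ * (φ⁻¹ * r i * φ) * φ⁻¹ = r i
    group
  rw [h3] at h2
  exact h2

end Pool.Agent.H219R3.HR
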