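import Pool.Agent.H219R3.HRMain

set_option autoImplicit false

/-!
Generation: every increasing bijection of bounded displacement is generated by the translation and
the elements supported in `(0, 6) + 256 ℤ`.
-/

namespace Pool.Agent.H219R3.HR

open scoped commutatorElement

/-- cutting -/
theorem exists_cut (w : P) (hw : StrictMono w) (C : Set ℝ) (hC : ∀ x, w x ∈ C ↔ x ∈ C)
    (h1 : ∀ x ∈ C, ∀ y, y ∉ C → x < y → ∃ z, x ≤ z ∧ z ≤ y ∧ w z = z)
    (h2 : ∀ x ∈ C, ∀ y, y ∉ C → y < x → ∃ z, y ≤ z ∧ z ≤ x ∧ w z = z) :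
    ∃ v : P, StrictMono v ∧ (∀ x ∈ C, v x = w x) ∧ ∀ x, x ∉ C → v x = x := by
  classical
  have hCi : ∀ x, w⁻¹ x ∈ C ↔ x ∈ C := by
    intro x
    rw [← hC (w⁻¹ x), ais]
  let v : P :=
    { toFun := fun x => if x ∈ C then w x else x
      invFun := fun x => if x ∈ C then w⁻¹ x else x
      left_inv := by
        intro x
        by_cases hx : x ∈ C
        · simp only [if_pos hx, if_pos ((hC x).2 hx), sia]
        · simp only [if_neg hx]
      right_inv := by
        intro x
        by_cases hx : x ∈ C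
        · simp only [if_pos hx, if_pos ((hCi x).2 hx), ais]
        · simp only [if_neg hx] }
  have hv : ∀ x ∈ C, v x = w x := fun x hx => if_pos hx
  have hv' : ∀ x, x ∉ C → v x = x := fun x hx => if_neg hx
  refine ⟨v, ?_, hv, hv'⟩
  intro x y hxy
  by_cases hx : x ∈ C <;> by_cases hy : y ∈ C
  · rw [hv x hx, hv y hy]; exact hw hxy
  · rw [hv x hx, hv' y hy]
    obtain ⟨z, hz1, hz2, hz3⟩ := h1 x hx y hy hxy
    rcases hz1.eq_or_lt with rfl | hlt
    · rw [hz3]; exact hxy
    · have := hw hlt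
      rw [hz3] at this
      exact this.trans_le hz2
  · rw [hv' x hx, hv y hy]
    obtain ⟨z, hz1, hz2, hz3⟩ := h2 y hy x hx hxy
    rcases hz2.eq_or_lt with rfl | hlt
    · rw [hz3]; exact hxy
    · have := hw hlt
      rw [hz3] at this
      exact hz1.trans_lt this
  · rw [hv' x hx, hv' y hy]; exact hxy

/-- the group generated by the translation and the elements supported in `(0, 6) + 256 ℤ` -/
def Gam (T : P) : Subgroup P := Subgroup.closure (insert T (GD (Per 256 0 6) : Set P))

theorem T_mem_Gam (T : P) : T ∈ Gam T := Subgroup.subset_closure (Set.mem_insert _ _)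

theorem GD_le_Gam (T : P) : GD (Per 256 0 6) ≤ Gam T :=
  fun _ hw => Subgroup.subset_closure (Set.mem_insert_of_mem _ hw)

theorem unshift_GD (T : P) (hT : ∀ x, T x = x + 1) (n : ℕ) (L p q : ℤ) (w : P)
    (hw : w ∈ GD (Per L (p + n) (q + n))) : (T ^ n)⁻¹ * w * T ^ n ∈ GD (Per L p q) := by
  have hTS : T ∈ SM := by
    intro x y hxy
    rw [hT, hT]; linarith
  refine ⟨mem_SM.1 (mul_mem (mul_mem (inv_mem (pow_mem hTS _)) hw.1) (pow_mem hTS _)), ?_⟩
  intro x hx
  have h1 : (T ^ n) x ∉ Per L (p + n) (q + n) := by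
    rw [Tpow T hT]
    intro h
    apply hx
    rw [← mem_Per_shift L p q n]
    simpa using h
  rw [Equiv.Perm.mul_apply, Equiv.Perm.mul_apply, hw.2 _ h1, sia]

/-- elements supported in a shift of `(0,6) + 256 ℤ` -/
theorem shifted_mem_Gam (T : P) (hT : ∀ x, T x = x + 1) (n : ℕ) (w : P)
    (hw : w ∈ GD (Per 256 (0 + n) (6 + n))) : w ∈ Gam T := by
  have h1 := GD_le_Gam T (unshift_GD T hT n 256 0 6 w hw)
  have h2 : w = T ^ n * ((T ^ n)⁻¹ * w * T ^ n) * (T ^ n)⁻¹ := by group
  rw [h2]
  exact mul_mem (mul_mem (pow_mem (T_mem_Gam T) _) h1) (inv_mem (pow_mem (T_mem_Gam T) _))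

/-- elements supported in `(0, 6) + 8 ℤ` -/
theorem eight_mem_Gam (T : P) (hT : ∀ x, T x = x + 1) (w : P) (hw : w ∈ GD (Per 8 0 6)) :
    w ∈ Gam T := by
  have hfix : ∀ w ∈ GD (Per 8 0 6), ∀ k : ℤ, w (8 * (k : ℝ)) = 8 * k := by
    intro w hw k
    apply hw.2
    rintro ⟨j, h1, h2⟩
    have h1' : 8 * j < 8 * k := by
      have : (8 : ℝ) * j < 8 * k := by push_cast at h1; linarith
      exact_mod_cast this
    have h2' : 8 * k < 8 * j + 6 := by
      have : (8 : ℝ) * k < 8 * j + 6 := by push_cast at h2; linarith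
      exact_mod_cast this
    omega
  have hfloor : ∀ w ∈ GD (Per 8 0 6), ∀ x : ℝ, ⌊w x / 8⌋ = ⌊x / 8⌋ := by
    intro w hw x
    have hw1 : StrictMono w := hw.1
    rw [Int.floor_eq_iff]
    have h1 : (⌊x / 8⌋ : ℝ) ≤ x / 8 := Int.floor_le _
    have h2 : x / 8 < ⌊x / 8⌋ + 1 := Int.lt_floor_add_one _
    have h3 : 8 * (⌊x / 8⌋ : ℝ) ≤ x := by linarith
    have h4 : x < 8 * ((⌊x / 8⌋ + 1 : ℤ) : ℝ) := by push_cast; linarith
    have h5 := hw1.monotone h3
    rw [hfix w hw] at h5
    have h6 := hw1 h4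
    rw [hfix w hw] at h6
    push_cast at h6
    constructor <;> linarith
  have key : ∀ i : ℕ, i ≤ 32 → ∀ w ∈ GD (Per 8 0 6),
      (∀ x : ℝ, ¬ (⌊x / 8⌋ % 32 < i) → w x = x) → w ∈ Gam T := by
    intro i
    induction i with
    | zero =>
      intro _ w hw h
      have : w = 1 := by
        ext x
        rw [h x (by push_cast; omega)]
        rfl
      rw [this]; exact one_mem _
    | succ i ih =>
      intro hi w hw h
      obtain ⟨v, hv, hv1, hv2⟩ := exists_cut w hw.1 {x : ℝ | ⌊x / 8⌋ % 32 = i}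
        (by
          intro x
          rw [Set.mem_ofPred_eq, Set.mem_ofPred_eq, hfloor w hw])
        (by
          intro x hx y hy hxy
          rw [Set.mem_ofPred_eq] at hx hy
          have h1 : ⌊x / 8⌋ ≤ ⌊y / 8⌋ := Int.floor_le_floor (by linarith)
          have h2 : ⌊x / 8⌋ ≠ ⌊y / 8⌋ := by
            intro h; rw [h] at hx; exact hy hx
          have h3 : ⌊x / 8⌋ + 1 ≤ ⌊y / 8⌋ := by omega
          have h4 : ((⌊x / 8⌋ + 1 : ℤ) : ℝ) ≤ ⌊y / 8⌋ := by exact_mod_cast h3
          have h5 : x / 8 < ⌊x / 8⌋ + 1 := Int.lt_floor_add_one _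
          have h6 : (⌊y / 8⌋ : ℝ) ≤ y / 8 := Int.floor_le _
          push_cast at h4
          exact ⟨8 * ⌊y / 8⌋, by linarith, by linarith, hfix w hw _⟩)
        (by
          intro x hx y hy hxy
          rw [Set.mem_ofPred_eq] at hx hy
          have h1 : ⌊y / 8⌋ ≤ ⌊x / 8⌋ := Int.floor_le_floor (by linarith)
          have h2 : ⌊x / 8⌋ ≠ ⌊y / 8⌋ := by
            intro h; rw [h] at hx; exact hy hx
          have h3 : ⌊y / 8⌋ + 1 ≤ ⌊x / 8⌋ := by omega
          have h4 : ((⌊y / 8⌋ + 1 : ℤ) : ℝ) ≤ ⌊x / 8⌋ := by exact_mod_cast h3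
          have h5 : y / 8 < ⌊y / 8⌋ + 1 := Int.lt_floor_add_one _
          have h6 : (⌊x / 8⌋ : ℝ) ≤ x / 8 := Int.floor_le _
          push_cast at h4
          exact ⟨8 * ⌊x / 8⌋, by linarith, by linarith, hfix w hw _⟩)
      have hv3 : v ∈ GD (Per 8 0 6) := by
        refine ⟨hv, fun x hx => ?_⟩
        by_cases hxC : x ∈ {x : ℝ | ⌊x / 8⌋ % 32 = i}
        · rw [hv1 x hxC, hw.2 x hx]
        · exact hv2 x hxC
      have hv4 : v ∈ GD (Per 256 (0 + (8 * i : ℕ)) (6 + (8 * i : ℕ))) := by
        refine ⟨hv, fun x hx => ?_⟩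
        by_cases hxC : x ∈ {x : ℝ | ⌊x / 8⌋ % 32 = i}
        · rw [hv1 x hxC]
          apply hw.2
          rintro ⟨k, h1, h2⟩
          apply hx
          rw [Set.mem_ofPred_eq] at hxC
          have h3 : ⌊x / 8⌋ = k := by
            rw [Int.floor_eq_iff]
            push_cast at h1 h2
            constructor <;> linarith
          rw [h3] at hxC
          refine ⟨k / 32, ?_, ?_⟩
          · have h4 : 256 * (k / 32) + 8 * i = 8 * k := by omega
            have h5 : (256 : ℝ) * ((k / 32 : ℤ) : ℝ) + 8 * i = 8 * k := by exact_mod_cast h4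
            push_cast at h1 ⊢
            linarith
          · have h4 : 256 * (k / 32) + 8 * i = 8 * k := by omega
            have h5 : (256 : ℝ) * ((k / 32 : ℤ) : ℝ) + 8 * i = 8 * k := by exact_mod_cast h4
            push_cast at h2 ⊢
            linarith
        · exact hv2 x hxC
      have hv5 := shifted_mem_Gam T hT (8 * i) v hv4
      have hr := ih (by omega) (v⁻¹ * w) (mul_mem (inv_mem hv3) hw) (by
        intro x hx
        rw [Equiv.Perm.mul_apply, Equiv.Perm.inv_eq_iff_eq]
        by_cases hxC : x ∈ {x : ℝ | ⌊x / 8⌋ % 32 = i}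
        · rw [hv1 x hxC]
        · rw [hv2 x hxC]
          apply h
          rw [Set.mem_ofPred_eq] at hxC
          push_cast
          omega)
      have : w = v * (v⁻¹ * w) := by group
      rw [this]
      exact mul_mem hv5 hr
  exact key 32 le_rfl w hw (fun x hx => absurd (by push_cast; omega) hx)

/-- elements of displacement at most one -/
theorem small_mem_Gam (T : P) (hT : ∀ x, T x = x + 1) (s : P) (hs : StrictMono s)
    (h1 : ∀ x, s x ≤ x + 1) (h2 : ∀ x, x - 1 ≤ s x) : s ∈ Gam T := by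
  obtain ⟨E, hE, hE1, -, hE3⟩ := exists_bump 8 0 6 (by norm_num) (by norm_num)
  obtain ⟨a, ha, hax⟩ := exists_inf E s hE.1 hs
  obtain ⟨u, hu, hux⟩ := exists_sup E⁻¹ a (strictMono_inv hE.1) ha
  have hux' : ∀ x, u x = max (E⁻¹ x) (min (E x) (s x)) := fun x => by rw [hux, hax]
  have huG : u ∈ GD (Per 8 0 6) := by
    refine ⟨hu, fun x hx => ?_⟩
    rw [hux', hE.2 x hx, (inv_mem hE).2 x hx]
    exact max_eq_left (min_le_left _ _)
  have hv : u⁻¹ * s ∈ GD (Per 8 (0 + (4 : ℕ)) (6 + (4 : ℕ))) := by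
    refine ⟨mem_SM.1 (mul_mem (inv_mem (show u ∈ SM from hu)) (show s ∈ SM from hs)), ?_⟩
    intro x hx
    rw [Equiv.Perm.mul_apply, Equiv.Perm.inv_eq_iff_eq]
    -- x lies in some [8 k + 2, 8 k + 4]
    obtain ⟨k, hk1, hk2⟩ : ∃ k : ℤ, (8 : ℝ) * k + 2 ≤ x ∧ x ≤ 8 * k + 4 := by
      refine ⟨⌊(x - 2) / 8⌋, ?_, ?_⟩
      · have := Int.floor_le ((x - 2) / 8)
        linarith
      · by_contra hc
        push Not at hc
        apply hx
        refine ⟨⌊(x - 2) / 8⌋, ?_, ?_⟩
        · push_cast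
          linarith
        · have := Int.lt_floor_add_one ((x - 2) / 8)
          push_cast
          linarith
    have e1 : x + 1 ≤ E x := hE3 k x (by push_cast; linarith) (by push_cast; linarith)
    have e2 : x ≤ E (x - 1) := by
      have := hE3 k (x - 1) (by push_cast; linarith) (by push_cast; linarith)
      linarith
    have e3 : E⁻¹ x ≤ x - 1 := by
      have := (strictMono_inv hE.1).monotone e2
      rwa [sia] at this
    rw [hux', min_eq_right (le_trans (h1 x) e1), max_eq_right (e3.trans (h2 x))]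
  have hv' := eight_mem_Gam T hT _ (unshift_GD T hT 4 8 0 6 _ hv)
  have hTm := T_mem_Gam T
  have hsv : s = u * (T ^ 4 * ((T ^ 4)⁻¹ * (u⁻¹ * s) * T ^ 4) * (T ^ 4)⁻¹) := by group
  rw [hsv]
  exact mul_mem (eight_mem_Gam T hT u huG)
    (mul_mem (mul_mem (pow_mem hTm _) hv') (inv_mem (pow_mem hTm _)))

/-- elements of bounded displacement -/
theorem bdd_mem_Gam (T : P) (hT : ∀ x, T x = x + 1) (s : P) (hs : StrictMono s) (M : ℕ)
    (h1 : ∀ x, s x ≤ x + M) (h2 : ∀ x, x - M ≤ s x) : s ∈ Gam T := by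
  have hTm := T_mem_Gam T
  have hTS : T ∈ SM := by
    intro x y hxy
    rw [hT, hT]; linarith
  -- first the case above the identity
  have key : ∀ (r : P), StrictMono r → (∀ x, x ≤ r x) → ∀ n : ℕ, ∀ q : P, StrictMono q →
      (∀ x, q x = min (r x) (x + n)) → q ∈ Gam T := by
    intro r hr hr1 n
    induction n with
    | zero =>
      intro q _ hq
      have : q = 1 := by
        ext x
        rw [hq, Nat.cast_zero, add_zero, min_eq_right (hr1 x)]
        rfl
      rw [this]; exact one_mem _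
    | succ n ih =>
      intro q hqm hq
      obtain ⟨q', hq'm, hq'⟩ := exists_inf r (T ^ n) hr (mem_SM.1 (pow_mem hTS n))
      have hq'x : ∀ x, q' x = min (r x) (x + n) := fun x => by rw [hq', Tpow T hT]
      have hq'G := ih q' hq'm hq'x
      have hd : q * q'⁻¹ ∈ Gam T := by
        apply small_mem_Gam T hT _
          (mem_SM.1 (mul_mem (show q ∈ SM from hqm) (inv_mem (show q' ∈ SM from hq'm))))
        · intro y
          obtain ⟨x, rfl⟩ := q'.surjective y
          rw [Equiv.Perm.mul_apply, sia, hq, hq'x]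
          push_cast
          rcases le_total (r x) (x + n) with h | h
          · rw [min_eq_left h]
            have := min_le_left (r x) (x + (n + 1))
            linarith
          · rw [min_eq_right h]
            have := min_le_right (r x) (x + ((n : ℝ) + 1))
            linarith
        · intro y
          obtain ⟨x, rfl⟩ := q'.surjective y
          rw [Equiv.Perm.mul_apply, sia, hq, hq'x]
          push_cast
          have : min (r x) (x + (n : ℝ)) ≤ min (r x) (x + ((n : ℝ) + 1)) :=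
            min_le_min le_rfl (by linarith)
          linarith
      have : q = q * q'⁻¹ * q' := by group
      rw [this]
      exact mul_mem hd hq'G
  have h3 : s * T ^ M ∈ Gam T := by
    have hm := mem_SM.1 (mul_mem (show s ∈ SM from hs) (pow_mem hTS M))
    refine key (s * T ^ M) hm ?_ (2 * M) _ hm ?_
    · intro x
      rw [Equiv.Perm.mul_apply, Tpow T hT]
      have := h2 (x + M)
      linarith
    · intro x
      rw [Equiv.Perm.mul_apply, Tpow T hT, eq_comm, min_eq_left]
      have := h1 (x + M)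
      push_cast
      linarith
  have : s = s * T ^ M * (T ^ M)⁻¹ := by group
  rw [this]
  exact mul_mem h3 (inv_mem (pow_mem hTm _))

/-- membership in a closure has countable character -/
theorem countable_support {G : Type*} [Group G] (X : Set G) (x : G)
    (hx : x ∈ Subgroup.closure X) : ∃ Y ⊆ X, Y.Countable ∧ x ∈ Subgroup.closure Y := by
  induction hx using Subgroup.closure_induction with
  | mem x hx => exact ⟨{x}, by simpa using hx, Set.countable_singleton x,
      Subgroup.subset_closure rfl⟩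
  | one => exact ⟨∅, Set.empty_subset _, Set.countable_empty, one_mem _⟩
  | mul x y _ _ hx hy =>
    obtain ⟨Y, hY, hYc, hxY⟩ := hx
    obtain ⟨Z, hZ, hZc, hyZ⟩ := hy
    exact ⟨Y ∪ Z, Set.union_subset hY hZ, hYc.union hZc,
      mul_mem (Subgroup.closure_mono Set.subset_union_left hxY)
        (Subgroup.closure_mono Set.subset_union_right hyZ)⟩
  | inv x _ hx =>
    obtain ⟨Y, hY, hYc, hxY⟩ := hx
    exact ⟨Y, hY, hYc, inv_mem hxY⟩

/-- countable subsets of `Gam` lie in two-generated subgroups -/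
theorem countable_Gam (T : P) (hT : ∀ x, T x = x + 1) (S : Set P) (hS : S.Countable)
    (hSG : S ⊆ Gam T) :
    ∃ g : P, StrictMono g ∧ S ⊆ (Subgroup.closure ({T, g} : Set P) : Set P) := by
  have h1 : ∀ x : S, ∃ Y ⊆ insert T (GD (Per 256 0 6) : Set P), Y.Countable ∧
      (x : P) ∈ Subgroup.closure Y := fun x => countable_support _ _ (hSG x.2)
  choose Y hY hYc hxY using h1
  have : Countable S := hS.to_subtype
  let Z : Set P := (⋃ x, Y x) ∩ (GD (Per 256 0 6) : Set P) ∪ {1}
  have hZc : Z.Countable :=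
    ((Set.countable_iUnion hYc).mono Set.inter_subset_left).union (Set.countable_singleton 1)
  have hZne : Z.Nonempty := ⟨1, Or.inr rfl⟩
  obtain ⟨a, ha⟩ := hZc.exists_eq_range hZne
  have hZG : ∀ z ∈ Z, z ∈ GD (Per 256 0 6) := by
    rintro z (hz | hz)
    · exact hz.2
    · rw [Set.mem_singleton_iff.1 hz]; exact one_mem _
  obtain ⟨g, hg, hga⟩ := coding' T hT a (fun n => hZG _ (by rw [ha]; exact ⟨n, rfl⟩))
  refine ⟨g, hg, fun x hx => ?_⟩
  have h2 := hxY ⟨x, hx⟩
  have h3 : Y ⟨x, hx⟩ ⊆ (Subgroup.closure ({T, g} : Set P) : Set P) := by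
    intro y hy
    rcases hY ⟨x, hx⟩ hy with h | h
    · rw [h]; exact Subgroup.subset_closure (by simp)
    · have : y ∈ Z := Or.inl ⟨Set.mem_iUnion.2 ⟨⟨x, hx⟩, hy⟩, h⟩
      rw [ha] at this
      obtain ⟨n, rfl⟩ := this
      exact hga n
  exact (Subgroup.closure_le _).2 h3 h2

end Pool.Agent.H219R3.HR
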