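import Pool.Agent.H219R3.HRCode

set_option autoImplicit false

/-!
The element `g` coding countably many elements.
-/

namespace Pool.Agent.H219R3.HR

open scoped commutatorElement

theorem coding (T : P) (hT : ∀ x, T x = x + 1) (b1 b2 c1 c2 : ℕ → P)
    (hb1 : ∀ n, b1 n ∈ GD (Per 256 (-2) 8)) (hb2 : ∀ n, b2 n ∈ GD (Per 256 (-2) 8))
    (hc1 : ∀ n, c1 n ∈ GD (Per 256 (-2) 8)) (hc2 : ∀ n, c2 n ∈ GD (Per 256 (-2) 8)) :
    ∃ g : P, StrictMono g ∧ ∀ n, ⁅⁅b1 n, b2 n⁆, ⁅c1 n, c2 n⁆⁆ ∈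
      Subgroup.closure ({T, g} : Set P) := by
  obtain ⟨s, hs, -, hs1, -⟩ := exists_bump 256 (-3) 9 (by norm_num) (by norm_num)
  have hsZ : ∀ i : ℕ, 0 < i → ∀ x ∈ Per 256 (-2) 8, (s ^ i) x ∈ Per 256 8 9 := by
    intro i hi x hx
    exact bump_displace 256 (-3) 9 (by norm_num) s hs1 i hi x hx
  have hDZ : ∀ x ∈ Per 256 (-2) 8, x ∉ Per 256 8 9 := by
    intro x hx
    have hx' : x ∈ Per 256 (-3 + 1) (9 - 1) := by
      norm_num
      exact hx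
    exact Per_disjoint_end 256 (-3) 9 (by norm_num) x hx'
  have he1 : Function.Injective (fun n : ℕ => 3 ^ n) := Nat.pow_right_injective (by norm_num)
  have he2 : Function.Injective (fun n : ℕ => 2 * 3 ^ n) := by
    intro m n h
    exact he1 (by simpa using h)
  have he1p : ∀ n : ℕ, 0 < 3 ^ n := fun n => by positivity
  have he2p : ∀ n : ℕ, 0 < 2 * 3 ^ n := fun n => by positivity
  obtain ⟨A1, hA1, hA1x, hA1s⟩ := exists_copies s _ _ hs.1 hsZ hDZ _ he1 he1p b1 hb1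
  obtain ⟨A2, hA2, hA2x, hA2s⟩ := exists_copies s _ _ hs.1 hsZ hDZ _ he1 he1p b2 hb2
  obtain ⟨B1, hB1, hB1x, hB1s⟩ := exists_copies s _ _ hs.1 hsZ hDZ _ he2 he2p c1 hc1
  obtain ⟨B2, hB2, hB2x, hB2s⟩ := exists_copies s _ _ hs.1 hsZ hDZ _ he2 he2p c2 hc2
  -- commutators of copies are copies of commutators
  have hcomm : ∀ (e : ℕ → ℕ) (u v : ℕ → P) (U V : P), (∀ n, u n ∈ GD (Per 256 (-2) 8)) →
      (∀ n, v n ∈ GD (Per 256 (-2) 8)) →
      (∀ n, ∀ x ∈ Per 256 (-2) 8, U ((s ^ e n) x) = (s ^ e n) (u n x)) →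
      (∀ y, U y ≠ y → ∃ n, (s ^ e n)⁻¹ y ∈ Per 256 (-2) 8) →
      (∀ n, ∀ x ∈ Per 256 (-2) 8, V ((s ^ e n) x) = (s ^ e n) (v n x)) →
      (∀ y, V y ≠ y → ∃ n, (s ^ e n)⁻¹ y ∈ Per 256 (-2) 8) →
      (∀ n, ∀ x ∈ Per 256 (-2) 8, ⁅U, V⁆ ((s ^ e n) x) = (s ^ e n) (⁅u n, v n⁆ x)) ∧
      (∀ y, ⁅U, V⁆ y ≠ y → ∃ n, (s ^ e n)⁻¹ y ∈ Per 256 (-2) 8) := by
    intro e u v U V hu hv hU hU' hV hV'
    have inv_of : ∀ (u : ℕ → P) (U : P), (∀ n, u n ∈ GD (Per 256 (-2) 8)) →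
        (∀ n, ∀ x ∈ Per 256 (-2) 8, U ((s ^ e n) x) = (s ^ e n) (u n x)) →
        ∀ n, ∀ x ∈ Per 256 (-2) 8, U⁻¹ ((s ^ e n) x) = (s ^ e n) ((u n)⁻¹ x) := by
      intro u U hu hU n x hx
      rw [Equiv.Perm.inv_eq_iff_eq, hU n _ ((GD_mem_iff (inv_mem (hu n)) _).2 hx), ais]
    constructor
    · intro n x hx
      simp only [commutatorElement_def, Equiv.Perm.mul_apply]
      have m1 := (GD_mem_iff (inv_mem (hv n)) x).2 hx
      have m2 := (GD_mem_iff (inv_mem (hu n)) _).2 m1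
      have m3 := (GD_mem_iff (hv n) _).2 m2
      rw [inv_of v V hv hV n x hx, inv_of u U hu hU n _ m1, hV n _ m2, hU n _ m3]
    · intro y hy
      by_contra hc
      push Not at hc
      apply hy
      have h1 : U y = y := by
        by_contra h
        obtain ⟨n, hn⟩ := hU' y h
        exact hc n hn
      have h2 : V y = y := by
        by_contra h
        obtain ⟨n, hn⟩ := hV' y h
        exact hc n hn
      have h1' : U⁻¹ y = y := by rw [Equiv.Perm.inv_eq_iff_eq, h1]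
      have h2' : V⁻¹ y = y := by rw [Equiv.Perm.inv_eq_iff_eq, h2]
      simp only [commutatorElement_def, Equiv.Perm.mul_apply]
      rw [h2', h1', h2, h1]
  obtain ⟨hAx, hAs⟩ := hcomm _ b1 b2 A1 A2 hb1 hb2 hA1x hA1s hA2x hA2s
  obtain ⟨hBx, hBs⟩ := hcomm _ c1 c2 B1 B2 hc1 hc2 hB1x hB1s hB2x hB2s
  have hA : ⁅A1, A2⁆ ∈ GD (Per 256 8 9) := by
    rw [commutatorElement_def]
    exact mul_mem (mul_mem (mul_mem hA1 hA2) (inv_mem hA1)) (inv_mem hA2)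
  have hB : ⁅B1, B2⁆ ∈ GD (Per 256 8 9) := by
    rw [commutatorElement_def]
    exact mul_mem (mul_mem (mul_mem hB1 hB2) (inv_mem hB1)) (inv_mem hB2)
  -- the element g
  let D : Fin 5 → Set ℝ := ![Per 256 (-3) 9, Per 256 21 22, Per 256 33 34, Per 256 58 59,
    Per 256 98 99]
  let w : Fin 5 → P := ![s, T ^ 13 * A1 * (T ^ 13)⁻¹, T ^ 25 * A2 * (T ^ 25)⁻¹,
    T ^ 50 * B1 * (T ^ 50)⁻¹, T ^ 90 * B2 * (T ^ 90)⁻¹]
  have hw : ∀ i, w i ∈ GD (D i) := by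
    intro i
    fin_cases i
    · exact hs
    · exact shift_GD T hT 13 256 8 9 A1 hA1
    · exact shift_GD T hT 25 256 8 9 A2 hA2
    · exact shift_GD T hT 50 256 8 9 B1 hB1
    · exact shift_GD T hT 90 256 8 9 B2 hB2
  have hD : ∀ i j, i ≠ j → Disjoint (D i) (D j) := by
    intro i j hij
    rw [Set.disjoint_left]
    intro x hi hj
    fin_cases i <;> fin_cases j <;>
      first
      | exact absurd rfl hij
      | (obtain ⟨k, k', h1, h2⟩ := per_two hi hj; omega)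
  obtain ⟨g, hg, hgx⟩ := exists_patch D hD w hw
  have hsupp : ∀ y, g y ≠ y → y ∈ Per 256 (-3) 9 ∨ y ∈ Per 256 21 22 ∨ y ∈ Per 256 33 34 ∨
      y ∈ Per 256 58 59 ∨ y ∈ Per 256 98 99 := by
    intro y hy
    by_contra hc
    push Not at hc
    apply hy
    apply hg.2
    intro h
    obtain ⟨i, hi⟩ := Set.mem_iUnion.1 h
    fin_cases i
    · exact hc.1 hi
    · exact hc.2.1 hi
    · exact hc.2.2.1 hi
    · exact hc.2.2.2.1 hi
    · exact hc.2.2.2.2 hi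
  have hg0 : ∀ x ∈ Per 256 (-3) 9, g x = s x := fun x hx => hgx 0 x hx
  have hval : ∀ (n : ℕ) (i : Fin 5) (A : P), D i = Per 256 (8 + n) (9 + n) →
      w i = T ^ n * A * (T ^ n)⁻¹ → ∀ x ∈ Per 256 8 9, g (x + n) = A x + n := by
    intro n i A hDi hwi x hx
    have h1 : x + (n : ℝ) ∈ D i := by
      rw [hDi]
      have := (mem_Per_shift 256 8 9 n x).2 hx
      simpa using this
    rw [hgx i _ h1, hwi, Equiv.Perm.mul_apply, Equiv.Perm.mul_apply, Tpow T hT, Tpow_inv T hT]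
    congr 2
    ring
  have hg1 : ∀ x ∈ Per 256 8 9, g (x + (13 : ℕ)) = A1 x + (13 : ℕ) :=
    hval 13 1 A1 rfl rfl
  have hg2 : ∀ x ∈ Per 256 8 9, g (x + (25 : ℕ)) = A2 x + (25 : ℕ) :=
    hval 25 2 A2 rfl rfl
  have hg3 : ∀ x ∈ Per 256 8 9, g (x + (50 : ℕ)) = B1 x + (50 : ℕ) :=
    hval 50 3 B1 rfl rfl
  have hg4 : ∀ x ∈ Per 256 8 9, g (x + (90 : ℕ)) = B2 x + (90 : ℕ) :=
    hval 90 4 B2 rfl rfl
  have hshift : ∀ (n : ℕ) (p q : ℤ) (x : ℝ), x + (n : ℝ) ∈ Per 256 p q →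
      x ∈ Per 256 (p - n) (q - n) := by
    intro n p q x hx
    rw [← mem_Per_shift 256 (p - n) (q - n) n]
    simpa using hx
  have hsep1 : ∀ x, x ∉ Per 256 8 9 → g (x + (13 : ℕ)) = x + (13 : ℕ) ∨
      g (x + (25 : ℕ)) = x + (25 : ℕ) := by
    intro x hx
    by_contra hc
    push Not at hc
    obtain ⟨h1, h2⟩ := hc
    rcases hsupp _ h1 with h1 | h1 | h1 | h1 | h1 <;>
      rcases hsupp _ h2 with h2 | h2 | h2 | h2 | h2 <;>
      have h1' := hshift _ _ _ _ h1 <;> have h2' := hshift _ _ _ _ h2 <;>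
      first
      | exact hx h1'
      | (obtain ⟨k, k', e1, e2⟩ := per_two h1' h2'; push_cast at e1 e2; omega)
  have hsep2 : ∀ x, x ∉ Per 256 8 9 → g (x + (50 : ℕ)) = x + (50 : ℕ) ∨
      g (x + (90 : ℕ)) = x + (90 : ℕ) := by
    intro x hx
    by_contra hc
    push Not at hc
    obtain ⟨h1, h2⟩ := hc
    rcases hsupp _ h1 with h1 | h1 | h1 | h1 | h1 <;>
      rcases hsupp _ h2 with h2 | h2 | h2 | h2 | h2 <;>
      have h1' := hshift _ _ _ _ h1 <;> have h2' := hshift _ _ _ _ h2 <;>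
      first
      | exact hx h1'
      | (obtain ⟨k, k', e1, e2⟩ := per_two h1' h2'; push_cast at e1 e2; omega)
  have c1' := shift_comm T g A1 A2 hT 13 25 _ hA1 hA2 hg1 hg2 hsep1
  have c2' := shift_comm T g B1 B2 hT 50 90 _ hB1 hB2 hg3 hg4 hsep2
  have hTm : T ∈ Subgroup.closure ({T, g} : Set P) := Subgroup.subset_closure (by simp)
  have hgm : g ∈ Subgroup.closure ({T, g} : Set P) := Subgroup.subset_closure (by simp)
  have comm_mem : ∀ a b : P, a ∈ Subgroup.closure ({T, g} : Set P) →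
      b ∈ Subgroup.closure ({T, g} : Set P) → ⁅a, b⁆ ∈ Subgroup.closure ({T, g} : Set P) := by
    intro a b ha hb
    rw [commutatorElement_def]
    exact mul_mem (mul_mem (mul_mem ha hb) (inv_mem ha)) (inv_mem hb)
  have hAm : ⁅A1, A2⁆ ∈ Subgroup.closure ({T, g} : Set P) := by
    rw [← c1']
    exact comm_mem _ _ (mul_mem (mul_mem (inv_mem (pow_mem hTm _)) hgm) (pow_mem hTm _))
      (mul_mem (mul_mem (inv_mem (pow_mem hTm _)) hgm) (pow_mem hTm _))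
  have hBm : ⁅B1, B2⁆ ∈ Subgroup.closure ({T, g} : Set P) := by
    rw [← c2']
    exact comm_mem _ _ (mul_mem (mul_mem (inv_mem (pow_mem hTm _)) hgm) (pow_mem hTm _))
      (mul_mem (mul_mem (inv_mem (pow_mem hTm _)) hgm) (pow_mem hTm _))
  refine ⟨g, hg.1, fun n => ?_⟩
  have hZsub : Per 256 8 9 ⊆ Per 256 (-3) 9 := by
    rintro x ⟨k, h1, h2⟩
    refine ⟨k, ?_, h2⟩
    push_cast at *
    linarith
  have hD2 : ∀ u v : P, u ∈ GD (Per 256 (-2) 8) → v ∈ GD (Per 256 (-2) 8) →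
      ⁅u, v⁆ ∈ GD (Per 256 (-2) 8) := by
    intro u v hu hv
    rw [commutatorElement_def]
    exact mul_mem (mul_mem (mul_mem hu hv) (inv_mem hu)) (inv_mem hv)
  have hiso := isolate s (Per 256 (-2) 8) (Per 256 8 9) hsZ hDZ (fun n => ⁅b1 n, b2 n⁆)
    (fun n => ⁅c1 n, c2 n⁆) (fun n => hD2 _ _ (hb1 n) (hb2 n)) (fun n => hD2 _ _ (hc1 n) (hc2 n))
    ⁅A1, A2⁆ ⁅B1, B2⁆ hAx hAs hBx hBs n
  have e1 := conj_eq g s ⁅A1, A2⁆ _ hs hg0 (GD_mono hZsub hA) (3 ^ n)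
  have e2 := conj_eq g s ⁅B1, B2⁆ _ hs hg0 (GD_mono hZsub hB) (2 * 3 ^ n)
  rw [← e1, ← e2] at hiso
  rw [← hiso]
  exact comm_mem _ _ (mul_mem (mul_mem (inv_mem (pow_mem hgm _)) hAm) (pow_mem hgm _))
    (mul_mem (mul_mem (inv_mem (pow_mem hgm _)) hBm) (pow_mem hgm _))

/-- every countable family supported in `(0, 6) + 256 ℤ` is coded by one element -/
theorem coding' (T : P) (hT : ∀ x, T x = x + 1) (a : ℕ → P) (ha : ∀ n, a n ∈ GD (Per 256 0 6)) :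
    ∃ g : P, StrictMono g ∧ ∀ n, a n ∈ Subgroup.closure ({T, g} : Set P) := by
  obtain ⟨t0, ht0, -, ht01, -⟩ := exists_bump 256 (-1) 7 (by norm_num) (by norm_num)
  obtain ⟨t1, ht1, -, ht11, -⟩ := exists_bump 256 (-2) 8 (by norm_num) (by norm_num)
  have sub0 : Per 256 0 6 ⊆ Per 256 (-1) 7 := by
    rintro x ⟨k, h1, h2⟩
    refine ⟨k, ?_, ?_⟩ <;> push_cast at * <;> linarith
  have sub1 : Per 256 (-1) 7 ⊆ Per 256 (-2) 8 := by
    rintro x ⟨k, h1, h2⟩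
    refine ⟨k, ?_, ?_⟩ <;> push_cast at * <;> linarith
  have disp0 : ∀ i : ℕ, 0 < i → ∀ x ∈ Per 256 0 6, (t0 ^ i) x ∉ Per 256 0 6 := by
    intro i hi x hx h
    have h1 := bump_displace 256 (-1) 7 (by norm_num) t0 ht01 i hi x hx
    exact Per_disjoint_end 256 (-1) 7 (by norm_num) _ h h1
  have disp1 : ∀ i : ℕ, 0 < i → ∀ x ∈ Per 256 (-1) 7, (t1 ^ i) x ∉ Per 256 (-1) 7 := by
    intro i hi x hx h
    have h1 := bump_displace 256 (-2) 8 (by norm_num) t1 ht11 i hi x hx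
    exact Per_disjoint_end 256 (-2) 8 (by norm_num) _ h h1
  have h1 : ∀ n, ∃ B ∈ GD (Per 256 (-1) 7), a n = ⁅B, t0⁆ := fun n =>
    swindle t0 _ _ sub0 ht0 disp0 (a n) (ha n)
  choose B hB hBa using h1
  have h2 : ∀ n, ∃ C ∈ GD (Per 256 (-2) 8), B n = ⁅C, t1⁆ := fun n =>
    swindle t1 _ _ sub1 ht1 disp1 (B n) (hB n)
  choose C hC hCB using h2
  obtain ⟨C', hC', hCt⟩ := swindle t1 _ _ sub1 ht1 disp1 t0 ht0
  obtain ⟨g, hg, hgn⟩ := coding T hT C (fun _ => t1) (fun _ => C') (fun _ => t1) hC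
    (fun _ => ht1) (fun _ => hC') (fun _ => ht1)
  refine ⟨g, hg, fun n => ?_⟩
  have := hgn n
  rw [← hCB n, ← hCt, ← hBa n] at this
  exact this

end Pool.Agent.H219R3.HR
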