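import Mathlib
import Pool.Agent.Helper475.Torsion

set_option autoImplicit false
set_option linter.unusedSectionVars false
open scoped Pointwise

/-!
A disproof for the question on nubs of flat groups: take an infinite finitely generated torsion
group `T` acting by shifts on the profinite group `F ^ T`, where `F` has two elements.
-/

namespace Pool.Agent.H219R3.Nub

/-- the tidiness predicate -/
def Tidy {G : Type} [Group G] [TopologicalSpace G] (a : MulAut G) (U : Subgroup G) : Prop :=
  ((U : Set G) =
      (⋂ n : ℕ, Set.image (⇑(a ^ n)) (U : Set G)) *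
        (⋂ n : ℕ, Set.image (⇑(a⁻¹ ^ n)) (U : Set G)) ∧
    IsClosed (⋃ m : ℕ, Set.image (⇑(a ^ m))
        (⋂ n : ℕ, Set.image (⇑(a ^ n)) (U : Set G))))

section general
variable {G : Type} [Group G] [TopologicalSpace G]

lemma image_pow_of_inv (a : MulAut G) (U : Subgroup G) (h : (a : G → G) '' (U : Set G) = U) :
    ∀ n : ℕ, ((a ^ n : MulAut G) : G → G) '' (U : Set G) = U := by
  intro n
  induction n with
  | zero => simp
  | succ n ih =>
    rw [pow_succ, MulAut.coe_mul, Set.image_comp, h, ih]

lemma image_inv_of_inv (a : MulAut G) (U : Subgroup G) (h : (a : G → G) '' (U : Set G) = U) :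
    ((a⁻¹ : MulAut G) : G → G) '' (U : Set G) = U := by
  conv_lhs => rw [← h]
  rw [← Set.image_comp, ← MulAut.coe_mul, inv_mul_cancel]
  simp

/-- an invariant closed subgroup is tidy -/
lemma tidy_of_inv (a : MulAut G) (U : Subgroup G) (h : (a : G → G) '' (U : Set G) = U)
    (hc : IsClosed (U : Set G)) : Tidy a U := by
  have h1 := image_pow_of_inv a U h
  have h2 := image_pow_of_inv a⁻¹ U (image_inv_of_inv a U h)
  unfold Tidy
  simp only [h1, h2, Set.iInter_const, Set.iUnion_const]
  exact ⟨by simp, hc⟩

/-- for an element of finite order a tidy subgroup is invariant (one inclusion) -/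
lemma inv_of_tidy (a : MulAut G) (ha : IsOfFinOrder a) (U : Subgroup G) (h : Tidy a U) :
    (U : Set G) ⊆ (a : G → G) '' (U : Set G) := by
  obtain ⟨m, hm, ham⟩ := isOfFinOrder_iff_pow_eq_one.1 ha
  set A : Subgroup G := ⨅ n : ℕ, U.map (a ^ n : MulAut G).toMonoidHom with hA
  have hA1 : (⋂ n : ℕ, Set.image (⇑(a ^ n)) (U : Set G)) = (A : Set G) := by
    rw [hA, Subgroup.coe_iInf]
    rfl
  have hA2 : (⋂ n : ℕ, Set.image (⇑(a⁻¹ ^ n)) (U : Set G)) ⊆ (A : Set G) := by
    rw [← hA1]
    refine Set.subset_iInter fun k => ?_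
    refine (Set.iInter_subset _ (k * (m - 1))).trans ?_
    have : (a⁻¹ : MulAut G) ^ (k * (m - 1)) = a ^ k := by
      rw [inv_pow, inv_eq_iff_mul_eq_one, ← pow_add]
      have : k * (m - 1) + k = m * k := by
        obtain ⟨m, rfl⟩ : ∃ m', m = m' + 1 := ⟨m - 1, by omega⟩
        simp; ring
      rw [this, pow_mul, ham, one_pow]
    rw [this]
  have h1 : (U : Set G) ⊆ A := by
    rw [h.1, hA1]
    calc (A : Set G) * _ ⊆ (A : Set G) * (A : Set G) := Set.mul_subset_mul_left hA2
      _ = A := by simp
  refine h1.trans ?_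
  rw [← hA1]
  refine (Set.iInter_subset _ 1).trans ?_
  simp

end general

section shift
variable {T : Type} [Group T] {F : Type} [Group F]

/-- the shift action -/
def shift : T →* MulAut (T → F) where
  toFun t :=
    { toFun := fun x s => x (t⁻¹ * s)
      invFun := fun x s => x (t * s)
      left_inv := fun x => by funext s; simp
      right_inv := fun x => by funext s; simp
      map_mul' := fun x y => rfl }
  map_one' := by
    ext x s; simp
  map_mul' t u := by
    ext x s
    simp [mul_assoc]

@[simp] lemma shift_apply (t : T) (x : T → F) (s : T) : shift t x s = x (t⁻¹ * s) := rfl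

/-- elements trivial on `K` -/
def UK (K : Set T) : Subgroup (T → F) where
  carrier := {y | ∀ s ∈ K, y s = 1}
  mul_mem' := by
    intro a b ha hb s hs
    simp [ha s hs, hb s hs]
  one_mem' := by intro s _; rfl
  inv_mem' := by
    intro a ha s hs
    simp [ha s hs]

lemma mem_UK (K : Set T) (y : T → F) : y ∈ UK K ↔ ∀ s ∈ K, y s = 1 := Iff.rfl

lemma image_UK (t : T) (K : Set T) :
    (shift t : MulAut (T → F)) '' ((UK K : Subgroup (T → F)) : Set (T → F)) = ((UK (t • K) : Subgroup (T → F)) : Set (T → F)) := by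
  ext y
  constructor
  · rintro ⟨x, hx, rfl⟩
    intro s hs
    rw [Set.mem_smul_set] at hs
    obtain ⟨s', hs', rfl⟩ := hs
    simpa using hx s' hs'
  · intro hy
    refine ⟨shift t⁻¹ y, ?_, ?_⟩
    · intro s hs
      simp only [shift_apply, inv_inv]
      exact hy _ ⟨s, hs, rfl⟩
    · rw [← MulAut.mul_apply, ← map_mul, mul_inv_cancel, map_one, MulAut.one_apply]

variable [TopologicalSpace F]

lemma isClosed_UK [T1Space F] (K : Set T) : IsClosed ((UK K : Subgroup (T → F)) : Set (T → F)) := by
  have : ((UK K : Subgroup (T → F)) : Set (T → F)) = ⋂ s ∈ K, (fun y : T → F => y s) ⁻¹' {1} := by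
    ext y; simp [mem_UK]
  rw [this]
  exact isClosed_biInter fun s _ => isClosed_singleton.preimage (continuous_apply s)

lemma isOpen_UK [DiscreteTopology F] (K : Set T) (hK : K.Finite) :
    IsOpen ((UK K : Subgroup (T → F)) : Set (T → F)) := by
  have : ((UK K : Subgroup (T → F)) : Set (T → F)) = ⋂ s ∈ K, (fun y : T → F => y s) ⁻¹' {1} := by
    ext y; simp [mem_UK]
  rw [this]
  exact hK.isOpen_biInter fun s _ => (isOpen_discrete _).preimage (continuous_apply s)

lemma continuous_shift (t : T) : Continuous (shift t : MulAut (T → F)) := by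
  refine continuous_pi fun s => ?_
  exact continuous_apply (t⁻¹ * s)

/-- nub of a torsion shift is trivial -/
lemma nub_shift [DiscreteTopology F] [Finite F] (t : T) (ht : IsOfFinOrder t) :
    (⋂ (U : Subgroup (T → F))
      (_ : IsCompact (U : Set (T → F)) ∧ IsOpen (U : Set (T → F)) ∧ Tidy (shift t) U),
      (U : Set (T → F))) = {1} := by
  apply Set.Subset.antisymm
  · intro x hx
    simp only [Set.mem_iInter] at hx
    rw [Set.mem_singleton_iff]
    funext s
    set K : Set T := (fun g : T => g * s) '' (Subgroup.zpowers t : Set T) with hK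
    have hfin : K.Finite := by
      have : Finite (Subgroup.zpowers t) := ht.finite_zpowers.to_subtype
      exact (Set.toFinite _).image _
    have htK : t • K = K := by
      rw [hK]
      ext g
      constructor
      · rintro ⟨_, ⟨u, hu, rfl⟩, rfl⟩
        refine ⟨t * u, ?_, by simp [mul_assoc]⟩
        exact mul_mem (Subgroup.mem_zpowers t) hu
      · rintro ⟨u, hu, rfl⟩
        refine ⟨t⁻¹ * u * s, ⟨t⁻¹ * u, ?_, rfl⟩, by simp [mul_assoc]⟩
        exact mul_mem (inv_mem (Subgroup.mem_zpowers t)) hu
    have h1 : Tidy (shift t) (UK K : Subgroup (T → F)) := by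
      refine tidy_of_inv _ _ ?_ (isClosed_UK K)
      rw [image_UK, htK]
    have h2 := hx (UK K) ⟨(isClosed_UK K).isCompact, isOpen_UK K hfin, h1⟩
    exact h2 s ⟨1, one_mem _, by simp⟩
  · rintro x rfl
    simp only [Set.mem_iInter]
    intro U _
    exact one_mem U

/-- an open subgroup invariant under all shifts is everything -/
lemma eq_top_of_inv [DiscreteTopology F] [Infinite T] (U : Subgroup (T → F))
    (hU : IsOpen (U : Set (T → F)))
    (h : ∀ t : T, (U : Set (T → F)) ⊆ (shift t : MulAut (T → F)) '' (U : Set (T → F))) :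
    U = ⊤ := by
  classical
  -- a basic open set
  obtain ⟨I, u, hIu, hsub⟩ := isOpen_pi_iff.1 hU 1 (one_mem U)
  have hUK : ((UK (I : Set T) : Subgroup (T → F)) : Set (T → F)) ⊆ U := by
    intro y hy
    apply hsub
    intro s hs
    rw [hy s hs]
    exact (hIu s hs).2
  -- a translation moving I off itself
  obtain ⟨t, ht⟩ : ∃ t : T, t ∉ (I ×ˢ I).image (fun p : T × T => p.1 * p.2⁻¹) :=
    Infinite.exists_notMem_finset _
  have htI : ∀ s ∈ I, t * s ∉ I := by
    intro s hs hts
    apply ht
    rw [Finset.mem_image]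
    exact ⟨(t * s, s), by simp [hs, hts], by simp⟩
  have hinv : ∀ t : T, (shift t : MulAut (T → F)) '' (U : Set (T → F)) ⊆ U := by
    intro t
    have h1 := h t⁻¹
    have h2 := Set.image_mono (f := (shift t : MulAut (T → F))) h1
    rw [← Set.image_comp, ← MulAut.coe_mul, ← map_mul, mul_inv_cancel, map_one] at h2
    simpa using h2
  have hUK2 : ((UK (t • (I : Set T)) : Subgroup (T → F)) : Set (T → F)) ⊆ U := by
    rw [← image_UK]
    exact (Set.image_mono hUK).trans (hinv t)
  rw [eq_top_iff]
  intro y _
  have hy : y = (fun s => if s ∈ I then y s else 1) * (fun s => if s ∈ I then 1 else y s) := by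
    funext s
    by_cases hs : s ∈ I <;> simp [hs]
  rw [hy]
  refine mul_mem (hUK2 ?_) (hUK ?_)
  · rintro s ⟨s', hs', rfl⟩
    have := htI s' hs'
    simp [this]
  · intro s hs
    have : s ∈ I := hs
    simp [this]

end shift

end Pool.Agent.H219R3.Nub
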